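import Pool.Agent.Lib.MP_caab05_ag.Z23.Base

/-! The archimedean bound for the determinant. -/

namespace Pool.Agent.Z23

open Finset Polynomial Pool.Agent.Caab Filter

namespace Arch

/-- Polynomials of Chebyshev type for the line. -/
noncomputable def U (a : ℚ) : ℕ → ℚ[X]
  | 0 => 1
  | 1 => X + C (1 / 2)
  | n + 2 => (X + C (1 / 2)) * U a (n + 1) + C a * U a n

theorem U_monic (a : ℚ) (n : ℕ) : IsMonicOfDegree (U a n) n := by
  have h : IsMonicOfDegree (X + C (1 / 2 : ℚ)) 1 := isMonicOfDegree_X_add_one _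
  induction n using Nat.twoStepInduction with
  | zero => simp [U]
  | one => exact h
  | more n h0 h1 =>
    rw [U, show n + 2 = 1 + (n + 1) by ring]
    exact (h.mul h1).add_right ((natDegree_C_mul_le _ _).trans_lt (by rw [h0.natDegree_eq]; omega))

theorem roots {y a G : ℝ} (hG : 0 < G) (h1 : a ≤ G ^ 2) (h2 : |y| * G ≤ G ^ 2 + a) :
    ∃ s t : ℂ, s + t = y ∧ s * t = a ∧ ‖s‖ ≤ G ∧ ‖t‖ ≤ G := by
  rcases le_total (y ^ 2 / 4) a with h | h
  · obtain ⟨r, hr⟩ : ∃ r : ℝ, r ^ 2 = a - y ^ 2 / 4 := ⟨_, Real.sq_sqrt (by linarith)⟩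
    refine ⟨⟨y / 2, r⟩, ⟨y / 2, -r⟩, by simp [Complex.ext_iff], ?_, ?_, ?_⟩
    · simp only [Complex.ext_iff, Complex.mul_re, Complex.mul_im, Complex.ofReal_re,
        Complex.ofReal_im]
      constructor <;> nlinarith
    all_goals
      refine abs_le_of_sq_le_sq' ?_ hG.le |>.2
      rw [Complex.sq_norm, Complex.normSq_mk]
      nlinarith
  · obtain ⟨r, r0, hr⟩ : ∃ r : ℝ, 0 ≤ r ∧ r ^ 2 = y ^ 2 / 4 - a :=
      ⟨_, Real.sqrt_nonneg _, Real.sq_sqrt (by linarith)⟩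
    have h3 : r ≤ G - |y| / 2 := (abs_le_of_sq_le_sq' (by nlinarith [sq_abs y]) (by
      nlinarith [abs_nonneg y])).2
    refine ⟨(y / 2 + r : ℝ), (y / 2 - r : ℝ), by push_cast; ring, ?_, ?_, ?_⟩
    · rw [← Complex.ofReal_mul]
      exact congrArg _ (by linarith)
    all_goals
      rw [Complex.norm_real, Real.norm_eq_abs, abs_le]
      constructor <;> linarith [le_abs_self y, neg_abs_le y]

theorem U_le {a : ℚ} {y G : ℝ} (hG : 0 < G) (h1 : (a : ℝ) ≤ G ^ 2)
    (h2 : |y| * G ≤ G ^ 2 + a) (n : ℕ) : ‖aeval (xx y) (U a n)‖ ≤ (n + 1) * G ^ n := by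
  obtain ⟨s, t, e1, e2, e3, e4⟩ := roots hG h1 h2
  have e5 : aeval (xx y) (X + C (1 / 2 : ℚ)) = (s + t) * Complex.I := by
    rw [e1]; simp [xx]; ring
  have key : ∀ n, aeval (xx y) (U a (n + 1)) =
      s * Complex.I * aeval (xx y) (U a n) + (t * Complex.I) ^ (n + 1) := fun n => by
    induction n with
    | zero => rw [U, U, e5, map_one]; ring
    | succ n ih =>
      rw [U, map_add, map_mul, map_mul, e5, aeval_C, show algebraMap ℚ ℂ a = s * t from by
        rw [e2]; simp, ih]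
      linear_combination (s * t * aeval (xx y) (U a n)) * Complex.I_sq
  induction n with
  | zero => simp [U]
  | succ n ih =>
    rw [key]
    refine (norm_add_le _ _).trans ?_
    simp only [norm_mul, norm_pow, Complex.norm_I, mul_one]
    have := mul_le_mul e3 ih (norm_nonneg _) hG.le
    have := pow_le_pow_left₀ (norm_nonneg t) e4 (n + 1)
    push_cast
    nlinarith [pow_succ G n]

theorem prod_block {M : Type} [CommMonoid M] (f : ℕ → M) (k m : ℕ) :
    ∏ i ∈ range (k * m), f i = ∏ l ∈ range k, ∏ r ∈ range m, f (l * m + r) := by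
  induction k with
  | zero => simp
  | succ k ih => rw [Nat.succ_mul, prod_range_add, ih, prod_range_succ]

theorem block (y : ℝ) (l m : ℕ) :
    ((m : ℝ) ^ 2 * (l ^ 2 + l) + y ^ 2) ^ m ≤ ∏ r ∈ range m, ‖xx y + (l * m + r + 1 : ℕ)‖ ^ 2 ∧
    ∏ r ∈ range m, ‖xx y + (l * m + r + 1 : ℕ)‖ ^ 2 ≤
      ((m : ℝ) ^ 2 * (l ^ 2 + l + 1 / 2) + y ^ 2) ^ m := by
  have e : (∏ r ∈ range m, ‖xx y + (l * m + r + 1 : ℕ)‖ ^ 2) ^ 2 = ∏ r ∈ range m,
      ((l * m + (r + 1 / 2 : ℝ)) ^ 2 + y ^ 2) * (((l + 1) * m - (r + 1 / 2 : ℝ)) ^ 2 + y ^ 2) := by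
    rw [sq, prod_mul_distrib]
    congr 1
    · exact prod_congr rfl fun r _ => by rw [normSq_xx_add]; push_cast; ring
    · rw [← prod_range_reflect]
      refine prod_congr rfl fun r hr => ?_
      rw [normSq_xx_add, show l * m + (m - 1 - r) + 1 = l * m + (m - r) by
        have := mem_range.1 hr; omega, Nat.cast_add, Nat.cast_sub (mem_range.1 hr).le]
      push_cast
      ring
  have h : ∀ r ∈ range m, 0 ≤ (r + 1 / 2 : ℝ) * (m - (r + 1 / 2)) := fun r hr => by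
    have : (r + 1 : ℝ) ≤ m := by exact_mod_cast mem_range.1 hr
    exact mul_nonneg (by positivity) (by linarith)
  have p : ∀ c : ℝ, (c ^ m) ^ 2 = ∏ _r ∈ range m, c ^ 2 := fun c => by
    rw [prod_const, card_range, ← pow_mul, ← pow_mul, mul_comm]
  constructor <;> refine (abs_le_of_sq_le_sq' ?_ (by positivity)).2 <;> rw [e, p] <;>
    refine prod_le_prod (fun _ _ => by positivity) fun r hr => ?_ <;> have := h r hr <;>
    generalize (r + 1 / 2 : ℝ) = u at this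
  · refine (pow_le_pow_left₀ (by positivity) (show _ ≤ (l * m + u) * ((l + 1) * m - u) + y ^ 2 by
      linarith) 2).trans ?_
    nlinarith [mul_nonneg (sq_nonneg y) (sq_nonneg (l * m + u - ((l + 1) * m - u)))]
  · refine le_trans ?_ (pow_le_pow_left₀ (by positivity) (show ((l * m + u) ^ 2 +
      ((l + 1) * m - u) ^ 2) / 2 + y ^ 2 ≤ _ by linarith) 2)
    nlinarith [sq_nonneg ((l * m + u) ^ 2 - ((l + 1) * m - u) ^ 2)]

theorem DS_block (y : ℝ) (l k m : ℕ) :
    ‖aeval (xx y) (DS (Ico (l * m + 1) ((l + k) * m + 1)))‖ ^ 2 =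
      ∏ i ∈ Ico l (l + k), ∏ r ∈ range m, ‖xx y + (i * m + r + 1 : ℕ)‖ ^ 2 := by
  rw [DS_aeval, norm_prod, ← prod_pow, prod_Ico_eq_prod_range, prod_Ico_eq_prod_range,
    show (l + k) * m + 1 - (l * m + 1) = k * m by rw [add_mul]; omega, prod_block,
    Nat.add_sub_cancel_left]
  exact prod_congr rfl fun i _ => prod_congr rfl fun r _ => by
    rw [show l * m + 1 + (i * m + r) = (l + i) * m + r + 1 by ring]

theorem num_le {m : ℕ} (hm : 0 < m) (y : ℝ) :
    ‖aeval (xx y) (DS (SZ m))‖ ^ 2 ≤ ((m : ℝ) ^ 8 * Num (|y| / m)) ^ m := by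
  have h := DS_block y 0 4 m
  rw [zero_mul, zero_add, zero_add, ← range_eq_Ico] at h
  rw [SZ, h, Num, show (m : ℝ) ^ 8 = ∏ _l ∈ range 4, (m : ℝ) ^ 2 by simp [← pow_mul],
    ← prod_mul_distrib, ← prod_pow]
  refine prod_le_prod (fun _ _ => by positivity) fun l _ => (block y l m).2.trans_eq ?_
  rw [div_pow, sq_abs]
  congr 1
  field_simp

theorem le_den {m : ℕ} (hm : 0 < m) (y : ℝ) :
    ((m : ℝ) ^ 40 * Den (|y| / m)) ^ m ≤ ‖aeval (xx y) (DS (SP m))‖ ^ 2 := by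
  rw [SP, DS_block y 4 20 m, Den, show (m : ℝ) ^ 40 = ∏ _l ∈ Ico 4 24, (m : ℝ) ^ 2 by
    simp [← pow_mul], ← prod_mul_distrib, ← prod_pow]
  refine prod_le_prod (fun _ _ => by positivity) fun l _ => (Eq.le ?_).trans (block y l m).1
  rw [div_pow, sq_abs]
  congr 1
  field_simp

/-- The rows. -/
noncomputable def Row (A : ℕ → ℚ) (m i : ℕ) : ℚ[X] :=
  (∏ l ∈ range (i / m), U (A l * m ^ 2) m) * U (A (i / m) * m ^ 2) (i % m)

theorem Row_monic (A : ℕ → ℚ) (m i : ℕ) : IsMonicOfDegree (Row A m i) i := by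
  have h : ∀ k, IsMonicOfDegree (∏ l ∈ range k, U (A l * m ^ 2) m) (k * m) := fun k => by
    induction k with
    | zero => simp
    | succ k ih => rw [prod_range_succ, Nat.succ_mul]; exact ih.mul (U_monic ..)
  simpa only [Nat.div_add_mod', Row] using (h (i / m)).mul (U_monic (A (i / m) * m ^ 2) (i % m))

theorem Row_le {A : ℕ → ℚ} {G : ℕ → ℝ} {m i : ℕ} (hm : 0 < m) (hi : i < 23 * m) {y : ℝ}
    (h : ∀ l < 23, 0 < G l ∧ (A l : ℝ) ≤ G l ^ 2 ∧ |y| / m * G l ≤ G l ^ 2 + A l) :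
    ‖aeval (xx y) (Row A m i)‖ ≤
      (m + 1) ^ 23 * m ^ i * ((∏ l ∈ range (i / m), G l) ^ m * G (i / m) ^ (i % m)) := by
  have hk : i / m < 23 := (Nat.div_lt_iff_lt_mul hm).2 hi
  have m0 : (0 : ℝ) < m := by exact_mod_cast hm
  have hU : ∀ l < 23, ∀ n ≤ m, ‖aeval (xx y) (U (A l * m ^ 2) n)‖ ≤ (m + 1) * (m * G l) ^ n :=
    fun l hl n hn => by
      obtain ⟨h1, h2, h3⟩ := h l hl
      rw [div_mul_eq_mul_div, div_le_iff₀ m0] at h3
      refine (U_le (mul_pos m0 h1) ?_ ?_ n).trans (by gcongr)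
      · push_cast; nlinarith [sq_nonneg (m : ℝ)]
      · push_cast; nlinarith
  have h0 : ∀ l ∈ range (i / m), 0 ≤ G l := fun l hl => (h l ((mem_range.1 hl).trans hk)).1.le
  have h1 := (h _ hk).1
  have h2 := prod_nonneg h0
  rw [Row, map_mul, map_prod, norm_mul, norm_prod]
  refine (mul_le_mul (prod_le_prod (fun _ _ => norm_nonneg _) fun l hl =>
    hU l ((mem_range.1 hl).trans hk) m le_rfl) (hU _ hk _ (Nat.mod_lt i hm).le) (norm_nonneg _)
      (prod_nonneg fun l hl => by have := h0 l hl; positivity)).trans ?_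
  simp only [mul_pow, prod_mul_distrib, prod_const, card_range, prod_pow]
  conv_rhs => rw [← Nat.div_add_mod i m, pow_add, pow_mul, Nat.div_add_mod]
  calc _ = ((m : ℝ) + 1) ^ (i / m + 1) * (((m : ℝ) ^ m) ^ (i / m) * m ^ (i % m) *
      ((∏ l ∈ range (i / m), G l) ^ m * G (i / m) ^ (i % m))) := by ring
    _ ≤ _ := by
      rw [mul_assoc ((m + 1 : ℝ) ^ 23)]
      gcongr
      · linarith
      · omega

theorem ineq {p ν δ e E N D Q g f f' M a : ℝ} {m r j : ℕ} (hj : m = r + j) (M0 : 0 < M) (p0 : 0 ≤ p)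
    (e1 : p ≤ a * (Q ^ m * g ^ r)) (e2 : ν ^ 2 ≤ (M ^ 8 * N) ^ m) (e3 : (M ^ 40 * D) ^ m ≤ δ ^ 2)
    (e4 : 0 < δ) (e5 : (N * E * Q ^ 4) ^ j * (N * E * (Q ^ 4 * g ^ 4)) ^ r ≤
      (f ^ 2 * D) ^ j * (f' ^ 2 * D) ^ r) (e6 : e ^ 2 * E ^ m = 1) (e7 : 0 < e)
    (e8 : 0 ≤ f ^ j * f' ^ r) : p ^ 2 * (ν / δ) ≤ a ^ 2 / M ^ (16 * m) * (f ^ j * f' ^ r) * e := by
  refine (abs_le_of_sq_le_sq' ?_ (by positivity)).2
  rw [← mul_div_assoc, div_mul_eq_mul_div, div_mul_eq_mul_div, div_pow, div_pow,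
    div_le_div_iff₀ (by positivity) (by positivity)]
  calc _ = p ^ 4 * ν ^ 2 * M ^ (32 * m) := by ring
    _ ≤ (a * (Q ^ m * g ^ r)) ^ 4 * (M ^ 8 * N) ^ m * M ^ (32 * m) := by gcongr
    _ = a ^ 4 * M ^ (40 * m) * e ^ 2 *
        ((N * E * Q ^ 4) ^ j * (N * E * (Q ^ 4 * g ^ 4)) ^ r) := by
      subst hj
      linear_combination (-(a * (Q ^ (r + j) * g ^ r)) ^ 4 * (M ^ 8 * N) ^ (r + j) *
        M ^ (32 * (r + j))) * e6
    _ ≤ a ^ 4 * M ^ (40 * m) * e ^ 2 * ((f ^ 2 * D) ^ j * (f' ^ 2 * D) ^ r) := by gcongr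
    _ = (a ^ 2 * (f ^ j * f' ^ r) * e) ^ 2 * (M ^ 40 * D) ^ m := by subst hj; ring
    _ ≤ _ := by gcongr

/-- The bounds for the rows. -/
noncomputable def sz (F : ℕ → ℚ) (m i : ℕ) : ℝ :=
  (m + 1) ^ 46 * m ^ (2 * i) / m ^ (16 * m) * (F (i / m) ^ (m - i % m) * F (i / m + 1) ^ (i % m))

theorem row_sq {A F : ℕ → ℚ} (hF : ∀ k, 0 < F k) {m i : ℕ} (hm : 0 < m) (hi : i < 23 * m) {y : ℝ}
    (h : ∃ G : ℕ → ℝ, (∀ l < 23, 0 < G l ∧ (A l : ℝ) ≤ G l ^ 2 ∧ |y| / m * G l ≤ G l ^ 2 + A l) ∧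
      ∀ k ≤ 23, Num (|y| / m) * Real.exp (-12.56 * (|y| / m)) * ∏ l ∈ range k, G l ^ 4 ≤
        (F k : ℝ) ^ 2 * Den (|y| / m)) :
    ‖aeval (xx y) (Row A m i)‖ ^ 2 * (‖aeval (xx y) (DS (SZ m))‖ / ‖aeval (xx y) (DS (SP m))‖) ≤
      sz F m i * Real.exp (6.28 * |y|) := by
  obtain ⟨G, h1, h2⟩ := h
  have hk : i / m < 23 := (Nat.div_lt_iff_lt_mul hm).2 hi
  have m0 : (0 : ℝ) < m := by exact_mod_cast hm
  have e1 := Row_le hm hi h1
  have e2 := num_le hm y
  have e3 := le_den hm y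
  have e4 := norm_pos_iff.2 (DS_aeval_ne (zero_notMem_SP m) y)
  have n0 : 0 ≤ Num (|y| / m) := prod_nonneg fun _ _ => by positivity
  have g0 : 0 ≤ ∏ l ∈ range (i / m), G l :=
    prod_nonneg fun l hl => (h1 l ((mem_range.1 hl).trans hk)).1.le
  have g1 := (h1 _ hk).1
  have f0 : (0 : ℝ) < F (i / m) := by exact_mod_cast hF _
  have f1 : (0 : ℝ) < F (i / m + 1) := by exact_mod_cast hF _
  have b0 := h2 _ hk.le
  have b1 := h2 _ hk
  rw [prod_range_succ] at b1
  rw [prod_pow] at b0 b1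
  have e5 := mul_le_mul (pow_le_pow_left₀ (by positivity) b0 (m - i % m))
    (pow_le_pow_left₀ (by positivity) b1 (i % m)) (by positivity)
    (pow_nonneg (le_trans (by positivity) b0) _)
  have e6 : Real.exp (6.28 * |y|) ^ 2 * Real.exp (-12.56 * (|y| / m)) ^ m = 1 := by
    rw [← Real.exp_nat_mul, ← Real.exp_nat_mul, ← Real.exp_add, Real.exp_eq_one_iff]
    field_simp
    norm_num
  obtain ⟨j, hj⟩ := Nat.exists_eq_add_of_le (Nat.mod_lt i hm).le
  rw [sz, show m - i % m = j by omega] at *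
  refine (ineq hj m0 (norm_nonneg _) e1 e2 e3 e4 e5 e6 (Real.exp_pos _) (by positivity)).trans_eq ?_
  ring

theorem entry (hI : SInt) (hR : SRep) {a b c : ℤ} {β : ℚ[X] →ₗ[ℚ] ℚ} (hβ : IsB a b β)
    (hr : Rel a b c) : ∃ K : ℝ, 0 < K ∧ ∀ (m : ℕ) (P Q : ℚ[X]) (s t : ℝ), 0 ≤ s → 0 ≤ t →
      (∀ y, ‖aeval (xx y) P‖ ^ 2 * (‖aeval (xx y) (DS (SZ m))‖ / ‖aeval (xx y) (DS (SP m))‖) ≤
        s * Real.exp (6.28 * |y|)) →
      (∀ y, ‖aeval (xx y) Q‖ ^ 2 * (‖aeval (xx y) (DS (SZ m))‖ / ‖aeval (xx y) (DS (SP m))‖) ≤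
        t * Real.exp (6.28 * |y|)) → |(Lam a b c β m (P * Q) : ℝ)| ≤ K * (√s * √t) := by
  obtain ⟨K, K0, hK⟩ := hI a b
  refine ⟨K, K0, fun m P Q s t s0 t0 hP hQ => ?_⟩
  rw [← Real.norm_eq_abs, ← Complex.norm_real, Complex.ofReal_ratCast, Lam_apply,
    hR a b c β hβ hr _ (zero_notMem_SP m)]
  refine (hK _ _ (PG.ratio (zero_notMem_SP m) _).1 fun y =>
    (abs_le_of_sq_le_sq' ?_ (by positivity)).2).2
  rw [mul_pow, mul_pow, Real.sq_sqrt s0, Real.sq_sqrt t0, map_mul, map_mul, norm_div, norm_mul,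
    norm_mul]
  refine (Eq.trans_le ?_ (mul_le_mul (hP y) (hQ y) (by positivity) (by positivity))).trans_eq ?_ <;>
    ring

theorem det_le {n : ℕ} (M : Matrix (Fin n) (Fin n) ℝ) {K : ℝ} {s : Fin n → ℝ} (hs : ∀ i, 0 < s i)
    (h : ∀ i j, |M i j| ≤ K * (√(s i) * √(s j))) : |M.det| ≤ (∏ i, s i) * (n.factorial * K ^ n) := by
  have h0 := fun i => Real.sqrt_pos.2 (hs i)
  have h1 := Matrix.det_le (A := Matrix.of fun i j => M i j / (√(s i) * √(s j)))
    (abv := AbsoluteValue.abs) (x := K) fun i j => by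
      simpa [abs_div, abs_mul, abs_of_pos (h0 _), div_le_iff₀ (mul_pos (h0 i) (h0 j))] using h i j
  have h2 : M = Matrix.of fun i j => √(s i) * Matrix.of (fun i j => √(s j) *
      Matrix.of (fun i j => M i j / (√(s i) * √(s j))) i j) i j := by
    ext i j
    have := h0 i
    have := h0 j
    simp only [Matrix.of_apply]
    field_simp
  rw [h2, Matrix.det_mul_column, Matrix.det_mul_row, ← mul_assoc, ← prod_mul_distrib, abs_mul]
  simp only [Real.mul_self_sqrt (hs _).le, abs_of_pos (prod_pos fun i _ => hs i)]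
  exact mul_le_mul_of_nonneg_left (by simpa using h1) (prod_pos fun i _ => hs i).le

theorem sum_id (n : ℕ) : ∑ i ∈ range n, (i : ℝ) = n * (n - 1) / 2 := by
  induction n with
  | zero => simp
  | succ n ih => rw [sum_range_succ, ih]; push_cast; ring

theorem sum_log {f : ℕ → ℝ} (h0 : f 0 ≤ f 22) (h1 : f 22 ≤ 0) (h2 : f 23 ≤ 0)
    (h3 : ∑ k ∈ range 22, (f k + f (k + 1)) ≤ -1809) {m n : ℕ} (hm : 0 < m) (hn : 22 * m ≤ n)
    (hn' : n ≤ 23 * m) : ∑ i ∈ range n, (((m - i % m : ℕ) : ℝ) * f (i / m) +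
      (i % m : ℕ) * f (i / m + 1)) ≤ -904 * (m : ℝ) ^ 2 := by
  rw [← sum_range_add_sum_Ico _ hn]
  refine (add_le_of_nonpos_right (sum_nonpos fun i hi => ?_)).trans ?_
  · rw [show i / m = 22 from Nat.div_eq_of_lt_le (mem_Ico.1 hi).1 ((mem_Ico.1 hi).2.trans_le hn')]
    exact add_nonpos (mul_nonpos_of_nonneg_of_nonpos (Nat.cast_nonneg _) h1)
      (mul_nonpos_of_nonneg_of_nonpos (Nat.cast_nonneg _) h2)
  have e : ∀ k, ∑ r ∈ range m, (((m - (k * m + r) % m : ℕ) : ℝ) * f ((k * m + r) / m) +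
      ((k * m + r) % m : ℕ) * f ((k * m + r) / m + 1)) =
      m ^ 2 / 2 * (f k + f (k + 1)) + m / 2 * (f k - f (k + 1)) := fun k => by
    rw [sum_congr rfl (g := fun r : ℕ => m * f k + (r : ℝ) * (f (k + 1) - f k)) fun r hr => by
      rw [Nat.mul_add_mod_self_right, Nat.mod_eq_of_lt (mem_range.1 hr), Nat.cast_sub
        (mem_range.1 hr).le, add_comm (k * m), Nat.add_mul_div_right _ _ hm,
        Nat.div_eq_of_lt (mem_range.1 hr), zero_add]
      ring, sum_add_distrib, ← sum_mul, ← sum_mul, sum_id, sum_const, card_range, nsmul_eq_mul]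
    ring
  refine (Eq.le (prod_block (M := Multiplicative ℝ) _ 22 m)).trans
    ((Eq.le (sum_congr rfl fun k _ => e k)).trans ?_)
  rw [sum_add_distrib, ← mul_sum, ← mul_sum, sum_range_sub']
  nlinarith [sq_nonneg (m : ℝ), (Nat.cast_nonneg m : (0 : ℝ) ≤ m)]

theorem small (K : ℝ) : ∀ᶠ m : ℕ in atTop, ∀ n : ℕ, 0 < n → n ≤ 23 * m →
    n * (46 * Real.log (m + 1)) + (n * Real.log n + n * Real.log K) ≤ 4 * (m : ℝ) ^ 2 := by
  filter_upwards [tendsto_natCast_atTop_atTop.eventually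
    (Real.isLittleO_log_id_atTop.bound (c := 1 / 1000) (by norm_num)),
    (tendsto_natCast_atTop_atTop (R := ℝ)).eventually_ge_atTop (23 * (68 + |Real.log K|)),
    eventually_ge_atTop 1] with m h1 h2 h3 n n0 hn
  have m1 : (1 : ℝ) ≤ m := by exact_mod_cast h3
  have n1 : (0 : ℝ) < n := by exact_mod_cast n0
  have n2 : (n : ℝ) ≤ 23 * m := by exact_mod_cast hn
  have l1 : Real.log (m + 1) ≤ 1 + Real.log m := by
    have := Real.log_le_log (by positivity) (show (m : ℝ) + 1 ≤ 2 * m by linarith)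
    rw [Real.log_mul (by norm_num) (by positivity)] at this
    linarith [Real.log_le_sub_one_of_pos (show (0 : ℝ) < 2 by norm_num)]
  have l2 : Real.log n ≤ 22 + Real.log m := by
    have := Real.log_le_log n1 n2
    rw [Real.log_mul (by norm_num) (by positivity)] at this
    linarith [Real.log_le_sub_one_of_pos (show (0 : ℝ) < 23 by norm_num)]
  rw [Real.norm_eq_abs, Real.norm_eq_abs, id, abs_of_nonneg (Real.log_nonneg m1),
    abs_of_nonneg (by positivity)] at h1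
  have := mul_le_mul n2 (show 46 * Real.log (m + 1) + Real.log n + Real.log K ≤ 4 / 23 * m by
    linarith [le_abs_self (Real.log K)])
  rcases le_total 0 (46 * Real.log (m + 1) + Real.log n + Real.log K) with h | h
  · nlinarith [this h (by positivity)]
  · nlinarith

end Arch

open Arch

theorem arch_thm : SInt → SRep → SCert → SArch := by
  rintro hI hR ⟨A, F, -, F0, F1, F2, F3, F4, hG⟩ a b c β hβ hr
  obtain ⟨K, K0, hK⟩ := entry hI hR hβ hr
  have f0 : ∀ k, (0 : ℝ) < F k := fun k => by exact_mod_cast F0 k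
  filter_upwards [small K, eventually_ge_atTop 10] with m h1 h2 n n1 n2 h0
  have hm : 0 < m := by omega
  have m0 : (0 : ℝ) < m := by exact_mod_cast hm
  have s0 : ∀ i, 0 < sz F m i := fun i => by
    have := f0 (i / m)
    have := f0 (i / m + 1)
    unfold sz
    positivity
  have hs := fun (i : Fin n) (y : ℝ) =>
    row_sq F0 hm (show i < 23 * m by omega) (hG (|y| / m) (by positivity))
  have h3 := det_le ((Matrix.of fun i j : Fin n => Lam a b c β m (Row A m i * Row A m j)).map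
    fun x => (x : ℝ)) (fun i => s0 i) fun i j => hK m _ _ _ _ (s0 i).le (s0 j).le (hs i) (hs j)
  rw [← Rat.cast_det, ← Del_basis a b c β m n _ (fun i _ => (Row_monic A m i).monic)
    fun i _ => (Row_monic A m i).natDegree_eq, Fin.prod_univ_eq_prod_range (sz F m)] at h3
  have h4 := Real.log_le_log (abs_pos.2 (by exact_mod_cast h0)) h3
  rw [Real.log_mul (prod_pos fun i _ => s0 i).ne' (by positivity),
    Real.log_mul (by positivity) (by positivity), Real.log_prod fun i _ => (s0 i).ne',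
    Real.log_pow, sum_congr rfl (g := fun i : ℕ => 46 * Real.log (m + 1) +
      (2 * Real.log m * i - 16 * m * Real.log m) + (((m - i % m : ℕ) : ℝ) * Real.log (F (i / m)) +
        (i % m : ℕ) * Real.log (F (i / m + 1)))) fun i _ => by
      have := f0 (i / m)
      have := f0 (i / m + 1)
      rw [sz, Real.log_mul (by positivity) (by positivity), Real.log_div (by positivity)
        (by positivity), Real.log_mul (by positivity) (by positivity),
        Real.log_mul (by positivity) (by positivity)]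
      simp only [Real.log_pow]
      push_cast
      ring,
    sum_add_distrib, sum_add_distrib, sum_sub_distrib, ← mul_sum _ _ (2 * _), sum_id] at h4
  simp only [sum_const, card_range, nsmul_eq_mul] at h4
  have h5 := sum_log (f := fun k => Real.log (F k)) (Real.log_le_log (f0 0) (by exact_mod_cast F1))
    (Real.log_nonpos (f0 _).le (by exact_mod_cast F2))
    (Real.log_nonpos (f0 _).le (by exact_mod_cast F3)) (by
      have := Real.log_le_log (prod_pos fun k _ => mul_pos (f0 k) (f0 (k + 1)))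
        (show ∏ k ∈ range 22, ((F k : ℝ) * F (k + 1)) ≤ 1 / 2 ^ 2610 by
          simpa only [Rat.cast_prod, Rat.cast_mul, Rat.cast_div, Rat.cast_pow, Rat.cast_one,
            Rat.cast_ofNat] using (Rat.cast_le (K := ℝ)).2 F4)
      rw [Real.log_prod fun k _ => (mul_pos (f0 k) (f0 (k + 1))).ne', one_div, Real.log_inv,
        Real.log_pow, sum_congr rfl fun k _ => Real.log_mul (f0 k).ne' (f0 (k + 1)).ne'] at this
      push_cast at this
      linarith [Real.log_two_gt_d9]) hm (show 22 * m ≤ n by omega) (by omega)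
  have h6 := Real.log_le_log (by positivity)
    (show (n.factorial : ℝ) ≤ (n : ℝ) ^ n by exact_mod_cast Nat.factorial_le_pow n)
  have h7 := h1 n (by omega) (by omega)
  rw [Real.log_pow] at h6
  unfold kap
  linarith

end Pool.Agent.Z23
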