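import Pool.Agent.Lib.MP_caab05_ag.Z23.Defs

/-! Basic facts: linearity of the functional, the expansion in simple fractions, the line. -/

namespace Pool.Agent.Z23

open Finset Polynomial Pool.Agent.Caab

theorem DS_monic (S : Finset ℕ) : (DS S).Monic :=
  monic_prod_of_monic _ _ fun _ _ => monic_X_add_C _

theorem DS_natDegree (S : Finset ℕ) : (DS S).natDegree = S.card := by
  rw [DS, natDegree_prod_of_monic _ _ fun _ _ => monic_X_add_C _]
  simp only [natDegree_X_add_C, sum_const, smul_eq_mul, mul_one]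

theorem DS_eval (S : Finset ℕ) (y : ℚ) : (DS S).eval y = ∏ j ∈ S, (y + j) := by
  simp [DS, eval_prod]

theorem DS_aeval (S : Finset ℕ) (z : ℂ) : aeval z (DS S) = ∏ j ∈ S, (z + j) := by
  simp [DS, map_prod]

theorem DS_erase {S : Finset ℕ} {j : ℕ} (h : j ∈ S) :
    DS S = (X + C (j : ℚ)) * DS (S.erase j) := (mul_prod_erase _ _ h).symm

theorem DS_insert {S : Finset ℕ} {j : ℕ} (h : j ∉ S) :
    DS (insert j S) = (X + C (j : ℚ)) * DS S := prod_insert h

theorem DS_Ico (m N : ℕ) (y : ℚ) : (DS (Ico m (m + N))).eval y = rf (y + m) N := by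
  rw [DS_eval, prod_Ico_eq_prod_range, rf, Nat.add_sub_cancel_left]
  exact prod_congr rfl fun i _ => by push_cast; ring

theorem SZ_eval (μ : ℕ) (y : ℚ) : (DS (SZ μ)).eval y = rf (y + 1) (4 * μ) := by
  have := DS_Ico 1 (4 * μ) y
  rwa [add_comm 1 (4 * μ), Nat.cast_one] at this

theorem SP_eval (μ : ℕ) (y : ℚ) : (DS (SP μ)).eval y = rf (y + (4 * μ + 1 : ℕ)) (20 * μ) := by
  have := DS_Ico (4 * μ + 1) (20 * μ) y
  rwa [show 4 * μ + 1 + 20 * μ = 24 * μ + 1 by ring] at this

theorem card_SZ (μ : ℕ) : (SZ μ).card = 4 * μ := by simp [SZ]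

theorem card_SP (μ : ℕ) : (SP μ).card = 20 * μ := by simp only [SP, Nat.card_Ico]; omega

theorem zero_notMem_SP (μ : ℕ) : 0 ∉ SP μ := by simp [SP]

theorem res_den_ne (S : Finset ℕ) (j : ℕ) : ∏ k ∈ S.erase j, ((k : ℚ) - j) ≠ 0 :=
  prod_ne_zero_iff.2 fun _ hk => sub_ne_zero.2 (by exact_mod_cast ne_of_mem_erase hk)

/-- expansion in simple fractions -/
theorem pf (S : Finset ℕ) (F : ℚ[X]) :
    F = DS S * (F /ₘ DS S) + ∑ j ∈ S, C (res S F j) * DS (S.erase j) := by
  have h1 := modByMonic_add_div F (DS S)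
  have hdeg : (DS S).degree = S.card := by
    rw [degree_eq_natDegree (DS_monic S).ne_zero, DS_natDegree]
  have h2 : F %ₘ DS S = ∑ j ∈ S, C (res S F j) * DS (S.erase j) := by
    refine eq_of_degree_sub_lt_of_eval_index_eq S (v := fun j : ℕ => -(j : ℚ))
      (fun i _ j _ h => by simpa using h) ?_ ?_
    · refine lt_of_le_of_lt (degree_sub_le _ _) (max_lt (hdeg ▸ degree_modByMonic_lt _ (DS_monic S)) ?_)
      refine lt_of_le_of_lt (degree_sum_le _ _) ?_
      rw [Finset.sup_lt_iff (WithBot.bot_lt_coe _)]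
      intro j hj
      refine lt_of_le_of_lt degree_le_natDegree ?_
      have := natDegree_C_mul_le (res S F j) (DS (S.erase j))
      rw [DS_natDegree, card_erase_of_mem hj] at this
      have h3 := card_pos.2 ⟨j, hj⟩
      exact_mod_cast (by omega)
    · intro j hj
      have h3 : (DS S).eval (-(j : ℚ)) = 0 := by
        rw [DS_eval]; exact prod_eq_zero hj (by ring)
      have h4 := congrArg (eval (-(j : ℚ))) h1
      rw [eval_add, eval_mul, h3, zero_mul, add_zero] at h4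
      rw [h4, eval_finsetSum, sum_eq_single j]
      · rw [eval_mul, eval_C, DS_eval, res]
        simp only [neg_add_eq_sub]
        rw [div_mul_cancel₀ _ (res_den_ne S j)]
      · intro i _ hij
        rw [eval_mul, DS_eval, prod_eq_zero (mem_erase.2 ⟨hij.symm, hj⟩) (by ring), mul_zero]
      · exact fun h => absurd hj h
  rw [← h2, add_comm, h1]

theorem div_add (S : Finset ℕ) (F G : ℚ[X]) : (F + G) /ₘ DS S = F /ₘ DS S + G /ₘ DS S := by
  refine (div_modByMonic_unique _ (F %ₘ DS S + G %ₘ DS S) (DS_monic S) ⟨?_, ?_⟩).1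
  · linear_combination modByMonic_add_div F (DS S) + modByMonic_add_div G (DS S)
  · exact lt_of_le_of_lt (degree_add_le _ _)
      (max_lt (degree_modByMonic_lt _ (DS_monic S)) (degree_modByMonic_lt _ (DS_monic S)))

theorem div_smul (S : Finset ℕ) (r : ℚ) (F : ℚ[X]) : (r • F) /ₘ DS S = r • (F /ₘ DS S) := by
  refine (div_modByMonic_unique _ (r • (F %ₘ DS S)) (DS_monic S) ⟨?_, ?_⟩).1
  · rw [mul_smul_comm, ← smul_add, modByMonic_add_div]
  · exact lt_of_le_of_lt (degree_smul_le _ _) (degree_modByMonic_lt _ (DS_monic S))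

/-- the functional as a linear map -/
noncomputable def MML (a b c : ℤ) (β : ℚ[X] →ₗ[ℚ] ℚ) (S : Finset ℕ) : ℚ[X] →ₗ[ℚ] ℚ where
  toFun := MM a b c β S
  map_add' F G := by
    simp only [MM, div_add, map_add, res, eval_add, add_div, add_mul, sum_add_distrib]
    ring
  map_smul' r F := by
    simp only [MM, div_smul, map_smul, res, eval_smul, smul_eq_mul, RingHom.id_apply, mul_add,
      mul_sum, mul_div_assoc, mul_assoc]

theorem MML_apply (a b c : ℤ) (β : ℚ[X] →ₗ[ℚ] ℚ) (S : Finset ℕ) (F : ℚ[X]) :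
    MML a b c β S F = MM a b c β S F := rfl

/-- the functional whose Hankel determinant is `Del` -/
noncomputable def Lam (a b c : ℤ) (β : ℚ[X] →ₗ[ℚ] ℚ) (μ : ℕ) : ℚ[X] →ₗ[ℚ] ℚ :=
  (MML a b c β (SP μ)).comp (LinearMap.mulLeft ℚ (DS (SZ μ)))

theorem Lam_apply (a b c : ℤ) (β : ℚ[X] →ₗ[ℚ] ℚ) (μ : ℕ) (R : ℚ[X]) :
    Lam a b c β μ R = MM a b c β (SP μ) (DS (SZ μ) * R) := rfl

theorem Del_eq (a b c : ℤ) (β : ℚ[X] →ₗ[ℚ] ℚ) (μ n : ℕ) :
    Del a b c β μ n = hank (fun l => Lam a b c β μ (X ^ l)) n := rfl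

/-- the determinant in any two monic bases -/
theorem Del_basis (a b c : ℤ) (β : ℚ[X] →ₗ[ℚ] ℚ) (μ n : ℕ) (Q : ℕ → ℚ[X])
    (hQ : ∀ i < n, (Q i).Monic) (hd : ∀ i < n, (Q i).natDegree = i) :
    Del a b c β μ n = (Matrix.of fun i j : Fin n => Lam a b c β μ (Q i * Q j)).det :=
  (hank_basis (Lam a b c β μ) n (fun i => Q i) (fun i => Q i) (fun i => hQ i i.2)
    (fun i => hd i i.2) (fun i => hQ i i.2) (fun i => hd i i.2)).symm

theorem delta_surj (q : ℚ[X]) : ∃ Q : ℚ[X], Q.comp (X + 1) - Q = q := by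
  induction q using Polynomial.induction_on' with
  | add p q hp hq =>
    obtain ⟨P, rfl⟩ := hp
    obtain ⟨Q, rfl⟩ := hq
    exact ⟨P + Q, by rw [add_comp]; ring⟩
  | monomial n r =>
    refine ⟨C (r / (n + 1)) * Polynomial.bernoulli (n + 1), ?_⟩
    rw [mul_comp, C_comp, add_comm X 1, bernoulli_comp_one_add_X, ← C_mul_X_pow_eq_monomial]
    have h : (C r : ℚ[X]) = C (r / (n + 1)) * ((n + 1 : ℕ) : ℚ[X]) := by
      rw [← C_eq_natCast, ← C_mul]
      congr 1
      push_cast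
      field_simp
    rw [h, nsmul_eq_mul, Nat.add_sub_cancel]
    ring

theorem delta_ker {Q : ℚ[X]} (h : Q.comp (X + 1) - Q = 0) : Q = C (Q.eval 0) := by
  have h1 : ∀ k : ℕ, Q.eval (k : ℚ) = Q.eval 0 := by
    intro k
    induction k with
    | zero => simp
    | succ k ih =>
      have := congrArg (eval (k : ℚ)) h
      simp only [eval_sub, eval_comp, eval_add, eval_X, eval_one, eval_zero] at this
      push_cast
      linarith
  refine eq_of_infinite_eval_eq _ _ ((Set.infinite_range_of_injective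
    (Nat.cast_injective (R := ℚ))).mono ?_)
  rintro _ ⟨k, rfl⟩
  simpa using h1 k

theorem exists_isB (a b : ℤ) : ∃ β, IsB a b β := by
  let Δ : ℚ[X] →ₗ[ℚ] ℚ[X] := (aeval (X + 1 : ℚ[X])).toLinearMap - LinearMap.id
  have hΔ : ∀ Q, Δ Q = Q.comp (X + 1) - Q := fun Q => by simp [Δ, comp_eq_aeval]
  obtain ⟨σ, hσ⟩ := Δ.exists_rightInverse_of_surjective (LinearMap.range_eq_top.2 fun q => by
    obtain ⟨Q, hQ⟩ := delta_surj q
    exact ⟨Q, by rw [hΔ, hQ]⟩)
  refine ⟨((b : ℚ) • lcoeff ℚ 1 - (a : ℚ) • lcoeff ℚ 2).comp σ, fun Q => ?_⟩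
  have h1 : Δ (σ (Δ Q) - Q) = 0 := by
    rw [map_sub, ← LinearMap.comp_apply, hσ, LinearMap.id_apply, sub_self]
  rw [hΔ] at h1
  have h2 := delta_ker h1
  have h3 : ∀ k, k ≠ 0 → (σ (Δ Q)).coeff k = Q.coeff k := fun k hk => by
    have := congrArg (fun P => P.coeff k) h2
    simp only [coeff_sub, coeff_C, if_neg hk] at this
    linarith
  rw [← hΔ]
  simp [h3]

theorem xx_re (y : ℝ) : (xx y).re = -1 / 2 := by
  simp only [xx, Complex.add_re, Complex.mul_re, Complex.ofReal_re, Complex.I_re, Complex.ofReal_im,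
    Complex.I_im]
  norm_num

theorem xx_im (y : ℝ) : (xx y).im = y := by simp [xx]

theorem continuous_xx : Continuous xx := by unfold xx; fun_prop

theorem normSq_xx_add (y : ℝ) (j : ℕ) : ‖xx y + j‖ ^ 2 = ((j : ℝ) - 1 / 2) ^ 2 + y ^ 2 := by
  rw [Complex.sq_norm, Complex.normSq_apply]
  simp only [Complex.add_re, Complex.add_im, xx_re, xx_im, Complex.natCast_re, Complex.natCast_im]
  ring

theorem le_norm_xx_add (y : ℝ) (j : ℕ) : (j : ℝ) - 1 / 2 ≤ ‖xx y + j‖ := by
  have := Complex.re_le_norm (xx y + j)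
  simp only [Complex.add_re, xx_re, Complex.natCast_re] at this
  linarith

theorem half_le_norm_xx_add (y : ℝ) {j : ℕ} (hj : 1 ≤ j) : 1 / 2 ≤ ‖xx y + j‖ := by
  have h1 := le_norm_xx_add y j
  have h2 : (1 : ℝ) ≤ j := by exact_mod_cast hj
  linarith

theorem xx_add_ne (y : ℝ) {j : ℕ} (hj : 1 ≤ j) : xx y + j ≠ 0 := by
  intro h
  have := half_le_norm_xx_add y hj
  rw [h, norm_zero] at this
  linarith

theorem DS_aeval_ne {S : Finset ℕ} (h : 0 ∉ S) (y : ℝ) : aeval (xx y) (DS S) ≠ 0 := by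
  rw [DS_aeval]
  exact prod_ne_zero_iff.2 fun j hj => xx_add_ne y (Nat.pos_of_ne_zero fun e => h (e ▸ hj))

theorem norm_xx_le (y : ℝ) : ‖xx y‖ ≤ 1 + |y| := by
  have := Complex.norm_le_abs_re_add_abs_im (xx y)
  rw [xx_re, xx_im] at this
  have h : |(-1 / 2 : ℝ)| ≤ 1 := by rw [abs_le]; constructor <;> norm_num
  linarith

/-- continuous functions of polynomial growth -/
def PG (g : ℝ → ℂ) : Prop := Continuous g ∧ ∃ (M : ℝ) (k : ℕ), ∀ y, ‖g y‖ ≤ M * (1 + |y|) ^ k

namespace PG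

variable {f g : ℝ → ℂ}

theorem const (z : ℂ) : PG fun _ => z := ⟨continuous_const, ‖z‖, 0, fun _ => by simp⟩

theorem x : PG xx := ⟨continuous_xx, 1, 1, fun y => by simpa using norm_xx_le y⟩

theorem mul (hf : PG f) (hg : PG g) : PG fun y => f y * g y := by
  obtain ⟨c1, M, k, h1⟩ := hf
  obtain ⟨c2, M', k', h2⟩ := hg
  refine ⟨c1.mul c2, M * M', k + k', fun y => ?_⟩
  rw [norm_mul, pow_add, mul_mul_mul_comm]
  exact mul_le_mul (h1 y) (h2 y) (norm_nonneg _) ((norm_nonneg _).trans (h1 y))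

theorem add (hf : PG f) (hg : PG g) : PG fun y => f y + g y := by
  obtain ⟨c1, M, k, h1⟩ := hf
  obtain ⟨c2, M', k', h2⟩ := hg
  refine ⟨c1.add c2, |M| + |M'|, k + k', fun y => ?_⟩
  have h0 : (1 : ℝ) ≤ 1 + |y| := by linarith [abs_nonneg y]
  have a1 : M * (1 + |y|) ^ k ≤ |M| * (1 + |y|) ^ (k + k') :=
    mul_le_mul (le_abs_self _) (pow_le_pow_right₀ h0 (by omega)) (by positivity) (abs_nonneg _)
  have a2 : M' * (1 + |y|) ^ k' ≤ |M'| * (1 + |y|) ^ (k + k') :=
    mul_le_mul (le_abs_self _) (pow_le_pow_right₀ h0 (by omega)) (by positivity) (abs_nonneg _)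
  have := norm_add_le (f y) (g y)
  linarith [h1 y, h2 y]

theorem sub (hf : PG f) (hg : PG g) : PG fun y => f y - g y := by
  simpa [sub_eq_add_neg] using hf.add ((const (-1)).mul hg)

theorem sum {ι : Type*} (s : Finset ι) {f : ι → ℝ → ℂ} (h : ∀ i ∈ s, PG (f i)) :
    PG fun y => ∑ i ∈ s, f i y := by
  classical
  induction s using Finset.induction_on with
  | empty => simpa using const 0
  | insert i s hi ih =>
    simpa [sum_insert hi] using (h i (mem_insert_self _ _)).add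
      (ih fun j hj => h j (mem_insert_of_mem hj))

theorem prod {ι : Type*} (s : Finset ι) {f : ι → ℝ → ℂ} (h : ∀ i ∈ s, PG (f i)) :
    PG fun y => ∏ i ∈ s, f i y := by
  classical
  induction s using Finset.induction_on with
  | empty => simpa using const 1
  | insert i s hi ih =>
    simpa [prod_insert hi] using (h i (mem_insert_self _ _)).mul
      (ih fun j hj => h j (mem_insert_of_mem hj))

theorem poly (q : ℚ[X]) : PG fun y => aeval (xx y) q := by
  induction q using Polynomial.induction_on with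
  | C r => simpa using const (algebraMap ℚ ℂ r)
  | add p q hp hq => simpa using hp.add hq
  | monomial n r h => simpa [pow_succ, mul_assoc] using h.mul x

theorem inv {j : ℕ} (hj : 1 ≤ j) : PG fun y => (xx y + j)⁻¹ := by
  refine ⟨(continuous_xx.add continuous_const).inv₀ fun y => xx_add_ne y hj, 2, 0, fun y => ?_⟩
  have := half_le_norm_xx_add y hj
  rw [norm_inv, pow_zero, mul_one, inv_le_comm₀ (by linarith) (by norm_num)]
  linarith

theorem ratio {S : Finset ℕ} (h : 0 ∉ S) (F : ℚ[X]) :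
    PG fun y => aeval (xx y) F / aeval (xx y) (DS S) := by
  have := (poly F).mul (prod S (f := fun j y => (xx y + j)⁻¹)
    fun j hj => inv (Nat.pos_of_ne_zero fun e => h (e ▸ hj)))
  simpa [DS_aeval, div_eq_mul_inv] using this

theorem exp_bound (hg : PG g) : ∃ M : ℝ, 0 ≤ M ∧ ∀ y, ‖g y‖ ≤ M * Real.exp (6.28 * |y|) := by
  obtain ⟨-, M, k, h⟩ := hg
  refine ⟨|M| * ((k : ℝ) + 1) ^ k, by positivity, fun y => (h y).trans ?_⟩
  have hy := abs_nonneg y
  have hk : (0 : ℝ) < (k : ℝ) + 1 := by positivity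
  have h1 : 1 + |y| ≤ ((k : ℝ) + 1) * Real.exp (|y| / (k + 1)) := by
    have := mul_le_mul_of_nonneg_left (Real.add_one_le_exp (|y| / (k + 1))) hk.le
    rw [mul_add, mul_div_cancel₀ _ hk.ne'] at this
    have : (0 : ℝ) ≤ k := by positivity
    linarith
  have h2 := pow_le_pow_left₀ (by positivity) h1 k
  rw [mul_pow, ← Real.exp_nat_mul] at h2
  have h3 : Real.exp (k * (|y| / (k + 1))) ≤ Real.exp (6.28 * |y|) := by
    refine Real.exp_le_exp.2 ?_
    rw [← mul_div_assoc, div_le_iff₀ hk]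
    have : (0 : ℝ) ≤ k * |y| := by positivity
    nlinarith
  rw [mul_assoc]
  exact mul_le_mul (le_abs_self _) (h2.trans (by gcongr)) (by positivity) (abs_nonneg _)

theorem integrable (hI : SInt) (a b : ℤ) (hg : PG g) :
    MeasureTheory.IntegrableOn (fun v => g (yv v) * om a b v) (Set.Ioo 0 1) := by
  obtain ⟨K, -, hK⟩ := hI a b
  obtain ⟨M, -, hM⟩ := hg.exp_bound
  exact (hK g M hg.1 hM).1

end PG

theorem II_const_mul (a b : ℤ) (z : ℂ) (g : ℝ → ℂ) : II a b (fun y => z * g y) = z * II a b g := by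
  simp only [II, mul_assoc, MeasureTheory.integral_const_mul]

theorem II_add (hI : SInt) (a b : ℤ) {f g : ℝ → ℂ} (hf : PG f) (hg : PG g) :
    II a b (fun y => f y + g y) = II a b f + II a b g := by
  simp only [II, add_mul]
  exact MeasureTheory.integral_add (hf.integrable hI a b) (hg.integrable hI a b)

theorem II_sub (hI : SInt) (a b : ℤ) {f g : ℝ → ℂ} (hf : PG f) (hg : PG g) :
    II a b (fun y => f y - g y) = II a b f - II a b g := by
  simp only [II, sub_mul]
  exact MeasureTheory.integral_sub (hf.integrable hI a b) (hg.integrable hI a b)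

theorem II_sum (hI : SInt) (a b : ℤ) {ι : Type*} (s : Finset ι) {f : ι → ℝ → ℂ}
    (h : ∀ i ∈ s, PG (f i)) : II a b (fun y => ∑ i ∈ s, f i y) = ∑ i ∈ s, II a b (f i) := by
  simp only [II, sum_mul]
  exact MeasureTheory.integral_finsetSum _ fun i hi => (h i hi).integrable hI a b

end Pool.Agent.Z23
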