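import Pool.Agent.Lib.MP_caab05_ag.Tools

/-!
Definitions and block statements for the linear independence of `1, ζ(2), ζ(3)`.
-/

namespace Pool.Agent.Z23

open Finset Polynomial Pool.Agent.Caab Filter

/-- the truncated sum over `1 ≤ k < j` -/
def hs (a b : ℤ) (j : ℕ) : ℚ := ∑ k ∈ range j, ((a : ℚ) / (k : ℚ) ^ 3 + (b : ℚ) / (k : ℚ) ^ 2)

/-- the relation `a ζ(3) + b ζ(2) = c` -/
def Rel (a b c : ℤ) : Prop :=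
  HasSum (fun k : ℕ => (a : ℝ) / (k : ℝ) ^ 3 + (b : ℝ) / (k : ℝ) ^ 2) (c : ℝ)

/-- the shift property, which determines the functional on polynomials -/
def IsB (a b : ℤ) (β : ℚ[X] →ₗ[ℚ] ℚ) : Prop :=
  ∀ Q : ℚ[X], β (Q.comp (X + 1) - Q) = b * Q.coeff 1 - a * Q.coeff 2

noncomputable def DS (S : Finset ℕ) : ℚ[X] := ∏ j ∈ S, (X + C (j : ℚ))

/-- residue of `F / DS S` at `-j` -/
def res (S : Finset ℕ) (F : ℚ[X]) (j : ℕ) : ℚ :=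
  F.eval (-(j : ℚ)) / ∏ k ∈ S.erase j, ((k : ℚ) - j)

/-- the value of the functional at `F / DS S` -/
noncomputable def MM (a b c : ℤ) (β : ℚ[X] →ₗ[ℚ] ℚ) (S : Finset ℕ) (F : ℚ[X]) : ℚ :=
  β (F /ₘ DS S) + ∑ j ∈ S, res S F j * (c - hs a b j)

/-- the zeros -/
def SZ (μ : ℕ) : Finset ℕ := Ico 1 (4 * μ + 1)

/-- the poles -/
def SP (μ : ℕ) : Finset ℕ := Ico (4 * μ + 1) (24 * μ + 1)

/-- the Hankel determinant -/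
noncomputable def Del (a b c : ℤ) (β : ℚ[X] →ₗ[ℚ] ℚ) (μ n : ℕ) : ℚ :=
  hank (fun l => MM a b c β (SP μ) (DS (SZ μ) * X ^ l)) n

/-- the exponent of the scale -/
def kap (μ n : ℕ) : ℝ := (n : ℝ) ^ 2 - n - 16 * μ * n

noncomputable def yv (v : ℝ) : ℝ := (Real.log v - Real.log (1 - v)) / (2 * Real.pi)

noncomputable def xx (y : ℝ) : ℂ := -1 / 2 + y * Complex.I

noncomputable def om (a b : ℤ) (v : ℝ) : ℂ := b + Complex.I * Real.pi * a * (2 * v - 1)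

/-- the integral along the line `Re x = -1/2` -/
noncomputable def II (a b : ℤ) (g : ℝ → ℂ) : ℂ := ∫ v in Set.Ioo (0 : ℝ) 1, g (yv v) * om a b v

/-- polynomials with integer coefficients -/
def IntP (F : ℚ[X]) : Prop := ∃ G : ℤ[X], G.map (Int.castRingHom ℚ) = F

noncomputable def Num (y : ℝ) : ℝ := ∏ l ∈ range 4, ((l : ℝ) ^ 2 + l + 1 / 2 + y ^ 2)

def Den (y : ℝ) : ℝ := ∏ l ∈ Ico (4 : ℕ) 24, ((l : ℝ) ^ 2 + l + y ^ 2)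

def SInt : Prop := ∀ a b : ℤ, ∃ K : ℝ, 0 < K ∧ ∀ (g : ℝ → ℂ) (M : ℝ), Continuous g →
  (∀ y, ‖g y‖ ≤ M * Real.exp (6.28 * |y|)) →
    MeasureTheory.IntegrableOn (fun v => g (yv v) * om a b v) (Set.Ioo 0 1) ∧ ‖II a b g‖ ≤ K * M

def SE0 : Prop := ∀ (a b : ℤ) (t : ℝ),
  (1 - Complex.exp (-t)) * II a b (fun y => Complex.exp (-t * xx y)) = b * t + a * t ^ 2 / 2

def SPoly : Prop := ∀ (a b : ℤ) (β : ℚ[X] →ₗ[ℚ] ℚ), IsB a b β → ∀ q : ℚ[X],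
  II a b (fun y => aeval (xx y) q) = (β q : ℚ)

def SPole : Prop := ∀ a b c : ℤ, Rel a b c → ∀ j : ℕ, 1 ≤ j →
  II a b (fun y => 1 / (xx y + j)) = ((c - hs a b j : ℚ) : ℂ)

def SRep : Prop := ∀ (a b c : ℤ) (β : ℚ[X] →ₗ[ℚ] ℚ), IsB a b β → Rel a b c →
  ∀ S : Finset ℕ, 0 ∉ S → ∀ F : ℚ[X],
    ((MM a b c β S F : ℚ) : ℂ) = II a b (fun y => aeval (xx y) F / aeval (xx y) (DS S))

def SHank : Prop := ∀ (Λ : ℚ[X] →ₗ[ℚ] ℚ) (r : ℕ),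
  (∀ P : ℚ[X], P ≠ 0 → ∃ e, e ≤ P.natDegree + r ∧ Λ (P * X ^ e) ≠ 0) →
    ∀ h : ℕ, ∃ n, h + 1 ≤ n ∧ n ≤ h + r + 1 ∧ hank (fun l => Λ (X ^ l)) n ≠ 0

def SZero : Prop := ∀ (a b c : ℤ) (β : ℚ[X] →ₗ[ℚ] ℚ), IsB a b β → Rel a b c → ¬ (a = 0 ∧ b = 0) →
  ∀ (μ : ℕ) (P : ℚ[X]), P ≠ 0 →
    ∃ e, e ≤ P.natDegree + 9 ∧ MM a b c β (SP μ) (DS (SZ μ) * (P * X ^ e)) ≠ 0

def SCert : Prop := ∃ A F : ℕ → ℚ, (∀ l, 0 ≤ A l) ∧ (∀ k, 0 < F k) ∧ F 0 ≤ F 22 ∧ F 22 ≤ 1 ∧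
  F 23 ≤ 1 ∧ ∏ k ∈ range 22, (F k * F (k + 1)) ≤ 1 / 2 ^ 2610 ∧
  ∀ y : ℝ, 0 ≤ y → ∃ G : ℕ → ℝ,
    (∀ l < 23, 0 < G l ∧ (A l : ℝ) ≤ G l ^ 2 ∧ y * G l ≤ G l ^ 2 + A l) ∧
    ∀ k ≤ 23, Num y * Real.exp (-12.56 * y) * ∏ l ∈ range k, G l ^ 4 ≤ (F k : ℝ) ^ 2 * Den y

def SArch : Prop := ∀ (a b c : ℤ) (β : ℚ[X] →ₗ[ℚ] ℚ), IsB a b β → Rel a b c →
  ∀ᶠ μ : ℕ in atTop, ∀ n, 22 * μ + 1 ≤ n → n ≤ 22 * μ + 10 → Del a b c β μ n ≠ 0 →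
    Real.log |(Del a b c β μ n : ℝ)| ≤ kap μ n * Real.log μ - 900 * (μ : ℝ) ^ 2

def SEntry : Prop := ∀ (a b c : ℤ) (β : ℚ[X] →ₗ[ℚ] ℚ), IsB a b β → ∀ p : ℕ, p.Prime →
  ∀ (S : Finset ℕ) (F : ℚ[X]) (δ B L : ℕ) (r : ℝ), (∀ j ∈ S, 1 ≤ j ∧ j ≤ B) →
    F.natDegree ≤ S.card + δ → δ + B + 1 < p ^ (L + 1) →
    (∀ k : ℕ, k ≤ δ → V p (F.eval (k : ℚ) / (DS S).eval (k : ℚ)) r) →
    (∀ j ∈ S, V p (res S F j) (r + L)) → V p (MM a b c β S F) (r - 2 * L)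

def SBInt : Prop := ∀ (a b : ℤ) (β : ℚ[X] →ₗ[ℚ] ℚ), IsB a b β → ∀ p : ℕ, p.Prime →
  ∀ (q : ℚ[X]) (L : ℕ), IntP q → q.natDegree + 1 < p ^ (L + 1) → V p (β q) (-(L : ℝ))

def SLev : Prop := ∀ p : ℕ, p.Prime → ∀ (Λ : ℚ[X] →ₗ[ℚ] ℚ) (n D : ℕ) (G : ℕ → ℚ[X]) (lam : ℝ)
  (pen : ℕ → ℝ), (∀ d, (G d).Monic) → (G D).natDegree = 0 →
    (∀ i < n, ∀ i' < n, ∀ d d' t : ℕ, t + (G d).natDegree + (G d').natDegree = i + i' →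
      V p (Λ (X ^ t * (G d * G d'))) (lam - ((d : ℝ) + d') / 2 - pen i - pen i')) →
    V p (hank (fun l => Λ (X ^ l)) n)
      (lam * n - ∑ d ∈ range D, ((G d).natDegree : ℝ) - 2 * ∑ i ∈ range n, pen i)

def SSmall : Prop := ∀ (a b c : ℤ) (β : ℚ[X] →ₗ[ℚ] ℚ), IsB a b β → ∀ p : ℕ, p.Prime →
  ∀ μ n L : ℕ, n ≤ 23 * μ → 60 * μ < p ^ (L + 1) →
    V p (Del a b c β μ n) (kap μ n / ((p : ℝ) - 1) - 7 * n * (L + 1))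

def STail : Prop := ∀ (a b c : ℤ) (β : ℚ[X] →ₗ[ℚ] ℚ), IsB a b β → ∀ p : ℕ, p.Prime →
  ∀ μ n : ℕ, n ≤ 23 * μ → 60 * μ < p ^ 2 →
    V p (Del a b c β μ n) (((n : ℝ) ^ 2 - 16 * μ * n) / p - 3 * n - 5 * p / 16)

def SMid : Prop := ∀ (a b c : ℤ) (β : ℚ[X] →ₗ[ℚ] ℚ), IsB a b β → ∀ p : ℕ, p.Prime →
  ∀ μ n : ℕ, 1 ≤ μ → n ≤ 23 * μ → 12 * μ < p →
    V p (Del a b c β μ n) (-((n + (24 * μ - p) + 2 * (20 * μ - p) : ℕ) : ℝ)) ∧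
    V p (Del a b c β μ n)
      (-((2 * (24 * μ - p) + 2 * (20 * μ - p) + (2 * n - (16 * μ + p)) : ℕ) : ℝ))

def SMert : Prop := ∀ᶠ N : ℕ in atTop,
  Real.log N - 0.59 ≤ ∑ p ∈ (range (N + 1)).filter Nat.Prime, Real.log p / ((p : ℝ) - 1)

def SSum : Prop := ∀ᶠ μ : ℕ in atTop, ∀ n, 22 * μ + 1 ≤ n → n ≤ 22 * μ + 10 → ∀ Δ : ℚ, Δ ≠ 0 →
  (∀ p : ℕ, p.Prime → ∀ L : ℕ, 60 * μ < p ^ (L + 1) →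
    V p Δ (kap μ n / ((p : ℝ) - 1) - 7 * n * (L + 1))) →
  (∀ p : ℕ, p.Prime → 60 * μ < p ^ 2 →
    V p Δ (((n : ℝ) ^ 2 - 16 * μ * n) / p - 3 * n - 5 * p / 16)) →
  (∀ p : ℕ, p.Prime → 12 * μ < p → V p Δ (-((n + (24 * μ - p) + 2 * (20 * μ - p) : ℕ) : ℝ)) ∧
    V p Δ (-((2 * (24 * μ - p) + 2 * (20 * μ - p) + (2 * n - (16 * μ + p)) : ℕ) : ℝ))) →
  kap μ n * Real.log μ - 896 * (μ : ℝ) ^ 2 ≤ Real.log |(Δ : ℝ)|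

end Pool.Agent.Z23
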