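import Pool.Agent.Lib.MP_caab05_ag.Z23.Base

/-! The values of the integral at polynomials and at simple fractions. -/

namespace Pool.Agent.Z23

open Finset Polynomial Pool.Agent.Caab Filter Topology

namespace Der

variable {a b : ℤ} {g : ℝ → ℂ}

/-- the exponential factor -/
noncomputable def ee (s : ℕ) (t y : ℝ) : ℂ := Complex.exp (-t * (xx y + s))

theorem norm_ee (s : ℕ) (t y : ℝ) : ‖ee s t y‖ = Real.exp (-((s : ℝ) - 1 / 2) * t) := by
  rw [ee, Complex.norm_exp, ← Complex.ofReal_neg, Complex.re_ofReal_mul, Complex.add_re, xx_re,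
    Complex.natCast_re]
  congr 1
  ring

theorem pg_ee (s : ℕ) (t : ℝ) : PG (ee s t) :=
  ⟨by unfold ee; have := continuous_xx; fun_prop, _, 0,
    fun y => by rw [norm_ee, pow_zero, mul_one]⟩

theorem pg_x (s : ℕ) : PG fun y => xx y + s := PG.x.add (PG.const _)

theorem pg_pow (s e : ℕ) : PG fun y => (xx y + s) ^ e := by
  simpa using PG.prod (range e) fun _ _ => pg_x s

/-- the Laplace transform -/
noncomputable def J (a b : ℤ) (s : ℕ) (g : ℝ → ℂ) (t : ℝ) : ℂ := II a b fun y => g y * ee s t y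

theorem J_zero (s : ℕ) : J a b s g 0 = II a b g := by simp [J, ee]

theorem der (hI : SInt) (s : ℕ) (hg : PG g) (t : ℝ) :
    HasDerivAt (J a b s g) (-J a b s (fun y => (xx y + s) * g y) t) t := by
  have h1 := ((pg_x s).mul hg).mul (pg_ee s t)
  have h2 := (hasDerivAt_integral_of_dominated_loc_of_deriv_le
    (μ := MeasureTheory.volume.restrict (Set.Ioo (0 : ℝ) 1))
    (F := fun (t : ℝ) v => g (yv v) * ee s t (yv v) * om a b v)
    (F' := fun (t : ℝ) v => -((xx (yv v) + s) * g (yv v) * ee s t (yv v) * om a b v))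
    (bound := fun v => Real.exp (|(s : ℝ) - 1 / 2| * (|t| + 1)) *
      ‖(xx (yv v) + s) * g (yv v) * om a b v‖)
    (Metric.ball_mem_nhds t one_pos)
    (Eventually.of_forall fun t => ((hg.mul (pg_ee s t)).integrable hI a b).1)
    ((hg.mul (pg_ee s t)).integrable hI a b) (h1.integrable hI a b).1.neg
    (Eventually.of_forall fun v u hu => ?_)
    ((((pg_x s).mul hg).integrable hI a b).norm.const_mul _)
    (Eventually.of_forall fun v u _ => ?_)).2
  · rwa [MeasureTheory.integral_neg] at h2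
  · rw [norm_neg, mul_right_comm, norm_mul, mul_comm, norm_ee]
    refine mul_le_mul_of_nonneg_right (Real.exp_le_exp.2 ((le_abs_self _).trans ?_)) (norm_nonneg _)
    rw [abs_mul, abs_neg]
    have := abs_sub_abs_le_abs_sub u t
    rw [Metric.mem_ball, Real.dist_eq] at hu
    exact mul_le_mul_of_nonneg_left (by linarith) (abs_nonneg _)
  · have := ((((hasDerivAt_id (u : ℂ)).neg.mul_const (xx (yv v) + s)).cexp.comp_ofReal).const_mul
      (g (yv v))).mul_const (om a b v)
    refine this.congr_deriv ?_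
    simp only [ee, Pi.neg_apply, id]
    ring

theorem J_one (hE : SE0) (s : ℕ) (t : ℝ) : J a b (s + 1) (fun _ => 1) t - J a b s (fun _ => 1) t =
    -(Complex.exp (-s * t) * (b * t + a * t ^ 2 / 2)) := by
  have key : ∀ s : ℕ, J a b s (fun _ => 1) t =
      Complex.exp (-s * t) * II a b fun y => Complex.exp (-t * xx y) := fun s => by
    rw [← II_const_mul, J]
    congr 1
    funext y
    rw [ee, one_mul, ← Complex.exp_add]
    congr 1
    ring
  rw [key, key, ← hE a b t, show -((s + 1 : ℕ) : ℂ) * t = -s * t + -t by push_cast; ring,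
    Complex.exp_add]
  ring

/-- the successive derivatives -/
noncomputable def rr (a b : ℤ) (e : ℕ) (t : ℂ) : ℂ :=
  if e = 0 then -(b * t + a * t ^ 2 / 2) else if e = 1 then b + a * t else if e = 2 then -a else 0

theorem rr_der (e : ℕ) (t : ℂ) : HasDerivAt (rr a b e) (-rr a b (e + 1) t) t := by
  unfold rr
  rcases e with _ | _ | _ | e
  · have := (((hasDerivAt_id t).const_mul (b : ℂ)).add
      ((((hasDerivAt_id t).pow 2).const_mul (a : ℂ)).div_const 2)).neg
    refine this.congr_deriv ?_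
    simp
    ring
  · simpa using ((hasDerivAt_id t).const_mul (a : ℂ)).const_add (b : ℂ)
  · simpa using hasDerivAt_const t (-(a : ℂ))
  · simpa using hasDerivAt_const t (0 : ℂ)

theorem mono (hI : SInt) (hE : SE0) (e : ℕ) : ∀ t : ℝ,
    J a b 1 (fun y => (xx y + (1 : ℕ)) ^ e) t - J a b 0 (fun y => (xx y + (0 : ℕ)) ^ e) t =
      rr a b e t := by
  induction e with
  | zero => intro t; simpa [rr] using J_one (a := a) (b := b) hE 0 t
  | succ e ih =>
    intro t
    have h1 := (der (a := a) (b := b) hI 1 (pg_pow 1 e) t).fun_sub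
      (der (a := a) (b := b) hI 0 (pg_pow 0 e) t)
    rw [funext ih] at h1
    have h2 := h1.unique (rr_der e t).comp_ofReal
    simp only [pow_succ']
    linear_combination -h2

theorem delta (hI : SInt) (hE : SE0) (Q : ℚ[X]) :
    II a b (fun y => aeval (xx y) (Q.comp (X + 1) - Q)) =
      ((b * Q.coeff 1 - a * Q.coeff 2 : ℚ) : ℂ) := by
  induction Q using Polynomial.induction_on' with
  | add P Q hP hQ =>
    rw [add_comp, add_sub_add_comm]
    simp only [map_add]
    rw [II_add hI a b (PG.poly _) (PG.poly _), hP, hQ, coeff_add, coeff_add]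
    push_cast
    ring
  | monomial n r =>
    have h1 := mono (a := a) (b := b) hI hE n 0
    rw [J_zero, J_zero, ← II_sub hI a b (pg_pow 1 n) (pg_pow 0 n)] at h1
    have h2 := II_const_mul a b (r : ℂ) fun y => (xx y + (1 : ℕ)) ^ n - (xx y + (0 : ℕ)) ^ n
    rw [h1] at h2
    refine Eq.trans (congrArg _ (funext fun y => ?_)) (h2.trans ?_)
    · simp [← C_mul_X_pow_eq_monomial, mul_sub]
    · rcases n with _ | _ | _ | n <;> simp [rr, coeff_monomial, mul_comm]

theorem step (hI : SInt) (hE : SE0) {j : ℕ} (hj : 1 ≤ j) :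
    II a b (fun y => (xx y + j)⁻¹) - II a b (fun y => (xx y + (j + 1 : ℕ))⁻¹) =
      a / (j : ℂ) ^ 3 + b / (j : ℂ) ^ 2 := by
  obtain ⟨K, -, hK⟩ := hI a b
  have hj0 : (0 : ℝ) < j := by exact_mod_cast hj
  have hj1 : (j : ℂ) ≠ 0 := by exact_mod_cast hj0.ne'
  have h1 : ∀ j : ℕ, 1 ≤ j → ∀ t, HasDerivAt (J a b j fun y => (xx y + j)⁻¹)
      (-J a b j (fun _ => 1) t) t := fun j hj t => by
    simpa only [mul_inv_cancel₀ (xx_add_ne _ hj)] using der (a := a) (b := b) hI j (PG.inv hj) t
  have h2 : ∀ j : ℕ, 1 ≤ j → Tendsto (J a b j fun y => (xx y + j)⁻¹) atTop (𝓝 0) := fun j hj => by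
    have h3 : (1 : ℝ) ≤ j := by exact_mod_cast hj
    have h4 := (tendsto_rpow_mul_exp_neg_mul_atTop_nhds_zero 0 ((j : ℝ) - 1 / 2)
      (by linarith)).const_mul (K * 2)
    rw [mul_zero] at h4
    refine squeeze_zero_norm (fun t => ?_) h4
    rw [Real.rpow_zero, one_mul, mul_assoc]
    refine (hK _ _ ((PG.inv hj).mul (pg_ee j t)).1 fun y => ?_).2
    have h5 := half_le_norm_xx_add y hj
    rw [norm_mul, norm_ee, norm_inv]
    refine le_trans ?_ (le_mul_of_one_le_right (by positivity) (Real.one_le_exp (by positivity)))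
    refine mul_le_mul_of_nonneg_right ?_ (by positivity)
    rw [inv_le_comm₀ (by linarith) (by norm_num)]
    linarith
  let G : ℂ → ℂ := fun t => Complex.exp (-j * t) *
    (a / j ^ 3 + b / j ^ 2 + (a / j ^ 2 + b / j) * t + a / (2 * j) * t ^ 2)
  have h3 : ∀ t : ℂ, HasDerivAt G (-(Complex.exp (-j * t) * (b * t + a * t ^ 2 / 2))) t :=
    fun t => by
    have := ((hasDerivAt_id t).const_mul (-j : ℂ)).cexp.fun_mul
      ((((hasDerivAt_id t).const_mul (a / j ^ 2 + b / j : ℂ)).const_add
        (a / j ^ 3 + b / j ^ 2 : ℂ)).fun_add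
        (((hasDerivAt_id t).fun_pow 2).const_mul (a / (2 * j) : ℂ)))
    refine this.congr_deriv ?_
    simp only [id]
    field_simp
    push_cast
    ring
  have h4 : Tendsto (fun t : ℝ => G t) atTop (𝓝 0) := by
    have h4 : ∀ k : ℕ, Tendsto (fun t : ℝ => (t : ℂ) ^ k * Complex.exp (-j * t)) atTop (𝓝 0) :=
      fun k => by
      have := (Complex.continuous_ofReal.tendsto _).comp
        (tendsto_rpow_mul_exp_neg_mul_atTop_nhds_zero k j hj0)
      refine this.congr fun t => ?_
      simp
    have := (((h4 0).const_mul (a / j ^ 3 + b / j ^ 2 : ℂ)).add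
      ((h4 1).const_mul (a / j ^ 2 + b / j : ℂ))).add ((h4 2).const_mul (a / (2 * j) : ℂ))
    simp only [mul_zero, add_zero] at this
    refine this.congr fun t => ?_
    simp only [G]
    ring
  have h5 : ∀ t : ℝ, HasDerivAt (fun t : ℝ => J a b j (fun y => (xx y + j)⁻¹) t -
      J a b (j + 1) (fun y => (xx y + (j + 1 : ℕ))⁻¹) t - G t) 0 t := fun t => by
    refine (((h1 j hj t).fun_sub (h1 (j + 1) (by omega) t)).fun_sub (h3 t).comp_ofReal).congr_deriv ?_
    linear_combination J_one (a := a) (b := b) hE j t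
  have h6 := is_const_of_deriv_eq_zero (fun t => (h5 t).differentiableAt) fun t => (h5 t).deriv
  have h7 := ((h2 j hj).sub (h2 (j + 1) (by omega))).sub h4
  have h8 := tendsto_nhds_unique (h7.congr fun t => h6 t 0) tendsto_const_nhds
  rw [J_zero, J_zero] at h8
  simp only [G, Complex.ofReal_zero, mul_zero, Complex.exp_zero] at h8
  linear_combination -h8

end Der

theorem poly_thm (hI : SInt) (hE : SE0) : SPoly := fun a b β hβ q => by
  obtain ⟨Q, rfl⟩ := delta_surj q
  rw [hβ, Der.delta hI hE]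

theorem pole_thm (hI : SInt) (hE : SE0) : SPole := fun a b c hc j hj => by
  simp only [one_div]
  have h1 : ∀ n : ℕ, II a b (fun y => (xx y + (n + j : ℕ))⁻¹) + (hs a b (n + j) : ℚ) =
      II a b (fun y => (xx y + j)⁻¹) + (hs a b j : ℚ) := fun n => by
    induction n with
    | zero => rw [zero_add]
    | succ n ih =>
      have := Der.step (a := a) (b := b) hI hE (j := n + j) (by omega)
      rw [← ih, add_right_comm n 1 j, hs, sum_range_succ, ← hs, Rat.cast_add]
      push_cast at this ⊢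
      linear_combination -this
  obtain ⟨K, -, hK⟩ := hI a b
  have h2 : Tendsto (fun n : ℕ => II a b fun y => (xx y + n)⁻¹) atTop (𝓝 0) := by
    have h2 := (tendsto_inv_atTop_zero.comp (tendsto_atTop_add_const_right _ (-(1 / 2))
      (tendsto_natCast_atTop_atTop (R := ℝ)))).const_mul K
    rw [mul_zero] at h2
    refine squeeze_zero_norm' ((eventually_ge_atTop 1).mono fun n hn => ?_) h2
    have h3 : (1 : ℝ) ≤ n := by exact_mod_cast hn
    have h4 : (0 : ℝ) < n + -(1 / 2) := by linarith
    refine (hK _ _ (PG.inv hn).1 fun y => ?_).2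
    refine le_trans ?_ (le_mul_of_one_le_right (inv_pos.2 h4).le (Real.one_le_exp (by positivity)))
    rw [norm_inv]
    exact inv_anti₀ h4 (by linarith [le_norm_xx_add y n])
  have h3 : Tendsto (fun n : ℕ => ((hs a b n : ℚ) : ℂ)) atTop (𝓝 c) := by
    have := (Complex.continuous_ofReal.tendsto _).comp hc.tendsto_sum_nat
    refine this.congr fun n => ?_
    simp [hs]
  have h4 := tendsto_nhds_unique (((tendsto_add_atTop_iff_nat j).2 (h2.add h3)).congr h1)
    tendsto_const_nhds
  push_cast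
  linear_combination -h4

theorem rep_thm (hI : SInt) (hP : SPoly) (hQ : SPole) : SRep := fun a b c β hβ hc S hS F => by
  have h1 : ∀ j ∈ S, 1 ≤ j := fun j hj => Nat.pos_of_ne_zero fun e => hS (e ▸ hj)
  have h2 : ∀ y, aeval (xx y) F / aeval (xx y) (DS S) =
      aeval (xx y) (F /ₘ DS S) + ∑ j ∈ S, (res S F j : ℂ) * (xx y + j)⁻¹ := fun y => by
    rw [div_eq_iff (DS_aeval_ne hS y), add_mul, sum_mul]
    nth_rewrite 1 [pf S F]
    rw [map_add, map_mul, map_sum, mul_comm]
    refine congrArg _ (sum_congr rfl fun j hj => ?_)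
    rw [DS_erase hj, map_mul, map_mul, mul_assoc]
    simp [inv_mul_cancel_left₀ (xx_add_ne y (h1 j hj))]
  have h3 : ∀ j ∈ S, PG fun y => (res S F j : ℂ) * (xx y + j)⁻¹ := fun j hj =>
    (PG.const _).mul (PG.inv (h1 j hj))
  rw [funext h2, II_add hI a b (PG.poly _) (PG.sum S h3), II_sum hI a b S h3, hP a b β hβ, MM,
    Rat.cast_add, Rat.cast_sum]
  refine congrArg _ (sum_congr rfl fun j hj => ?_)
  rw [II_const_mul, Rat.cast_mul, ← hQ a b c hc j (h1 j hj)]
  simp only [one_div]

end Pool.Agent.Z23
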