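import Pool.Agent.Lib.MP_caab05_ag.Z23.Base

/-! The integral of the exponential along the line. -/

namespace Pool.Agent.Z23

open MeasureTheory Set Complex

namespace E0

theorem beta1 {s : ℂ} (hs : s.re = 0) :
    betaIntegral (1 - s) (1 + s) = Gamma (1 - s) * Gamma (1 + s) := by
  rw [Gamma_mul_Gamma_eq_betaIntegral (by simp [hs]) (by simp [hs]),
    show 1 - s + (1 + s) = (1 : ℕ) + 1 by push_cast; ring, Gamma_nat_eq_factorial]
  simp

theorem beta2 {s : ℂ} (hs : s.re = 0) :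
    2 * betaIntegral (2 - s) (1 + s) = (1 - s) * (Gamma (1 - s) * Gamma (1 + s)) := by
  have h : 1 - s ≠ 0 := fun h => by simpa [hs] using congrArg re h
  rw [← mul_assoc, ← Gamma_add_one _ h, show 1 - s + 1 = 2 - s by ring,
    Gamma_mul_Gamma_eq_betaIntegral (by simp [hs]) (by simp [hs]),
    show 2 - s + (1 + s) = (2 : ℕ) + 1 by push_cast; ring, Gamma_nat_eq_factorial]
  simp

theorem integrand (a b : ℤ) (t : ℝ) {s : ℂ} (hs : s = I * t / (2 * Real.pi)) {v : ℝ}
    (h : v ∈ Ioo (0 : ℝ) 1) : exp (-t * xx (yv v)) * om a b v =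
      exp (t / 2) * (b - I * Real.pi * a) * ((v : ℂ) ^ (1 - s - 1) * (1 - (v : ℂ)) ^ (1 + s - 1)) +
      exp (t / 2) * (I * Real.pi * a) * 2 *
        ((v : ℂ) ^ (2 - s - 1) * (1 - (v : ℂ)) ^ (1 + s - 1)) := by
  have h1 : 0 < 1 - v := sub_pos.2 h.2
  have n0 : (v : ℂ) ≠ 0 := ofReal_ne_zero.2 h.1.ne'
  have n1 : (1 - v : ℂ) ≠ 0 := by exact_mod_cast h1.ne'
  have e1 : exp (-t * xx (yv v)) =
      exp (t / 2) * ((v : ℂ) ^ (1 - s - 1) * (1 - (v : ℂ)) ^ (1 + s - 1)) := by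
    rw [cpow_def_of_ne_zero n0, cpow_def_of_ne_zero n1, ← exp_add, ← exp_add,
      show (1 - v : ℂ) = ((1 - v : ℝ) : ℂ) by push_cast; ring, ← ofReal_log h.1.le,
      ← ofReal_log h1.le, xx, yv, hs]
    congr 1
    push_cast
    ring
  rw [e1, show 2 - s - 1 = (1 - s - 1) + 1 by ring, cpow_add _ _ n0, cpow_one, om]
  ring

theorem refl_sinh {t : ℝ} (ht : t ≠ 0) {s : ℂ} (hs : s = I * t / (2 * Real.pi)) :
    (1 - exp (-t)) * exp (t / 2) * (Gamma (1 - s) * Gamma (1 + s)) = t := by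
  have p0 : (Real.pi : ℂ) ≠ 0 := ofReal_ne_zero.2 Real.pi_ne_zero
  have t0 : (t : ℂ) ≠ 0 := ofReal_ne_zero.2 ht
  have s0 : s ≠ 0 := by
    rw [hs]
    exact div_ne_zero (mul_ne_zero I_ne_zero t0) (mul_ne_zero two_ne_zero p0)
  have e1 : Real.pi * s = t / 2 * I := by
    rw [hs]
    field_simp
  have e2 : (1 - exp (-t)) * exp (t / 2) = 2 * sinh (t / 2 : ℂ) := by
    rw [two_sinh, sub_mul, one_mul, ← exp_add]
    congr 2
    ring
  have e3 : sinh (t / 2 : ℂ) ≠ 0 := by
    rw [show (t / 2 : ℂ) = ((t / 2 : ℝ) : ℂ) by push_cast; rfl, ← ofReal_sinh, ofReal_ne_zero,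
      Real.sinh_ne_zero]
    exact div_ne_zero ht two_ne_zero
  rw [add_comm 1 s, Gamma_add_one _ s0, mul_left_comm (Gamma (1 - s)), mul_comm (Gamma (1 - s)),
    Gamma_mul_Gamma_one_sub, e2, ← mul_div_assoc, mul_comm s, e1, sin_mul_I]
  have := I_ne_zero
  field_simp

end E0

open E0 in
theorem e0_thm : SE0 := by
  intro a b t
  by_cases ht : t = 0
  · simp [ht]
  obtain ⟨s, hs⟩ : ∃ s : ℂ, s = I * t / (2 * Real.pi) := ⟨_, rfl⟩
  have p0 : (Real.pi : ℂ) ≠ 0 := ofReal_ne_zero.2 Real.pi_ne_zero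
  have h0 : s.re = 0 := by
    rw [hs, show I * t / (2 * Real.pi) = ((t / (2 * Real.pi) : ℝ) : ℂ) * I by push_cast; ring]
    exact re_ofReal_mul _ _ |>.trans (by simp)
  have e1 : I * Real.pi * s = -(t / 2) := by
    rw [hs]
    field_simp
    simp
  have i1 := betaIntegral_convergent (u := 1 - s) (v := 1 + s) (by simp [h0]) (by simp [h0])
  have i2 := betaIntegral_convergent (u := 2 - s) (v := 1 + s) (by simp [h0]) (by simp [h0])
  have b1 := beta1 h0
  have b2 := beta2 h0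
  have e2 : II a b (fun y => exp (-t * xx y)) =
      exp (t / 2) * (b - I * Real.pi * a) * betaIntegral (1 - s) (1 + s) +
      exp (t / 2) * (I * Real.pi * a) * 2 * betaIntegral (2 - s) (1 + s) := by
    rw [betaIntegral, betaIntegral, ← intervalIntegral.integral_const_mul,
      ← intervalIntegral.integral_const_mul,
      ← intervalIntegral.integral_add (i1.const_mul _) (i2.const_mul _),
      intervalIntegral.integral_of_le zero_le_one, integral_Ioc_eq_integral_Ioo]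
    exact setIntegral_congr_fun measurableSet_Ioo fun v hv => integrand a b t hs hv
  have e3 := refl_sinh ht hs
  rw [e2, mul_assoc _ 2, b1, b2]
  linear_combination (b - I * Real.pi * s * a) * e3 - a * t * e1

end Pool.Agent.Z23
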