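import Pool.Agent.Lib.MP_caab05_ag.Z23.Base

/-! Gaps between nonvanishing Hankel determinants. -/

namespace Pool.Agent.Z23

open Finset Polynomial Pool.Agent.Caab

namespace Hank

variable {Λ : ℚ[X] →ₗ[ℚ] ℚ}

theorem ker {n : ℕ} (h : hank (fun l => Λ (X ^ l)) (n + 1) = 0) :
    ∃ P : ℚ[X], P ≠ 0 ∧ P.natDegree ≤ n ∧ ∀ e ≤ n, Λ (P * X ^ e) = 0 := by
  obtain ⟨v, hv, h1⟩ := Matrix.exists_vecMul_eq_zero_iff.2 h
  refine ⟨ofFn (n + 1) v, fun h0 => hv (injective_ofFn (n + 1) (by rw [h0, map_zero])),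
    Nat.lt_succ_iff.1 (ofFn_natDegree_lt (by omega) v), fun e he => ?_⟩
  have h2 := congrFun h1 ⟨e, by omega⟩
  rw [ofFn_eq_sum_monomial, sum_mul, map_sum]
  refine Eq.trans (sum_congr rfl fun i _ => ?_) h2
  rw [← C_mul_X_pow_eq_monomial, mul_assoc, ← pow_add, ← smul_eq_C_mul, map_smul]
  rfl

theorem top {P U : ℚ[X]} {n : ℕ} (h : ∀ e < n, Λ (P * X ^ e) = 0) (hU : U.natDegree ≤ n) :
    Λ (P * U) = U.coeff n * Λ (P * X ^ n) := by
  conv_lhs => rw [U.as_sum_range' (n + 1) (by omega)]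
  simp only [mul_sum, map_sum, ← C_mul_X_pow_eq_monomial, ← smul_eq_C_mul, mul_smul_comm,
    map_smul, smul_eq_mul]
  rw [sum_range_succ, sum_eq_zero fun i hi => by rw [h i (mem_range.1 hi), mul_zero], zero_add]

end Hank

open Hank in
theorem hank_thm : SHank := by
  classical
  intro Λ r hΛ h
  by_cases h0 : hank (fun l => Λ (X ^ l)) (h + 1) = 0
  swap
  · exact ⟨h + 1, le_rfl, by omega, h0⟩
  obtain ⟨P₀, a1, a2, a3⟩ := ker h0
  have hex : ∃ d, ∃ P : ℚ[X], P ≠ 0 ∧ P.natDegree = d ∧ ∀ e ≤ h, Λ (P * X ^ e) = 0 :=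
    ⟨_, P₀, a1, rfl, a3⟩
  obtain ⟨P, b1, b2, b3⟩ := Nat.find_spec hex
  have b4 : Nat.find hex ≤ h := (Nat.find_min' hex ⟨P₀, a1, rfl, a3⟩).trans a2
  obtain ⟨e₀, c1, c2⟩ := hΛ P b1
  have hex' : ∃ e, Λ (P * X ^ e) ≠ 0 := ⟨e₀, c2⟩
  have c3 := Nat.find_spec hex'
  have c4 := Nat.find_min' hex' c2
  have c5 : ∀ e < Nat.find hex', Λ (P * X ^ e) = 0 := fun e he => not_not.1 (Nat.find_min hex' he)
  generalize Nat.find hex' = e₁ at c3 c4 c5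
  have c6 : h < e₁ := not_le.1 fun h1 => c3 (b3 _ h1)
  refine ⟨e₁ + 1, by omega, by omega, fun h1 => ?_⟩
  obtain ⟨R, d1, d2, d3⟩ := ker h1
  have d4 := Nat.find_min' hex ⟨R, d1, rfl, fun e he => d3 e (by omega)⟩
  have d5 := top (P := R) (U := P * X ^ (e₁ - R.natDegree)) (fun e he => d3 e he.le) (by
    rw [natDegree_mul_X_pow _ b1]; omega)
  have d6 := top (P := P) (U := R * X ^ (e₁ - R.natDegree)) c5 (by
    rw [natDegree_mul_X_pow _ d1]; omega)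
  rw [d3 e₁ le_rfl, mul_zero, mul_left_comm, d6] at d5
  refine mul_ne_zero ?_ c3 d5
  rw [coeff_mul_X_pow', if_pos (Nat.sub_le _ _), Nat.sub_sub_self d2]
  exact leadingCoeff_ne_zero.2 d1

end Pool.Agent.Z23
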