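import Pool.Agent.Lib.MP_caab05_ag.Z23.Base

/-! Convergence of the integral along the line. -/

namespace Pool.Agent.Z23

open MeasureTheory Set

namespace IntA

/-- the exponent of the singularity at the end points -/
noncomputable def kk : ℝ := 6.28 / (2 * Real.pi)

theorem kk_pos : 0 < kk := by unfold kk; positivity

theorem kk_lt : kk < 1 := by
  rw [kk, div_lt_one (by positivity)]
  linarith [Real.pi_gt_d2]

theorem exp_le {v : ℝ} (h : v ∈ Ioo (0 : ℝ) 1) :
    Real.exp (6.28 * |yv v|) ≤ v ^ (-kk) + (1 - v) ^ (-kk) := by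
  have h1 : 0 < 1 - v := sub_pos.2 h.2
  have l1 : Real.log v ≤ 0 := Real.log_nonpos h.1.le h.2.le
  have l2 : Real.log (1 - v) ≤ 0 := Real.log_nonpos h1.le (by linarith [h.1])
  have e : 6.28 * |yv v| = kk * |Real.log v - Real.log (1 - v)| := by
    rw [yv, kk, abs_div, abs_of_pos (by positivity : 0 < 2 * Real.pi)]
    ring
  rw [e, Real.rpow_def_of_pos h.1, Real.rpow_def_of_pos h1]
  have k := kk_pos
  rcases abs_cases (Real.log v - Real.log (1 - v)) with a | a <;> rw [a.1]
  · refine le_add_of_nonneg_of_le (Real.exp_pos _).le (Real.exp_le_exp.2 ?_)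
    nlinarith
  · refine le_add_of_le_of_nonneg (Real.exp_le_exp.2 ?_) (Real.exp_pos _).le
    nlinarith

theorem int_bd : IntegrableOn (fun v : ℝ => v ^ (-kk) + (1 - v) ^ (-kk)) (Ioo 0 1) := by
  have h : (-1 : ℝ) < -kk := by linarith [kk_lt]
  rw [← intervalIntegrable_iff_integrableOn_Ioo_of_le zero_le_one]
  refine (intervalIntegral.intervalIntegrable_rpow' h).add ?_
  simpa using (intervalIntegral.intervalIntegrable_rpow' h (a := 1) (b := 0)).comp_sub_left 1

theorem om_le (a b : ℤ) {v : ℝ} (h : v ∈ Ioo (0 : ℝ) 1) :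
    ‖om a b v‖ ≤ |(b : ℝ)| + Real.pi * |(a : ℝ)| := by
  refine (norm_add_le _ _).trans (add_le_add (by simp) ?_)
  have h1 : ‖(2 * v - 1 : ℂ)‖ ≤ 1 := by
    rw [show (2 * v - 1 : ℂ) = ((2 * v - 1 : ℝ) : ℂ) by push_cast; ring, Complex.norm_real,
      Real.norm_eq_abs, abs_le]
    constructor <;> linarith [h.1, h.2]
  rw [norm_mul, norm_mul, norm_mul, Complex.norm_I, one_mul, Complex.norm_real,
    Real.norm_of_nonneg Real.pi_pos.le, Complex.norm_intCast]
  exact mul_le_of_le_one_right (by positivity) h1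

theorem cont_yv : ContinuousOn yv (Ioo 0 1) :=
  ((Real.continuousOn_log.mono fun _ h => h.1.ne').sub
    ((continuousOn_const.sub continuousOn_id).log fun _ h => (sub_pos.2 h.2).ne')).div_const _

end IntA

open IntA in
theorem int_thm : SInt := by
  intro a b
  set C : ℝ := |(b : ℝ)| + Real.pi * |(a : ℝ)| with hC
  set J : ℝ := ∫ v in Ioo (0 : ℝ) 1, (v ^ (-kk) + (1 - v) ^ (-kk)) with hJ
  have C0 : 0 ≤ C := by positivity
  have J0 : 0 ≤ J := setIntegral_nonneg measurableSet_Ioo fun v h =>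
    (Real.exp_pos _).le.trans (exp_le h)
  refine ⟨C * J + 1, by positivity, fun g M hg h => ?_⟩
  have M0 : 0 ≤ M := by simpa using (norm_nonneg _).trans (h 0)
  have h1 : IntegrableOn (fun v : ℝ => M * C * (v ^ (-kk) + (1 - v) ^ (-kk))) (Ioo 0 1) :=
    int_bd.const_mul _
  have h2 : ∀ᵐ v ∂(volume.restrict (Ioo (0 : ℝ) 1)),
      ‖g (yv v) * om a b v‖ ≤ M * C * (v ^ (-kk) + (1 - v) ^ (-kk)) := by
    refine (ae_restrict_mem measurableSet_Ioo).mono fun v hv => ?_
    rw [norm_mul, mul_right_comm]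
    exact mul_le_mul ((h _).trans (mul_le_mul_of_nonneg_left (exp_le hv) M0)) (om_le a b hv)
      (norm_nonneg _) (mul_nonneg M0 ((Real.exp_pos _).le.trans (exp_le hv)))
  have h3 : Continuous (om a b) := by unfold om; fun_prop
  refine ⟨h1.mono' (((hg.comp_continuousOn cont_yv).mul h3.continuousOn).aestronglyMeasurable
    measurableSet_Ioo) h2, (norm_integral_le_of_norm_le h1 h2).trans ?_⟩
  rw [integral_const_mul, ← hJ]
  nlinarith

end Pool.Agent.Z23
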