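import Pool.Agent.Lib.MP_caab05_ag.Z23.Base

/-! Assembly of the blocks. -/

namespace Pool.Agent.Z23

open Finset Polynomial Pool.Agent.Caab Filter

theorem no_rel (hH : SHank) (hZ : SZero) (hA : SArch) (h1 : SSmall) (h2 : STail) (h3 : SMid)
    (hS : SSum) (a b c : ℤ) (h : Rel a b c) : a = 0 ∧ b = 0 := by
  by_contra hab
  obtain ⟨β, hβ⟩ := exists_isB a b
  obtain ⟨μ, g1, g2, g3⟩ := ((hA a b c β hβ h).and (hS.and (eventually_ge_atTop 10))).exists
  obtain ⟨n, n1, n2, n3⟩ := hH (Lam a b c β μ) 9 (hZ a b c β hβ h hab μ) (22 * μ)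
  rw [← Del_eq] at n3
  have up := g1 n n1 n2 n3
  have low := g2 n n1 n2 _ n3 (fun p hp L hL => h1 a b c β hβ p hp μ n L (by omega) hL)
    (fun p hp hL => h2 a b c β hβ p hp μ n (by omega) hL)
    (fun p hp hL => h3 a b c β hβ p hp μ n (by omega) (by omega) hL)
  have : (10 : ℝ) ≤ μ := by exact_mod_cast g3
  nlinarith

theorem hasSum_zeta (k : ℕ) (hk : 1 < k) :
    ∃ z : ℝ, riemannZeta k = z ∧ HasSum (fun n : ℕ => 1 / (n : ℝ) ^ k) z := by
  have h := (Real.summable_one_div_nat_pow.2 hk).hasSum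
  refine ⟨_, ?_, h⟩
  rw [zeta_nat_eq_tsum_of_gt_one hk, Complex.ofReal_tsum]
  simp

theorem indep_of (H : ∀ a b c : ℤ, Rel a b c → a = 0 ∧ b = 0) :
    LinearIndependent ℚ ![(1 : ℂ), riemannZeta 2, riemannZeta 3] := by
  rw [← LinearIndependent.iff_fractionRing ℤ ℚ, Fintype.linearIndependent_iff]
  intro g hg
  obtain ⟨z2, e2, s2⟩ := hasSum_zeta 2 (by norm_num)
  obtain ⟨z3, e3, s3⟩ := hasSum_zeta 3 (by norm_num)
  simp only [Fin.sum_univ_three, Matrix.cons_val_zero, Matrix.cons_val_one, Matrix.cons_val,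
    zsmul_eq_mul, mul_one] at hg
  rw [Nat.cast_ofNat] at e2 e3
  rw [e2, e3] at hg
  have hr : (g 0 : ℝ) + g 1 * z2 + g 2 * z3 = 0 := by exact_mod_cast hg
  have hR : Rel (g 2) (g 1) (-g 0) := by
    have := (s3.mul_left (g 2 : ℝ)).add (s2.mul_left (g 1 : ℝ))
    simp only [mul_one_div] at this
    have e : (g 2 : ℝ) * z3 + g 1 * z2 = ((-g 0 : ℤ) : ℝ) := by
      rw [Int.cast_neg]
      linear_combination hr
    rwa [e] at this
  obtain ⟨a0, b0⟩ := H _ _ _ hR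
  have c0 : g 0 = 0 := by
    rw [a0, b0] at hr
    simpa using hr
  intro i
  fin_cases i
  · exact c0
  · exact b0
  · exact a0

end Pool.Agent.Z23
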