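import Pool.Agent.Lib.MP_caab05_ag.Z23.Base
import Pool.Agent.Lib.MP_caab05_ag.Mertens

/-! A lower bound for the sum of `log p / (p - 1)`. -/

namespace Pool.Agent.Z23

open Finset Filter Topology Pool.Agent.Caab Pool.Agent.Caab.Mertens

namespace Mert

theorem le_log_fact (n : ℕ) : n * Real.log n - n ≤ Real.log (n.factorial : ℝ) := by
  rcases Nat.eq_zero_or_pos n with rfl | hn
  · simp
  have h0 : (0 : ℝ) < n := by exact_mod_cast hn
  have h1 : (0 : ℝ) < n.factorial := by exact_mod_cast n.factorial_pos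
  have h2 := Real.log_le_log (by positivity) (Real.pow_div_factorial_le_exp (n : ℝ) h0.le n)
  rw [Real.log_exp, Real.log_div (by positivity) h1.ne', Real.log_pow] at h2
  linarith

theorem val_le (p M : ℕ) (hp : p.Prime) :
    (M.factorial.factorization p : ℝ) ≤ (M : ℝ) / ((p : ℝ) - 1) := by
  have := Fact.mk hp
  have h1 := sub_one_mul_padicValNat_factorial (p := p) M
  have h3 : (p - 1) * padicValNat p M.factorial ≤ M := by omega
  have h4 : ((p - 1 : ℕ) : ℝ) = (p : ℝ) - 1 := by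
    rw [Nat.cast_sub hp.one_le]; simp
  have h5 : (0 : ℝ) < (p : ℝ) - 1 := by
    have : (2 : ℝ) ≤ p := by exact_mod_cast hp.two_le
    linarith
  rw [Nat.factorization_def _ hp, le_div_iff₀ h5, ← h4, mul_comm]
  exact_mod_cast h3

theorem val_big (p K N : ℕ) (hp : p.Prime) (hK : K ≤ N) (hN : N < p) :
    (K * N).factorial.factorization p ≤ ((Icc 1 K).filter fun j => p * j ≤ K * N).card := by
  have h1 : K * N < p ^ 2 := by nlinarith
  have h2 : Nat.log p (K * N) < 2 := Nat.log_lt_of_lt_pow' two_ne_zero h1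
  rw [Nat.factorization_factorial hp h2, show Ico 1 2 = {1} from rfl, sum_singleton, pow_one]
  refine le_trans (by simp) (card_le_card (s := Icc 1 (K * N / p)) fun j hj => ?_)
  obtain ⟨h3, h4⟩ := mem_Icc.1 hj
  rw [Nat.le_div_iff_mul_le hp.pos, mul_comm] at h4
  exact mem_filter.2 ⟨mem_Icc.2 ⟨h3, by nlinarith⟩, h4⟩

theorem key (K N : ℕ) (hK : 1 ≤ K) (hN : K ≤ N) :
    Real.log ((K * N).factorial : ℝ) ≤
      ((K * N : ℕ) : ℝ) * ∑ p ∈ Nat.primesLE N, Real.log p / ((p : ℝ) - 1) +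
        ∑ j ∈ Icc 1 K, (Chebyshev.theta (((K * N : ℕ) : ℝ) / j) - Chebyshev.theta N) := by
  have hNM : N ≤ K * N := Nat.le_mul_of_pos_left _ hK
  have hsub : Nat.primesLE N ⊆ Nat.primesLE (K * N) := fun p hp =>
    Nat.mem_primesLE.2 ⟨(Nat.mem_primesLE.1 hp).1.trans hNM, (Nat.mem_primesLE.1 hp).2⟩
  have hlog : ∀ p : ℕ, 0 ≤ Real.log p := fun p => Real.log_natCast_nonneg p
  rw [log_fact_eq, ← sum_sdiff hsub, add_comm]
  refine add_le_add ?_ ?_
  · rw [mul_sum]
    refine sum_le_sum fun p hp => ?_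
    have := mul_le_mul_of_nonneg_right (val_le p (K * N) (Nat.mem_primesLE.1 hp).2) (hlog p)
    exact this.trans_eq (by ring)
  · have h1 : ∀ j ∈ Icc 1 K, (∑ p ∈ Nat.primesLE (K * N) \ Nat.primesLE N,
        if p * j ≤ K * N then Real.log p else 0) ≤
        Chebyshev.theta (((K * N : ℕ) : ℝ) / j) - Chebyshev.theta N := by
      intro j hj
      obtain ⟨hj1, hj2⟩ := mem_Icc.1 hj
      rw [Chebyshev.theta_eq_sum_primesLE, Chebyshev.theta_eq_sum_primesLE_log,
        Nat.floor_div_eq_div, ← sum_filter, le_sub_iff_add_le, ← sum_union]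
      · refine sum_le_sum_of_subset_of_nonneg (fun p hp => ?_) fun p _ _ => hlog p
        rw [Nat.mem_primesLE, Nat.le_div_iff_mul_le hj1]
        rcases mem_union.1 hp with g | g
        · exact ⟨(mem_filter.1 g).2, (Nat.mem_primesLE.1 (mem_sdiff.1 (mem_filter.1 g).1).1).2⟩
        · obtain ⟨g1, g2⟩ := Nat.mem_primesLE.1 g
          exact ⟨(Nat.mul_le_mul g1 hj2).trans_eq (mul_comm _ _), g2⟩
      · exact disjoint_left.2 fun p hp => (mem_sdiff.1 (mem_filter.1 hp).1).2
    refine le_trans ?_ (sum_le_sum h1)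
    rw [sum_comm]
    refine sum_le_sum fun p hp => ?_
    rw [← sum_filter, sum_const, nsmul_eq_mul]
    refine mul_le_mul_of_nonneg_right ?_ (hlog p)
    obtain ⟨g1, g2⟩ := mem_sdiff.1 hp
    have g3 := (Nat.mem_primesLE.1 g1).2
    exact_mod_cast val_big p K N g3 hN (not_le.1 fun g => g2 (Nat.mem_primesLE.2 ⟨g, g3⟩))

end Mert

open Mert in
theorem mert_thm : SMert := by
  have t2 := theta_mul 1 one_pos
  have t3 : Tendsto (fun N : ℕ => ∑ j ∈ Icc (1 : ℕ) 128,
      (Chebyshev.theta ((128 / (j : ℝ)) * N) / N - Chebyshev.theta (1 * N) / N)) atTop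
      (𝓝 (∑ j ∈ Icc (1 : ℕ) 128, (128 / (j : ℝ) - 1))) := by
    apply tendsto_finsetSum
    intro j hj
    have : (0 : ℝ) < j := by exact_mod_cast (mem_Icc.1 hj).1
    exact (theta_mul _ (by positivity)).sub t2
  have hnum : ∑ j ∈ Icc (1 : ℕ) 128, (128 / (j : ℝ) - 1) < 568 := by
    have : (∑ j ∈ Icc (1 : ℕ) 128, (128 / (j : ℝ) - 1)) =
        ((∑ j ∈ Icc (1 : ℕ) 128, (128 / (j : ℚ) - 1) : ℚ) : ℝ) := by
      push_cast
      rfl
    rw [this]
    have h2 : ∑ j ∈ Icc (1 : ℕ) 128, (128 / (j : ℚ) - 1) < 568 := by decide +kernel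
    exact_mod_cast h2
  filter_upwards [t3.eventually (gt_mem_nhds hnum), eventually_ge_atTop 128] with N h1 hN
  have hk := Mert.key 128 N (by norm_num) hN
  have hf := le_log_fact (128 * N)
  have hN0 : (0 : ℝ) < N := by exact_mod_cast (by omega : 0 < N)
  have hs : (range (N + 1)).filter Nat.Prime = Nat.primesLE N := by
    ext p
    simp [Nat.mem_primesLE]
  rw [hs]
  have hl : Real.log ((128 * N : ℕ) : ℝ) = 7 * Real.log 2 + Real.log N := by
    push_cast
    rw [Real.log_mul (by norm_num) hN0.ne', show (128 : ℝ) = 2 ^ 7 by norm_num, Real.log_pow]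
    norm_num
  have h2 := Real.log_two_gt_d9
  have e1 : ∑ j ∈ Icc (1 : ℕ) 128,
      (Chebyshev.theta ((128 / (j : ℝ)) * N) / N - Chebyshev.theta (1 * N) / N) =
      (∑ j ∈ Icc (1 : ℕ) 128,
        (Chebyshev.theta (((128 * N : ℕ) : ℝ) / j) - Chebyshev.theta N)) / N := by
    rw [sum_div]
    apply sum_congr rfl
    intro j _
    rw [one_mul, sub_div]
    push_cast
    rw [div_mul_eq_mul_div]
  rw [e1, div_lt_iff₀ hN0] at h1
  rw [hl] at hf
  set S := ∑ p ∈ Nat.primesLE N, Real.log p / ((p : ℝ) - 1)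
  set T := ∑ j ∈ Icc (1 : ℕ) 128,
        (Chebyshev.theta (((128 * N : ℕ) : ℝ) / j) - Chebyshev.theta N)
  have hc : ((128 * N : ℕ) : ℝ) = 128 * N := by push_cast; ring
  rw [hc] at hk hf
  have h3 : 128 * (N : ℝ) * (Real.log N - 0.59) ≤ 128 * N * S := by nlinarith
  exact le_of_mul_le_mul_left h3 (by positivity)

end Pool.Agent.Z23
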