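import Pool.Agent.Lib.MP_caab05_ag.Z23.Base

/-! The valuation of the determinant at the primes `p > 12 μ`. -/

namespace Pool.Agent.Z23

open Finset Polynomial Pool.Agent.Caab

namespace Mid

theorem map_DS (S : Finset ℕ) :
    (∏ j ∈ S, (X + C (j : ℤ)) : ℤ[X]).map (Int.castRingHom ℚ) = DS S := by
  simp [DS, Polynomial.map_prod]

theorem intP_DS (S : Finset ℕ) : IntP (DS S) := ⟨_, map_DS S⟩

theorem intP_mul {F G : ℚ[X]} (hF : IntP F) (hG : IntP G) : IntP (F * G) := by
  obtain ⟨F, rfl⟩ := hF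
  obtain ⟨G, rfl⟩ := hG
  exact ⟨F * G, Polynomial.map_mul _⟩

theorem intP_pow (t : ℕ) : IntP (X ^ t) := ⟨X ^ t, by simp⟩

theorem intP_div {F : ℚ[X]} (hF : IntP F) (S : Finset ℕ) : IntP (F /ₘ DS S) := by
  obtain ⟨F, rfl⟩ := hF
  refine ⟨F /ₘ ∏ j ∈ S, (X + C (j : ℤ)), ?_⟩
  rw [map_divByMonic _ (monic_prod_of_monic _ _ fun _ _ => monic_X_add_C _), map_DS]

theorem intP_eval (p : ℕ) {F : ℚ[X]} (hF : IntP F) (j : ℕ) : V p (F.eval (-(j : ℚ))) 0 := by
  obtain ⟨F, rfl⟩ := hF
  have h := eval_intCast_map (Int.castRingHom ℚ) F (-(j : ℤ))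
  simp only [Int.cast_neg, Int.cast_natCast, eq_intCast] at h
  rw [h]
  exact V.int _

theorem dvd_cases {p : ℕ} {z : ℤ} (h : (p : ℤ) ∣ z) (h1 : -(2 * p) < z) (h2 : z < 2 * p) :
    z = -p ∨ z = 0 ∨ z = p := by
  obtain ⟨m, rfl⟩ := h
  have hp : (0 : ℤ) < p := by linarith
  have a1 : m < 2 := by nlinarith
  have a2 : -2 < m := by nlinarith
  interval_cases m <;> simp

theorem val_unit {p : ℕ} (k j : ℕ) (h : ¬ (p : ℤ) ∣ (k : ℤ) - j) :
    padicValRat p ((k : ℚ) - j) = 0 := by
  have : (k : ℚ) - j = (((k : ℤ) - j : ℤ) : ℚ) := by push_cast; ring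
  rw [this, padicValRat.of_int, padicValInt.eq_zero_of_not_dvd h]
  rfl

variable {p : ℕ} [hp : Fact p.Prime]

theorem good_poly {F : ℚ[X]} (hF : IntP F) (Y : Finset ℕ) :
    Good p (Y.image fun j : ℕ => -(j : ℚ)) (fun y => F.eval y) 0 := by
  obtain ⟨F, rfl⟩ := hF
  induction F using Polynomial.induction_on with
  | C a =>
    have := (Good.one (p := p) (Y0 := Y.image fun j : ℕ => -(j : ℚ))).const_mul (V.int a)
    simpa using this
  | add f g hf hg => simpa using hf.add hg
  | monomial n a h =>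
    have := h.mul_lin (u := 1) (w := 0) V.one fun y hy => by
      obtain ⟨j, -, rfl⟩ := mem_image.1 hy
      simpa using (V.nat j).neg
    refine this.congr fun y _ => ?_
    simp [pow_succ, mul_assoc]

/-- the sum of the residues over a full class is integral -/
theorem class_sum {F : ℚ[X]} (hF : IntP F) {S Y : Finset ℕ} (hY : Y ⊆ S)
    (h : ∀ j ∈ Y, ∀ k ∈ S \ Y, ¬ (p : ℤ) ∣ (k : ℤ) - j) : V p (∑ j ∈ Y, res S F j) 0 := by
  have inj : Function.Injective fun j : ℕ => -(j : ℚ) := fun i j e => by simpa using e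
  have h1 := ((good_poly (p := p) hF Y).div_prod_add (S \ Y) (w := fun k : ℕ => (k : ℚ))
    fun k hk y hy => by
      obtain ⟨j, hj, rfl⟩ := mem_image.1 hy
      rw [neg_add_eq_sub, val_unit k j (h j hj k hk)]
      refine ⟨sub_ne_zero.2 fun e => (mem_sdiff.1 hk).2 ?_, le_rfl⟩
      have : k = j := by exact_mod_cast e
      exact this ▸ hj).out
  rw [dd, sum_image fun i _ j _ e => inj e] at h1
  convert h1 using 2 with j hj
  have e : S.erase j = S \ Y ∪ Y.erase j := by
    ext z
    simp only [mem_erase, mem_union, mem_sdiff]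
    constructor
    · rintro ⟨h1, h2⟩
      by_cases hz : z ∈ Y
      · exact Or.inr ⟨h1, hz⟩
      · exact Or.inl ⟨h2, hz⟩
    · rintro (⟨h1, h2⟩ | ⟨h1, h2⟩)
      · exact ⟨fun e => h2 (e ▸ hj), h1⟩
      · exact ⟨h1, hY h2⟩
  rw [res, e, prod_union (disjoint_of_subset_right (erase_subset _ _) sdiff_disjoint), div_div,
    ← image_erase inj, prod_image fun i _ j _ e => inj e]
  congr 2
  · exact prod_congr rfl fun k _ => by ring
  · exact prod_congr rfl fun k _ => by ring

theorem hs_V (a b : ℤ) (j L : ℕ) (hj : j ≤ p ^ (L + 1)) : V p (hs a b j) (-(3 * L)) := by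
  refine V.sum fun k hk => ?_
  have hk' : k < p ^ (L + 1) := (mem_range.1 hk).trans_le hj
  have hv : padicValRat p (k : ℚ) ≤ L := by
    rcases Nat.eq_zero_or_pos k with rfl | h0
    · simp
    rw [padicValRat.of_nat]
    have : padicValNat p k < L + 1 := by
      by_contra hc
      have := (padicValNat_dvd_iff_le (p := p) (n := L + 1) h0.ne').2 (by omega)
      have := Nat.le_of_dvd h0 this
      omega
    omega
  have hv' : (padicValRat p (k : ℚ) : ℝ) ≤ L := by exact_mod_cast hv
  have hL : (0 : ℝ) ≤ L := by positivity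
  have key : ∀ (z : ℤ) (m : ℕ), V p ((z : ℚ) / (k : ℚ) ^ m) (-(m * L)) := fun z m => by
    have := (V.int (p := p) z).div (q' := (k : ℚ) ^ m) (s := m * L) (by
      rw [padicValRat.pow]
      push_cast
      exact mul_le_mul_of_nonneg_left hv' (by positivity))
    simpa using this
  exact ((key a 3).mono (by push_cast; linarith)).add ((key b 2).mono (by push_cast; linarith))

/-- the valuation of the denominator of a residue at a point above `p` -/
theorem den_val {S : Finset ℕ} (hS : ∀ k ∈ S, k < 2 * p) {j : ℕ} (hj : j ∈ S) (hpj : p < j) :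
    padicValRat p (∏ k ∈ S.erase j, ((k : ℚ) - j)) ≤ if j - p ∈ S then 1 else 0 := by
  rw [val_prod fun k hk => sub_ne_zero.2 (by exact_mod_cast ne_of_mem_erase hk)]
  have h1 : ∀ k ∈ S.erase j, padicValRat p ((k : ℚ) - j) ≤ if j - p = k then 1 else 0 := by
    intro k hk
    split_ifs with h
    · have : (k : ℚ) - j = -(p : ℚ) := by
        rw [← h, Nat.cast_sub hpj.le]; ring
      rw [this, padicValRat.neg, padicValRat.self hp.out.one_lt]
    · refine (val_unit k j fun hd => ?_).le
      have a1 := hS k (mem_of_mem_erase hk)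
      have a2 := hS j hj
      have a3 := ne_of_mem_erase hk
      rcases dvd_cases hd (by omega) (by omega) with h' | h' | h' <;> omega
  refine (sum_le_sum h1).trans ?_
  rw [sum_ite_eq]
  split_ifs with h2 h3
  · exact le_rfl
  · exact absurd (mem_of_mem_erase h2) h3
  · exact zero_le_one
  · exact le_rfl

/-- the levels -/
def T (p μ e d : ℕ) : Finset ℕ :=
  if d < e + 1 then Ioc p (24 * μ) else if d < e + 3 then Ioc (p + 4 * μ) (24 * μ) else ∅

theorem res_V {μ : ℕ} (h12 : 12 * μ < p) {R : ℚ[X]} (hR : IntP R) {j : ℕ} (hj : j ∈ SP μ)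
    (hpj : p < j) : V p (res (SP μ) (DS (SZ μ) * R) j) (if j ≤ p + 4 * μ then 1 else -1) := by
  have hS : ∀ k ∈ SP μ, k < 2 * p := fun k hk => by
    simp only [SP, mem_Ico] at hk; omega
  have h1 := den_val hS hj hpj
  split_ifs with h
  · rw [if_neg (by simp only [SP, mem_Ico]; omega)] at h1
    have hm : j - p ∈ SZ μ := by simp only [SZ, mem_Ico]; omega
    have h2 : V p ((DS (SZ μ) * R).eval (-(j : ℚ))) 1 := by
      rw [DS_erase hm, mul_assoc, eval_mul]
      refine V.mul0 ?_ (intP_eval p (intP_mul (intP_DS _) hR) j)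
      have : (X + C ((j - p : ℕ) : ℚ)).eval (-(j : ℚ)) = -(p : ℚ) := by
        rw [eval_add, eval_X, eval_C, Nat.cast_sub hpj.le]; ring
      rw [this]
      refine V.neg (V.of_le ?_)
      rw [padicValRat.self hp.out.one_lt]
      simp
    have := h2.div (s := 0) (by exact_mod_cast h1)
    simpa [res] using this
  · have h2 : padicValRat p (∏ k ∈ (SP μ).erase j, ((k : ℚ) - j)) ≤ 1 :=
      h1.trans (by split_ifs <;> norm_num)
    have := (intP_eval p (intP_mul (intP_DS (SZ μ)) hR) j).div (s := 1) (by exact_mod_cast h2)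
    simpa [res] using this

theorem sum_V (a b c : ℤ) {μ : ℕ} (h12 : 12 * μ < p) {F : ℚ[X]} (hF : IntP F) :
    V p (∑ j ∈ SP μ, res (SP μ) F j * (c - hs a b (if p < j then j - p else j))) 0 := by
  rw [← sum_fiberwise_of_maps_to (s := SP μ) (t := range (p + 1))
    (g := fun j => if p < j then j - p else j) (fun j hj => by
      simp only [SP, mem_Ico] at hj
      rw [mem_range]
      split_ifs <;> omega)]
  refine V.sum fun s hs => ?_
  rw [sum_congr rfl (g := fun j => res (SP μ) F j * (c - Z23.hs a b s))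
    (fun j hj => by rw [(mem_filter.1 hj).2]), ← sum_mul]
  refine V.mul0 (class_sum hF (filter_subset _ _) fun j hj k hk hd => ?_) ((V.int c).sub ?_)
  · simp only [SP, mem_sdiff, mem_filter, mem_Ico] at hj hk
    obtain ⟨⟨j1, j2⟩, j3⟩ := hj
    obtain ⟨⟨k1, k2⟩, k3⟩ := hk
    refine k3 ⟨⟨k1, k2⟩, ?_⟩
    rcases dvd_cases hd (by omega) (by omega) with h' | h' | h' <;>
      split_ifs at j3 ⊢ <;> omega
  · have := hs_V (p := p) a b s 0 (by have := mem_range.1 hs; simpa using by omega)
    simpa using this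

theorem entry (hB : SBInt) (a b c : ℤ) (β : ℚ[X] →ₗ[ℚ] ℚ) (hβ : IsB a b β) {μ n e : ℕ}
    (hn : n ≤ 23 * μ) (h12 : 12 * μ < p) (he : e ≤ 1) {i i' d d' t : ℕ} (hi : i < n)
    (hi' : i' < n)
    (ht : t + (DS (T p μ e d)).natDegree + (DS (T p μ e d')).natDegree = i + i') :
    V p (Lam a b c β μ (X ^ t * (DS (T p μ e d) * DS (T p μ e d'))))
      ((e : ℝ) - 1 - ((d : ℝ) + d') / 2 - (if p + 16 * μ ≤ n + i then (e : ℝ) / 2 else 0) -
        (if p + 16 * μ ≤ n + i' then (e : ℝ) / 2 else 0)) := by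
  set R := X ^ t * (DS (T p μ e d) * DS (T p μ e d')) with hRdef
  have hR : IntP R := intP_mul (intP_pow t) (intP_mul (intP_DS _) (intP_DS _))
  have hF : IntP (DS (SZ μ) * R) := intP_mul (intP_DS _) hR
  have hRm : R.Monic := (monic_X_pow t).mul ((DS_monic _).mul (DS_monic _))
  have hdeg : (DS (SZ μ) * R).natDegree = 4 * μ + (i + i') := by
    rw [(DS_monic _).natDegree_mul hRm, DS_natDegree, card_SZ, hRdef,
      (monic_X_pow t).natDegree_mul ((DS_monic _).mul (DS_monic _)), natDegree_X_pow,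
      (DS_monic _).natDegree_mul (DS_monic _), ← ht, add_assoc]
  have hq : (DS (SZ μ) * R /ₘ DS (SP μ)).natDegree = i + i' - 16 * μ := by
    rw [natDegree_divByMonic _ (DS_monic _), hdeg, DS_natDegree, card_SP]
    omega
  have he' : (e : ℝ) ≤ 1 := by exact_mod_cast he
  have e0 : (0 : ℝ) ≤ e := by positivity
  have d0 : (0 : ℝ) ≤ d := by positivity
  have d0' : (0 : ℝ) ≤ d' := by positivity
  have p0 : (0 : ℝ) ≤ if p + 16 * μ ≤ n + i then (e : ℝ) / 2 else 0 := by
    split_ifs <;> linarith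
  have p0' : (0 : ℝ) ≤ if p + 16 * μ ≤ n + i' then (e : ℝ) / 2 else 0 := by
    split_ifs <;> linarith
  have hpp : 2 * p + 30 * μ < p ^ (1 + 1) := by
    have : 13 * p ≤ p * p := Nat.mul_le_mul_right p (by omega)
    rw [pow_succ, pow_one]
    omega
  rw [Lam_apply, MM]
  refine V.add ?_ ?_
  · by_cases hc : i + i' - 16 * μ + 1 < p
    · have := hB a b β hβ p hp.out _ 0 (intP_div hF (SP μ)) (by rw [hq]; simpa using hc)
      exact this.mono (by push_cast; linarith)
    · have := hB a b β hβ p hp.out _ 1 (intP_div hF (SP μ)) (by rw [hq]; omega)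
      rw [if_pos (by omega), if_pos (by omega)]
      exact this.mono (by push_cast; linarith)
  · have e1 : ∀ j ∈ SP μ, res (SP μ) (DS (SZ μ) * R) j * (c - hs a b j) =
        res (SP μ) (DS (SZ μ) * R) j * (c - hs a b (if p < j then j - p else j)) -
          res (SP μ) (DS (SZ μ) * R) j * (hs a b j - hs a b (if p < j then j - p else j)) :=
      fun j _ => by ring
    rw [sum_congr rfl e1, sum_sub_distrib]
    refine V.sub ((sum_V a b c h12 hF).mono (by linarith)) (V.sum fun j hj => ?_)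
    by_cases hpj : p < j
    swap
    · rw [if_neg hpj, sub_self, mul_zero]; exact V.zero _
    have hz : ∀ f, j ∈ T p μ e f → (DS (T p μ e f)).eval (-(j : ℚ)) = 0 := fun f hf => by
      rw [DS_eval]; exact prod_eq_zero hf (by ring)
    by_cases h1 : j ∈ T p μ e d
    · refine Or.inl (mul_eq_zero_of_left ?_ _)
      simp [res, hRdef, hz d h1]
    by_cases h2 : j ∈ T p μ e d'
    · refine Or.inl (mul_eq_zero_of_left ?_ _)
      simp [res, hRdef, hz d' h2]
    have hj' := hj
    simp only [SP, mem_Ico] at hj'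
    have h3 := (res_V h12 hR hj hpj).mul ((hs_V (p := p) a b j 1 (by omega)).sub
      (hs_V a b (if p < j then j - p else j) 1 (by split_ifs <;> omega)))
    refine h3.mono ?_
    have hw : ∀ f, j ∉ T p μ e f → (if j ≤ p + 4 * μ then e + 1 else e + 3) ≤ f := fun f hf => by
      rw [T] at hf
      split_ifs at hf ⊢ <;> (try rw [mem_Ioc] at hf) <;> omega
    have w1 := hw d h1
    have w2 := hw d' h2
    by_cases h4 : j ≤ p + 4 * μ
    · rw [if_pos h4] at w1 w2 ⊢
      have w1' : (e : ℝ) + 1 ≤ d := by exact_mod_cast w1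
      have w2' : (e : ℝ) + 1 ≤ d' := by exact_mod_cast w2
      push_cast
      linarith
    · rw [if_neg h4] at w1 w2 ⊢
      have w1' : (e : ℝ) + 3 ≤ d := by exact_mod_cast w1
      have w2' : (e : ℝ) + 3 ≤ d' := by exact_mod_cast w2
      push_cast
      linarith

theorem main (hB : SBInt) (hL : SLev) (a b c : ℤ) (β : ℚ[X] →ₗ[ℚ] ℚ) (hβ : IsB a b β)
    {μ n e : ℕ} (hn : n ≤ 23 * μ) (h12 : 12 * μ < p) (he : e ≤ 1) :
    V p (Del a b c β μ n) (((e : ℝ) - 1) * n - ∑ d ∈ range 4, ((T p μ e d).card : ℝ) -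
      e * ((2 * n - (16 * μ + p) : ℕ) : ℝ)) := by
  have h := hL p hp.out (Lam a b c β μ) n 4 (fun d => DS (T p μ e d)) ((e : ℝ) - 1)
    (fun i => if p + 16 * μ ≤ n + i then (e : ℝ) / 2 else 0) (fun d => DS_monic _)
    (by rw [DS_natDegree, T, if_neg (by omega), if_neg (by omega), card_empty])
    (fun i hi i' hi' d d' t ht => entry hB a b c β hβ hn h12 he hi hi' ht)
  have h1 : (range n).filter (fun i => p + 16 * μ ≤ n + i) = Ico (p + 16 * μ - n) n := by
    ext i
    simp only [mem_filter, mem_range, mem_Ico]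
    omega
  rw [← sum_filter, h1, sum_const, Nat.card_Ico, nsmul_eq_mul,
    show n - (p + 16 * μ - n) = 2 * n - (16 * μ + p) by omega] at h
  simp only [DS_natDegree] at h
  rw [Del_eq]
  exact h.mono (by linarith)

end Mid

theorem mid_thm : SBInt → SLev → SMid := by
  intro hB hL a b c β hβ p hp μ n _ hn h12
  have := Fact.mk hp
  have e1 : 24 * μ - (p + 4 * μ) = 20 * μ - p := by omega
  constructor
  · have h := Mid.main hB hL a b c β hβ hn h12 (Nat.zero_le 1)
    refine h.mono (le_of_eq ?_)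
    simp only [sum_range_succ, range_zero, sum_empty, Mid.T]
    norm_num [e1]
    ring
  · have h := Mid.main hB hL a b c β hβ hn h12 (le_refl 1)
    refine h.mono (le_of_eq ?_)
    simp only [sum_range_succ, range_zero, sum_empty, Mid.T]
    norm_num [e1]
    ring

end Pool.Agent.Z23
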