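import Pool.Agent.Lib.MP_caab05_ag.Z23.Base

/-! Valuations of the functional on polynomials, of one entry, and of the determinant. -/

namespace Pool.Agent.Z23

open Finset Polynomial Pool.Agent.Caab

namespace PBase

theorem desc_delta (l : ℕ) : (descPochhammer ℚ (l + 1)).comp (X + 1) - descPochhammer ℚ (l + 1) =
    ((l : ℚ) + 1) • descPochhammer ℚ l := by
  have h : (descPochhammer ℚ (l + 1)).comp (X + 1) = (X + 1) * descPochhammer ℚ l := by
    rw [descPochhammer_succ_left, mul_comp, X_comp, comp_assoc]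
    simp
  rw [h, descPochhammer_succ_right, smul_eq_C_mul, map_add, map_natCast, map_one]
  ring

theorem desc_coeff (l : ℕ) : (descPochhammer ℚ (l + 1)).coeff 0 = 0 ∧
    (descPochhammer ℚ (l + 1)).coeff 1 = (-1) ^ l * l.factorial ∧
    (descPochhammer ℚ (l + 1)).coeff 2 = -((-1) ^ l * l.factorial * harmonic l) := by
  induction l with
  | zero => simp [coeff_X]
  | succ l ih =>
    obtain ⟨h0, h1, h2⟩ := ih
    rw [descPochhammer_succ_right, ← C_eq_natCast, mul_sub]
    simp only [coeff_sub, coeff_mul_C, mul_coeff_zero, coeff_X_zero]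
    rw [show (2 : ℕ) = 1 + 1 from rfl, coeff_mul_X, show (1 : ℕ) + 1 = 2 from rfl, h2]
    nth_rewrite 2 [show (1 : ℕ) = 0 + 1 from rfl]
    rw [coeff_mul_X, h0, h1, harmonic_succ, Nat.factorial_succ]
    refine ⟨by simp, by push_cast; ring, ?_⟩
    push_cast
    field_simp
    ring

theorem beta_desc {a b : ℤ} {β : ℚ[X] →ₗ[ℚ] ℚ} (hβ : IsB a b β) (l : ℕ) :
    β (descPochhammer ℚ l) =
      (-1) ^ l * l.factorial * (b + a * harmonic l) * ((l + 1 : ℕ) : ℚ)⁻¹ := by
  have h := hβ (descPochhammer ℚ (l + 1))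
  rw [desc_delta, map_smul, (desc_coeff l).2.1, (desc_coeff l).2.2, smul_eq_mul] at h
  push_cast
  field_simp
  linarith

variable {p : ℕ} [hp : Fact p.Prime]

theorem V_inv {k L : ℕ} (hk : k < p ^ (L + 1)) : V p ((k : ℚ)⁻¹) (-(L : ℝ)) := by
  refine V.inv ?_
  rw [padicValRat.of_nat]
  have : padicValNat p k ≤ L := by
    rcases Nat.eq_zero_or_pos k with rfl | h0
    · simp
    by_contra hc
    have h1 : p ^ (L + 1) ∣ k := (padicValNat_dvd_iff _ _).2 (Or.inr (by omega))
    exact absurd (Nat.le_of_dvd h0 h1) (by omega)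
  exact_mod_cast this

theorem V_harm {l L : ℕ} (hl : l < p ^ (L + 1)) : V p (harmonic l) (-(L : ℝ)) :=
  V.sum fun i hi => V_inv (by have := mem_range.1 hi; omega)

theorem V_fact_harm (l : ℕ) : V p (l.factorial * harmonic l) 0 := by
  rw [harmonic, mul_sum]
  refine V.sum fun i hi => ?_
  obtain ⟨k, hk⟩ := Nat.dvd_factorial (Nat.succ_pos i) (mem_range.1 hi)
  have : (l.factorial : ℚ) * ((i + 1 : ℕ) : ℚ)⁻¹ = k := by
    rw [hk]
    push_cast
    field_simp
  rw [this]
  exact V.nat k

omit hp in
theorem V_sign (l : ℕ) : V p ((-1) ^ l) 0 := by simpa using V.int (p := p) ((-1) ^ l)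

theorem V_hs (a b : ℤ) {j L : ℕ} (hj : j ≤ p ^ (L + 1)) : V p (hs a b j) (-(3 * L : ℝ)) := by
  refine V.sum fun k hk => ?_
  have h := V_inv (p := p) (k := k) (L := L) (by have := mem_range.1 hk; omega)
  have hL : (0 : ℝ) ≤ L := by positivity
  rw [div_eq_mul_inv, div_eq_mul_inv, ← inv_pow, ← inv_pow]
  exact (((V.int a).zero_mul' (h.pow 3)).mono (by push_cast; linarith)).add
    (((V.int b).zero_mul' (h.pow 2)).mono (by push_cast; linarith))

omit hp in
theorem deg_sub {q : ℚ[X]} {δ : ℕ} (h : q.degree < (δ + 1 : ℕ)) :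
    (q - q.coeff δ • descPochhammer ℚ δ).degree < δ := by
  rw [degree_lt_iff_coeff_zero] at h ⊢
  intro m hm
  rcases hm.eq_or_lt with rfl | hm
  · have := (monic_descPochhammer ℚ δ).coeff_natDegree
    rw [descPochhammer_natDegree] at this
    simp [this]
  · have : (descPochhammer ℚ δ).coeff m = 0 :=
      coeff_eq_zero_of_natDegree_lt (by rwa [descPochhammer_natDegree])
    simp [this, h m hm]

theorem bint {a b : ℤ} {β : ℚ[X] →ₗ[ℚ] ℚ} (hβ : IsB a b β) (L δ : ℕ) (hδ : δ < p ^ (L + 1)) :
    ∀ q : ℚ[X], IntP q → q.degree < δ → V p (β q) (-(L : ℝ)) := by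
  induction δ with
  | zero =>
    intro q _ h
    rw [Nat.cast_zero, Nat.WithBot.lt_zero_iff, degree_eq_bot] at h
    rw [h, map_zero]
    exact V.zero _
  | succ δ ih =>
    rintro q ⟨G, hG⟩ h
    have hc : q.coeff δ = (G.coeff δ : ℤ) := by rw [← hG, coeff_map]; rfl
    have h1 := ih (by omega) _ ⟨G - C (G.coeff δ) * descPochhammer ℤ δ, by
      rw [Polynomial.map_sub, Polynomial.map_mul, map_C, descPochhammer_map, hG, hc,
        smul_eq_C_mul]; rfl⟩ (deg_sub h)
    have h2 : V p (β (descPochhammer ℚ δ)) (-(L : ℝ)) := by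
      rw [beta_desc hβ, mul_assoc ((-1 : ℚ) ^ δ), mul_add, mul_left_comm]
      exact ((V_sign δ).mul0 (((V.nat _).mul0 (V.int b)).add
        ((V.int a).mul0 (V_fact_harm δ)))).zero_mul' (V_inv hδ)
    have e : β q = β (q - q.coeff δ • descPochhammer ℚ δ) + q.coeff δ * β (descPochhammer ℚ δ) := by
      rw [map_sub, map_smul, smul_eq_mul]; ring
    rw [e]
    exact h1.add (hc ▸ (V.int _).zero_mul' h2)

theorem vals {a b : ℤ} {β : ℚ[X] →ₗ[ℚ] ℚ} (hβ : IsB a b β) (L δ : ℕ) (r : ℝ)
    (hδ : δ < p ^ (L + 1)) : ∀ q : ℚ[X], q.degree < δ → (∀ k : ℕ, k < δ → V p (q.eval (k : ℚ)) r) →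
      (∀ k : ℕ, V p (q.eval (k : ℚ)) r) ∧ V p (β q) (r - 2 * L) := by
  induction δ with
  | zero =>
    intro q h _
    rw [Nat.cast_zero, Nat.WithBot.lt_zero_iff, degree_eq_bot] at h
    subst h
    exact ⟨fun k => by simpa using V.zero _, by simpa using V.zero _⟩
  | succ δ ih =>
    intro q h hv
    have ev : ∀ k : ℕ, (q - q.coeff δ • descPochhammer ℚ δ).eval (k : ℚ) =
        q.eval (k : ℚ) - q.coeff δ * δ.factorial * k.choose δ := fun k => by
      rw [eval_sub, eval_smul, descPochhammer_eval_eq_descFactorial,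
        Nat.descFactorial_eq_factorial_mul_choose]
      push_cast
      rw [smul_eq_mul, mul_assoc]
    obtain ⟨h1, h2⟩ := ih (by omega) _ (deg_sub h) fun k hk => by
      rw [ev, Nat.choose_eq_zero_of_lt hk]
      simpa using hv k (by omega)
    have h3 : V p (q.coeff δ * δ.factorial) r := by
      have := (hv δ (by omega)).sub (h1 δ)
      rw [ev] at this
      simpa using this
    refine ⟨fun k => ?_, ?_⟩
    · have := (h1 k).add (h3.mul0 (V.nat (k.choose δ)))
      rw [ev] at this
      simpa using this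
    · have hL : (0 : ℝ) ≤ L := by positivity
      have h4 : V p ((b : ℚ) + a * harmonic δ) (-(L : ℝ)) :=
        ((V.int b).mono (by linarith)).add ((V.int a).zero_mul' (V_harm (by omega)))
      have h5 := ((h3.mul0 (V_sign δ)).mul h4).mul (V_inv hδ)
      have e : β q = β (q - q.coeff δ • descPochhammer ℚ δ) + q.coeff δ * δ.factorial * (-1) ^ δ *
          (b + a * harmonic δ) * ((δ + 1 : ℕ) : ℚ)⁻¹ := by
        rw [map_sub, map_smul, smul_eq_mul, beta_desc hβ]; ring
      rw [e]
      exact h2.add (h5.mono (by linarith))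

end PBase

open PBase

theorem bint_thm : SBInt := fun a b β hβ p hp q L hq hd => by
  have := Fact.mk hp
  exact bint hβ L (q.natDegree + 1) hd q hq
    (lt_of_le_of_lt degree_le_natDegree (by exact_mod_cast Nat.lt_succ_self _))

theorem entry_thm : SEntry := fun a b c β hβ p hp S F δ B L r hS hF hL hv hr => by
  have := Fact.mk hp
  have hL0 : (0 : ℝ) ≤ L := by positivity
  refine V.add ?_ (V.sum fun j hj => ?_)
  · refine (vals hβ L (δ + 1) r (by omega) _ ?_ fun k hk => ?_).2
    · refine lt_of_le_of_lt degree_le_natDegree ?_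
      rw [natDegree_divByMonic _ (DS_monic S), DS_natDegree]
      exact_mod_cast (by omega)
    · have hk0 : ∀ j ∈ S, (k : ℚ) + j ≠ 0 := fun j hj => by
        have : (0 : ℚ) < j := by exact_mod_cast (hS j hj).1
        positivity
      have hD : (DS S).eval (k : ℚ) ≠ 0 := by
        rw [DS_eval]; exact prod_ne_zero_iff.2 hk0
      have h1 := congrArg (eval (k : ℚ)) (pf S F)
      rw [eval_add, eval_mul, eval_finsetSum] at h1
      have h2 : (F /ₘ DS S).eval (k : ℚ) = F.eval (k : ℚ) / (DS S).eval (k : ℚ) -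
          ∑ j ∈ S, res S F j * ((k + j : ℕ) : ℚ)⁻¹ := by
        rw [eq_sub_iff_add_eq, eq_div_iff hD, h1, add_mul, sum_mul, mul_comm]
        congr 1
        refine sum_congr rfl fun j hj => ?_
        rw [DS_erase hj, eval_mul, eval_mul, eval_C, eval_add, eval_X, eval_C]
        have := hk0 j hj
        push_cast
        field_simp
      rw [h2]
      refine (hv k (by omega)).sub (V.sum fun j hj => ?_)
      have := (hr j hj).mul (V_inv (p := p) (k := k + j) (L := L) (by have := (hS j hj).2; omega))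
      exact this.mono (by linarith)
  · have h1 : V p ((c : ℚ) - hs a b j) (-(3 * L : ℝ)) :=
      ((V.int c).mono (by linarith)).sub (V_hs a b (by have := (hS j hj).2; omega))
    exact ((hr j hj).mul h1).mono (by linarith)

theorem lev_thm : SLev := fun p hp Λ n D G lam pen hG hD h => by
  classical
  have := Fact.mk hp
  have hex : ∀ i : ℕ, ∃ d, (G d).natDegree ≤ i := fun i => ⟨D, by omega⟩
  set d : ℕ → ℕ := fun i => Nat.find (hex i) with hd
  have hd1 : ∀ i, (G (d i)).natDegree ≤ i := fun i => Nat.find_spec (hex i)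
  have hd2 : ∀ i, d i ≤ D := fun i => Nat.find_min' (hex i) (by omega)
  have hd3 : ∀ i d', d' < d i → i < (G d').natDegree := fun i d' h' => by
    have := Nat.find_min (hex i) h'
    omega
  set Q : Fin n → ℚ[X] := fun i => X ^ (i - (G (d i)).natDegree) * G (d i) with hQ
  have q1 : ∀ i, (Q i).Monic := fun i => (monic_X_pow _).mul (hG _)
  have q2 : ∀ i, (Q i).natDegree = i := fun i => by
    simp only [hQ]
    rw [(monic_X_pow _).natDegree_mul (hG _), natDegree_X_pow]
    have := hd1 i
    omega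
  rw [← hank_basis Λ n Q Q q1 q2 q1 q2]
  refine (V.det _ (fun i : Fin n => (lam - d i) / 2 - pen i) fun i j => ?_).mono ?_
  · have h1 := h i i.2 j j.2 (d i) (d j) (i - (G (d i)).natDegree + (j - (G (d j)).natDegree))
      (by have := hd1 i; have := hd1 j; omega)
    have e : Q i * Q j = X ^ (i - (G (d i)).natDegree + (j - (G (d j)).natDegree)) *
        (G (d i) * G (d j)) := by
      simp only [hQ, pow_add]; ring
    rw [Matrix.of_apply, e]
    exact h1.mono (le_of_eq (by ring))
  · have h2 : ∑ i ∈ range n, d i ≤ ∑ d' ∈ range D, (G d').natDegree := by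
      have a1 : ∀ i ∈ range n, d i ≤ ∑ d' ∈ range D, (if i < (G d').natDegree then 1 else 0) := by
        intro i _
        have : range (d i) ⊆ (range D).filter fun d' => i < (G d').natDegree := fun d' hd' =>
          mem_filter.2 ⟨mem_range.2 ((mem_range.1 hd').trans_le (hd2 i)),
            hd3 i d' (mem_range.1 hd')⟩
        have := card_le_card this
        rwa [card_range, card_filter] at this
      refine (sum_le_sum a1).trans ?_
      rw [sum_comm]
      refine sum_le_sum fun d' _ => ?_
      have : ((range n).filter fun i => i < (G d').natDegree) ⊆ range (G d').natDegree :=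
        fun i hi => mem_range.2 (mem_filter.1 hi).2
      have := card_le_card this
      rwa [card_range, card_filter] at this
    have h3 : ∑ i ∈ range n, (d i : ℝ) ≤ ∑ d' ∈ range D, ((G d').natDegree : ℝ) := by
      exact_mod_cast h2
    rw [← sum_range (fun i => (lam - d i) / 2 - pen i), sum_sub_distrib, ← sum_div, sum_sub_distrib]
    simp only [sum_const, card_range, nsmul_eq_mul]
    linarith

end Pool.Agent.Z23
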