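import Pool.Agent.Lib.MP_caab05_ag.Z23.Base

/-! The valuation of the Hankel determinant at small primes. -/

namespace Pool.Agent.Z23

open Finset Polynomial Pool.Agent.Caab

namespace SmallA

variable {p : ℕ} [hp : Fact p.Prime]

theorem V_DS {i L : ℕ} (h : i ≤ p ^ (L + 1)) (z : ℤ) :
    V p ((DS (Ico 1 (1 + i))).eval (z : ℚ)) (i / ((p : ℝ) - 1) - L - 2) := by
  rw [DS_Ico]
  refine V.of_ne fun h0 => ?_
  rw [val_rf h0]
  exact rv_ge (d := 1) (by simp) (a' := z + 1) (by simp) i L h h0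

theorem deg (i : ℕ) : (DS (Ico 1 (1 + i))).natDegree = i := by simp [DS_natDegree]

theorem val_den (μ j : ℕ) : padicValRat p (∏ l ∈ (SP μ).erase j, ((l : ℚ) - j))
    = rv p ((4 * μ + 1 : ℕ) - j) (20 * μ) := by
  rw [val_prod fun l hl => sub_ne_zero.2 (by exact_mod_cast ne_of_mem_erase hl),
    sum_erase _ (by simp), rv, SP, sum_Ico_eq_sum_range,
    show 24 * μ + 1 - (4 * μ + 1) = 20 * μ by omega]
  exact sum_congr rfl fun i _ => by
    congr 1
    push_cast
    ring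

theorem entry (hE : SEntry) {a b : ℤ} (c : ℤ) {β : ℚ[X] →ₗ[ℚ] ℚ} (hβ : IsB a b β) {μ L i k : ℕ}
    (hL : 60 * μ < p ^ (L + 1)) (hi : i < 23 * μ) (hk : k < 23 * μ) :
    V p (Lam a b c β μ (DS (Ico 1 (1 + i)) * DS (Ico 1 (1 + k))))
      (((i : ℝ) + k - 16 * μ) / ((p : ℝ) - 1) - 7 * (L + 1)) := by
  have h1 : ∀ z : ℤ, V p ((DS (SZ μ) * (DS (Ico 1 (1 + i)) * DS (Ico 1 (1 + k)))).eval (z : ℚ))
      (((i : ℝ) + k + 4 * μ) / ((p : ℝ) - 1) - 3 * (L + 2)) := fun z => by
    rw [eval_mul, eval_mul, SZ, add_comm (4 * μ)]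
    refine ((V_DS (L := L) (by omega) z).mul ((V_DS (L := L) (by omega) z).mul
      (V_DS (L := L) (by omega) z))).mono (le_of_eq ?_)
    push_cast
    ring
  have hL' : (60 * μ : ℤ) < (p : ℤ) ^ (L + 1) := by exact_mod_cast hL
  have h0 : (0 : ℝ) ≤ L := Nat.cast_nonneg L
  have e : ((i : ℝ) + k + 4 * μ) / ((p : ℝ) - 1) - ((20 * μ : ℕ) : ℝ) / ((p : ℝ) - 1) =
      ((i : ℝ) + k - 16 * μ) / ((p : ℝ) - 1) := by
    push_cast
    ring
  rw [Lam_apply]
  refine (hE a b c β hβ p hp.out (SP μ) _ (30 * μ) (24 * μ) L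
    (((i : ℝ) + k - 16 * μ) / ((p : ℝ) - 1) - (5 * L + 6)) (fun j hj => ?_) ?_ (by omega)
    (fun n hn => ?_) fun j hj => ?_).mono (by linarith)
  · rw [SP, mem_Ico] at hj
    omega
  · rw [(DS_monic _).natDegree_mul ((DS_monic _).mul (DS_monic _)),
      (DS_monic _).natDegree_mul (DS_monic _), deg, deg, DS_natDegree, card_SZ, card_SP]
    omega
  · have h2 := rv_le (p := p) (d := 1) (by simp) (a := n + (4 * μ + 1 : ℕ))
      (a' := n + (4 * μ + 1 : ℕ)) (by simp) (20 * μ) L fun l hl => by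
        rw [abs_lt]
        constructor <;> omega
    have h3 := h1 n
    rw [← val_rf (prod_ne_zero_iff.2 fun l _ => by positivity), ← SP_eval] at h2
    rw [Int.cast_natCast] at h3
    exact (h3.div h2).mono (by linarith)
  · rw [SP, mem_Ico] at hj
    have h2 := rv_le (p := p) (d := 1) (by simp) (a := (4 * μ + 1 : ℕ) - j)
      (a' := (4 * μ + 1 : ℕ) - j) (by simp) (20 * μ) L fun l hl => by
        rw [abs_lt]
        constructor <;> omega
    have h3 := h1 (-j)
    rw [← val_den] at h2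
    rw [Int.cast_neg, Int.cast_natCast] at h3
    exact (h3.div h2).mono (by linarith)

theorem two_sum (h : ℕ) : 2 * ∑ i : Fin h, (i : ℝ) = (h : ℝ) ^ 2 - h := by
  rw [Fin.sum_univ_eq_sum_range (fun i => (i : ℝ)) h]
  induction h with
  | zero => simp
  | succ h ih =>
    rw [sum_range_succ, mul_add, ih]
    push_cast
    ring

end SmallA

open SmallA in
theorem small_thm (hE : SEntry) : SSmall := by
  intro a b c β hβ p hp μ n L hn hL
  have := Fact.mk hp
  rw [Del_basis a b c β μ n (fun i => DS (Ico 1 (1 + i))) (fun _ _ => DS_monic _) fun _ _ => deg _]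
  refine (V.det _ (fun i : Fin n => ((i : ℝ) - 8 * μ) / ((p : ℝ) - 1) - 7 * (L + 1) / 2)
    fun i k => (entry hE c hβ hL (by omega) (by omega)).mono (le_of_eq (by ring))).mono
      (le_of_eq ?_)
  rw [sum_sub_distrib, ← sum_div, sum_sub_distrib, sum_const, sum_const, card_univ,
    Fintype.card_fin, nsmul_eq_mul, nsmul_eq_mul, kap]
  linear_combination (-1 / ((p : ℝ) - 1)) * two_sum n

end Pool.Agent.Z23
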