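import Pool.Agent.Lib.MP_caab05_ag.Z23.Base
import Pool.Agent.Lib.MP_caab05_ag.Mertens

/-! Summation of the valuation bounds over all primes. -/

namespace Pool.Agent.Z23

open Finset Filter Topology Pool.Agent.Caab

namespace SumA

/-- the sum over the primes up to `N` -/
noncomputable def PS (N : ℕ) (f : ℕ → ℝ) : ℝ := ∑ p ∈ (range (N + 1)).filter Nat.Prime, f p

theorem log_ge_sum (q : ℚ) (hq : q ≠ 0) (N : ℕ) (h : ∀ p : ℕ, p.Prime → N < p → V p q 0) :
    PS N (fun p => (padicValRat p q : ℝ) * Real.log p) ≤ Real.log |(q : ℝ)| := by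
  classical
  set T := (range (N + 1)).filter Nat.Prime ∪ (q.num.natAbs.primeFactors ∪ q.den.primeFactors)
    with hT
  have hprime : ∀ p ∈ T, p.Prime := by
    intro p hp
    simp only [hT, mem_union, mem_filter] at hp
    rcases hp with hp | hp | hp
    · exact hp.2
    · exact Nat.prime_of_mem_primeFactors hp
    · exact Nat.prime_of_mem_primeFactors hp
  have key : ∀ n : ℕ, n.primeFactors ⊆ T →
      Real.log n = ∑ p ∈ T, (padicValNat p n : ℝ) * Real.log p := by
    intro n hn
    rw [Real.log_nat_eq_sum_factorization, Finsupp.sum_of_support_subset _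
      (by simpa using hn) _ (by simp)]
    exact sum_congr rfl fun p hp => by rw [Nat.factorization_def n (hprime p hp)]
  have h1 : Real.log |(q : ℝ)| = ∑ p ∈ T, (padicValRat p q : ℝ) * Real.log p := by
    have e : |(q : ℝ)| = (q.num.natAbs : ℝ) / q.den := by
      rw [Nat.cast_natAbs, Rat.cast_def, abs_div, Nat.abs_cast, Int.cast_abs]
    rw [e, Real.log_div (by simpa using hq) (by simp),
      key _ (subset_union_left.trans subset_union_right),
      key _ (subset_union_right.trans subset_union_right), ← sum_sub_distrib]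
    refine sum_congr rfl fun p _ => ?_
    rw [padicValRat, padicValInt, Int.cast_sub, Int.cast_natCast, Int.cast_natCast]
    ring
  rw [h1]
  refine sum_le_sum_of_subset_of_nonneg subset_union_left fun p hp hp' => ?_
  have h2 : N < p := by
    by_contra hc
    exact hp' (mem_filter.2 ⟨mem_range.2 (by omega), hprime p hp⟩)
  exact mul_nonneg ((h p (hprime p hp) h2).le hq) (Real.log_natCast_nonneg p)

theorem PS_succ (N : ℕ) (f : ℕ → ℝ) :
    PS (N + 1) f = PS N f + if (N + 1).Prime then f (N + 1) else 0 := by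
  rw [PS, PS, sum_filter, sum_filter, sum_range_succ _ (N + 1)]

theorem PS_ite {a N : ℕ} (h : a ≤ N) (f : ℕ → ℝ) :
    PS N (fun p => if p ≤ a then f p else 0) = PS a f := by
  rw [PS, PS, ← sum_filter]
  refine sum_congr ?_ fun _ _ => rfl
  ext p
  simp only [mem_filter, mem_range]
  exact ⟨fun g => ⟨by omega, g.1.2⟩, fun g => ⟨⟨by omega, g.2⟩, by omega⟩⟩

theorem abel (N : ℕ) : PS N (fun p => (p : ℝ) * Real.log p) =
    N * PS N (fun p => Real.log p) - ∑ k ∈ range N, PS k (fun p => Real.log p) := by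
  induction N with
  | zero => simp [PS, sum_filter]
  | succ N ih =>
    rw [PS_succ, PS_succ, sum_range_succ, ih]
    split_ifs <;> push_cast <;> ring

theorem th_lim : Tendsto (fun N : ℕ => PS N (fun p => Real.log p) / (N : ℝ)) atTop (𝓝 1) := by
  refine (Mertens.theta_mul 1 one_pos).congr fun N => ?_
  rw [one_mul, Chebyshev.theta_eq_sum_primesLE_log, PS]
  congr 2

theorem S_lim : Tendsto (fun N : ℕ => PS N (fun p => (p : ℝ) * Real.log p) / (N : ℝ) ^ 2) atTop
    (𝓝 (1 / 2)) := by
  have h2 : (fun k : ℕ => PS k (fun p => Real.log p) - (k : ℝ)) =o[atTop] fun k : ℕ => (k : ℝ) := by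
    rw [Asymptotics.isLittleO_iff_tendsto']
    · have := th_lim.sub_const 1
      rw [sub_self] at this
      refine this.congr' ?_
      filter_upwards [eventually_gt_atTop 0] with k hk
      have : (k : ℝ) ≠ 0 := by positivity
      field_simp
    · filter_upwards [eventually_gt_atTop 0] with k hk h
      exact absurd h (by positivity)
  have hsum : ∀ N : ℕ, ∑ k ∈ range N, (k : ℝ) = N * (N - 1) / 2 := by
    intro N
    induction N with
    | zero => simp
    | succ N ih => rw [sum_range_succ, ih]; push_cast; ring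
  have hinf : Tendsto (fun N : ℕ => ∑ k ∈ range N, (k : ℝ)) atTop atTop := by
    refine tendsto_atTop_mono' atTop ?_ (tendsto_natCast_atTop_atTop (R := ℝ))
    filter_upwards [eventually_ge_atTop 3] with N hN
    rw [hsum]
    have : (3 : ℝ) ≤ N := by exact_mod_cast hN
    nlinarith
  have h3 := h2.sum_range (fun k => Nat.cast_nonneg k) hinf
  have h4 : (fun N : ℕ => ∑ k ∈ range N, (k : ℝ)) =O[atTop] fun N : ℕ => (N : ℝ) ^ 2 := by
    refine Asymptotics.IsBigO.of_bound 1 (Eventually.of_forall fun N => ?_)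
    rw [Real.norm_of_nonneg (sum_nonneg fun k _ => Nat.cast_nonneg k),
      Real.norm_of_nonneg (by positivity), hsum]
    have : (0 : ℝ) ≤ N := Nat.cast_nonneg N
    nlinarith
  have h5 := (h3.trans_isBigO h4).tendsto_div_nhds_zero
  have h6 : Tendsto (fun N : ℕ => (1 : ℝ) / 2 * (N : ℝ)⁻¹) atTop (𝓝 (1 / 2 * 0)) :=
    (tendsto_inv_atTop_nhds_zero_nat (𝕜 := ℝ)).const_mul _
  have h7 := ((th_lim.sub h5).sub_const (1 / 2)).add h6
  rw [show (1 : ℝ) - 0 - 1 / 2 + 1 / 2 * 0 = 1 / 2 by norm_num] at h7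
  refine h7.congr' ?_
  filter_upwards [eventually_gt_atTop 0] with N hN
  have hN' : (N : ℝ) ≠ 0 := by positivity
  rw [abel, sum_sub_distrib, hsum]
  field_simp
  ring

/-- a linear function cut at `w m` -/
def g (w : ℕ) (α β : ℝ) (m p : ℕ) : ℝ := if p ≤ w * m then α * m + β * p else 0

theorem lin (w : ℕ) (h0 : 0 < w) (h1 : w ≤ 30) (α β : ℝ) :
    Tendsto (fun m : ℕ => PS (30 * m) (fun p => g w α β m p * Real.log p) / (m : ℝ) ^ 2) atTop
      (𝓝 (α * w + β * w ^ 2 / 2)) := by
  have t : Tendsto (fun m : ℕ => w * m) atTop atTop := tendsto_id.const_mul_atTop' h0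
  have h := ((th_lim.comp t).const_mul (α * w)).add ((S_lim.comp t).const_mul (β * w ^ 2))
  rw [mul_one, mul_one_div] at h
  refine h.congr' ?_
  filter_upwards [eventually_gt_atTop 0] with m hm
  have e : PS (w * m) (fun p => (α * m + β * p) * Real.log p) =
      α * m * PS (w * m) (fun p => Real.log p) + β * PS (w * m) fun p => p * Real.log p := by
    rw [PS, PS, PS, mul_sum, mul_sum, ← sum_add_distrib]
    exact sum_congr rfl fun p _ => by ring
  simp only [g, ite_mul, zero_mul, Function.comp]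
  rw [PS_ite (Nat.mul_le_mul_right m h1), e]
  push_cast
  field_simp

/-- the piecewise linear part of the bound -/
noncomputable def G (m p : ℕ) : ℝ := g 12 19.8 (-53 / 16) m p + g 15 30 (-2) m p +
  g 20 (-40) 2 m p + g 24 (-48) 2 m p + g 28 (-28) 1 m p + g 30 (-0.01) 0 m p

theorem G_sum : ∀ᶠ m : ℕ in atTop,
    -1144.5 * (m : ℝ) ^ 2 ≤ PS (30 * m) fun p => G m p * Real.log p := by
  have h := (((((lin 12 (by norm_num) (by norm_num) 19.8 (-53 / 16)).add
    (lin 15 (by norm_num) (by norm_num) 30 (-2))).add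
    (lin 20 (by norm_num) (by norm_num) (-40) 2)).add
    (lin 24 (by norm_num) (by norm_num) (-48) 2)).add
    (lin 28 (by norm_num) (by norm_num) (-28) 1)).add (lin 30 (by norm_num) le_rfl (-0.01) 0)
  filter_upwards [h.eventually (lt_mem_nhds (a := -1144.5) (by norm_num)), eventually_gt_atTop 0]
    with m h1 hm
  simp only [← add_div] at h1
  rw [lt_div_iff₀ (by positivity)] at h1
  simp only [PS, G, add_mul, sum_add_distrib] at h1 ⊢
  exact h1.le

theorem G_low {m p : ℕ} (h : p ≤ 12 * m) : G m p = -66.21 * m - 5 * p / 16 := by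
  simp only [G, g]
  rw [if_pos h, if_pos (by omega), if_pos (by omega), if_pos (by omega), if_pos (by omega),
    if_pos (by omega)]
  ring

theorem mid {m n p : ℕ} {v : ℝ} (hm : 3000 ≤ m) (hn' : 22 * m + 1 ≤ n) (hn : n ≤ 22 * m + 10)
    (h : 12 * m < p) (h' : p ≤ 30 * m)
    (h1 : -((n + (24 * m - p) + 2 * (20 * m - p) : ℕ) : ℝ) ≤ v)
    (h2 : -((2 * (24 * m - p) + 2 * (20 * m - p) + (2 * n - (16 * m + p)) : ℕ) : ℝ) ≤ v) :
    G m p ≤ v := by
  generalize hA : n + (24 * m - p) + 2 * (20 * m - p) = A at h1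
  generalize hB : 2 * (24 * m - p) + 2 * (20 * m - p) + (2 * n - (16 * m + p)) = B at h2
  have hm' : (3000 : ℝ) ≤ m := by exact_mod_cast hm
  simp only [G, g]
  rw [if_neg h.not_ge, if_pos h']
  rcases le_or_gt p (15 * m) with a | a
  · rw [if_pos a, if_pos (by omega), if_pos (by omega), if_pos (by omega)]
    have : (A : ℝ) + 3 * p ≤ 86 * m + 10 := by exact_mod_cast (by omega : A + 3 * p ≤ 86 * m + 10)
    linarith
  rw [if_neg a.not_ge]
  rcases le_or_gt p (20 * m) with b | b
  · rw [if_pos b, if_pos (by omega), if_pos (by omega)]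
    have : (B : ℝ) + 5 * p ≤ 116 * m + 20 := by
      exact_mod_cast (by omega : B + 5 * p ≤ 116 * m + 20)
    linarith
  rw [if_neg b.not_ge]
  rcases le_or_gt p (24 * m) with c | c
  · rw [if_pos c, if_pos (by omega)]
    have : (B : ℝ) + 3 * p ≤ 76 * m + 20 := by exact_mod_cast (by omega : B + 3 * p ≤ 76 * m + 20)
    linarith
  rw [if_neg c.not_ge]
  rcases le_or_gt p (28 * m) with d | d
  · rw [if_pos d]
    have : (B : ℝ) + p ≤ 28 * m + 20 := by exact_mod_cast (by omega : B + p ≤ 28 * m + 20)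
    linarith
  · rw [if_neg d.not_ge]
    have : (B : ℝ) ≤ 20 := by exact_mod_cast (by omega : B ≤ 20)
    linarith

theorem err_small : ∀ᶠ m : ℕ in atTop,
    ((Nat.sqrt (2000 * m) : ℝ) + 1) * (322 * m * Real.log (2000 * m)) ≤ (m : ℝ) ^ 2 := by
  have h1 : Tendsto (fun x : ℝ => Real.log x / x ^ (1 / 2 : ℝ)) atTop (𝓝 0) :=
    (isLittleO_log_rpow_atTop (r := 1 / 2) (by norm_num)).tendsto_div_nhds_zero
  have h2 : Tendsto (fun m : ℕ => (2000 : ℝ) * m) atTop atTop :=
    tendsto_natCast_atTop_atTop.const_mul_atTop (by norm_num)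
  filter_upwards [(h1.comp h2).eventually (gt_mem_nhds (show (0 : ℝ) < 1 / 1288000 by norm_num)),
    eventually_ge_atTop 1] with m hm h1m
  have hm1 : (1 : ℝ) ≤ m := by exact_mod_cast h1m
  simp only [Function.comp, ← Real.sqrt_eq_rpow] at hm
  set s := √(2000 * (m : ℝ)) with hs
  have hs2 : s * s = 2000 * m := Real.mul_self_sqrt (by positivity)
  have hs1 : 1 ≤ s := Real.one_le_sqrt.2 (by linarith)
  have hs0 : 0 < s := by linarith
  rw [div_lt_iff₀ hs0] at hm
  have h3 : (Nat.sqrt (2000 * m) : ℝ) ≤ s := by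
    have := Real.nat_sqrt_le_real_sqrt (a := 2000 * m)
    push_cast at this
    exact this
  have h4 : 0 ≤ Real.log (2000 * m) := Real.log_nonneg (by linarith)
  calc ((Nat.sqrt (2000 * m) : ℝ) + 1) * (322 * m * Real.log (2000 * m))
      ≤ (2 * s) * (322 * m * (1 / 1288000 * s)) := by gcongr; linarith
    _ = (m : ℝ) ^ 2 := by linear_combination (1 / 2000 * m) * hs2

theorem tail {m n p v : ℝ} (hm : 3000 ≤ m) (hn' : 22 * m + 1 ≤ n) (hn : n ≤ 22 * m + 10)
    (hp : 2 ≤ p) (h : 2000 * m < p ^ 2)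
    (h1 : (n ^ 2 - 16 * m * n) / p - 3 * n - 5 * p / 16 ≤ v) :
    (n ^ 2 - n - 16 * m * n) / (p - 1) + (-66.21 * m - 5 * p / 16) ≤ v := by
  have k1 : n ^ 2 - n - 16 * m * n ≤ 200 * m ^ 2 := by nlinarith
  have k2 : 1000 * m ≤ p * (p - 1) := by nlinarith
  have k3 : (n ^ 2 - n - 16 * m * n) / (p * (p - 1)) ≤ 0.2 * m := by
    rw [div_le_iff₀ (by nlinarith)]
    nlinarith
  have k4 : (n ^ 2 - n - 16 * m * n) / (p - 1) = (n ^ 2 - 16 * m * n) / p - n / p +
      (n ^ 2 - n - 16 * m * n) / (p * (p - 1)) := by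
    have : p - 1 ≠ 0 := by linarith
    field_simp
    ring
  have k5 : 0 ≤ n / p := div_nonneg (by linarith) (by linarith)
  linarith

end SumA

open SumA in
theorem sum_thm (hM : SMert) : SSum := by
  have t : Tendsto (fun m : ℕ => 12 * m) atTop atTop := tendsto_id.const_mul_atTop' (by norm_num)
  filter_upwards [t.eventually hM, G_sum, err_small, eventually_ge_atTop 3000]
    with m g1 g2 g3 hm n hn' hn Δ hΔ h1 h2 h3
  have hm1 : (3000 : ℝ) ≤ m := by exact_mod_cast hm
  have n1 : 22 * (m : ℝ) + 1 ≤ n := by exact_mod_cast hn'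
  have n2 : (n : ℝ) ≤ 22 * m + 10 := by exact_mod_cast hn
  have h0 := log_ge_sum Δ hΔ (30 * m) fun p hp h => by
    have := (h3 p hp (by omega)).2
    rwa [show 2 * (24 * m - p) + 2 * (20 * m - p) + (2 * n - (16 * m + p)) = 0 by omega,
      Nat.cast_zero, neg_zero] at this
  have hlog : 0 ≤ Real.log (2000 * m) := Real.log_nonneg (by linarith)
  have key : ∀ p ∈ (range (30 * m + 1)).filter Nat.Prime,
      (if p ≤ 12 * m then kap m n * (Real.log p / ((p : ℝ) - 1)) else 0) + G m p * Real.log p -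
        (if p ≤ Nat.sqrt (2000 * m) then 322 * m * Real.log (2000 * m) else 0) ≤
      (padicValRat p Δ : ℝ) * Real.log p := by
    intro p hp
    rw [mem_filter, mem_range] at hp
    obtain ⟨hp3, hp⟩ := hp
    have hlp : 0 ≤ Real.log p := Real.log_natCast_nonneg p
    have hp2 : (2 : ℝ) ≤ p := by exact_mod_cast hp.two_le
    by_cases a : p ≤ 12 * m
    · rw [if_pos a, G_low a]
      split_ifs with hs
      · have hL := (h1 p hp (Nat.log p (2000 * m)) (lt_of_le_of_lt (by omega)
          (Nat.lt_pow_succ_log_self hp.one_lt (2000 * m)))).le hΔ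
        have e1 : (Nat.log p (2000 * m) : ℝ) * Real.log p ≤ Real.log (2000 * m) := by
          rw [← Real.log_pow]
          refine Real.log_le_log (by positivity) ?_
          exact_mod_cast Nat.pow_log_le_self p (by omega : 2000 * m ≠ 0)
        have e2 : Real.log p ≤ Real.log (2000 * m) := by
          refine Real.log_le_log (by linarith) ?_
          exact_mod_cast (by omega : p ≤ 2000 * m)
        have e3 := mul_le_mul_of_nonneg_right hL hlp
        have e4 : (-66.21 * m - 5 * p / 16) * Real.log p ≤ 0 :=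
          mul_nonpos_of_nonpos_of_nonneg (by linarith) hlp
        have e5 : (kap m n / ((p : ℝ) - 1) - 7 * n * ((Nat.log p (2000 * m) : ℝ) + 1)) *
            Real.log p = kap m n * (Real.log p / ((p : ℝ) - 1)) -
              7 * n * ((Nat.log p (2000 * m) : ℝ) * Real.log p + Real.log p) := by ring
        have e6 : 7 * (n : ℝ) * ((Nat.log p (2000 * m) : ℝ) * Real.log p + Real.log p) ≤
            161 * m * (Real.log (2000 * m) + Real.log (2000 * m)) :=
          mul_le_mul (by linarith) (by linarith) (by positivity) (by positivity)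
        linarith
      · have hs' : 2000 * m < p ^ 2 := by
          rw [sq]
          exact not_le.1 fun c => hs (Nat.le_sqrt.2 c)
        have e3 := mul_le_mul_of_nonneg_right (tail hm1 n1 n2 hp2 (by exact_mod_cast hs')
          ((h2 p hp (by omega)).le hΔ)) hlp
        refine le_trans (le_of_eq ?_) e3
        rw [kap]
        ring
    · have := h3 p hp (not_le.1 a)
      have e3 := mul_le_mul_of_nonneg_right
        (mid hm hn' hn (not_le.1 a) (by omega) (this.1.le hΔ) (this.2.le hΔ)) hlp
      rw [if_neg a, zero_add]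
      refine (sub_le_self _ ?_).trans e3
      split_ifs <;> positivity
  have h4 := sum_le_sum key
  rw [sum_sub_distrib, sum_add_distrib] at h4
  have h5 : ∑ p ∈ (range (30 * m + 1)).filter Nat.Prime,
      (if p ≤ Nat.sqrt (2000 * m) then 322 * m * Real.log (2000 * m) else 0) ≤ (m : ℝ) ^ 2 := by
    rw [← sum_filter, sum_const, nsmul_eq_mul]
    refine le_trans (mul_le_mul_of_nonneg_right ?_ (by positivity)) g3
    have := card_le_card (show ((range (30 * m + 1)).filter Nat.Prime).filter
      (fun p => p ≤ Nat.sqrt (2000 * m)) ⊆ range (Nat.sqrt (2000 * m) + 1) from fun p hp =>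
        mem_range.2 (Nat.lt_succ_of_le (mem_filter.1 hp).2))
    rw [card_range] at this
    exact_mod_cast this
  have h6 := PS_ite (show 12 * m ≤ 30 * m by omega)
    fun p => kap m n * (Real.log p / ((p : ℝ) - 1))
  have k1 : 132 * (m : ℝ) ^ 2 ≤ kap m n := by
    rw [kap]
    nlinarith
  have e : Real.log ((12 * m : ℕ) : ℝ) = Real.log m + (2 * Real.log 2 + Real.log 3) := by
    push_cast
    rw [show (12 : ℝ) * m = m * (2 ^ 2 * 3) by ring, Real.log_mul (by positivity) (by norm_num),
      Real.log_mul (by norm_num) (by norm_num), Real.log_pow, Nat.cast_ofNat]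
  rw [e] at g1
  have k2 := mul_le_mul_of_nonneg_left g1 (le_trans (by positivity) k1)
  have k3 : 132 * (m : ℝ) ^ 2 * 1.8949 ≤ kap m n * (2 * Real.log 2 + Real.log 3 - 0.59) :=
    mul_le_mul k1 (by linarith [Real.log_two_gt_d9, Real.log_three_gt_d9]) (by norm_num)
      (le_trans (by positivity) k1)
  simp only [PS] at h0 g2 h6
  rw [h6, ← mul_sum] at h4
  have q0 : 0 ≤ (m : ℝ) ^ 2 := by positivity
  nlinarith

end Pool.Agent.Z23
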