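import Pool.Agent.Lib.MP_caab05_ag.Z23.Base
import Pool.Agent.Lib.MP_caab05_ag.Levels

/-! The bound at the primes whose square is large. -/

namespace Pool.Agent.Z23

open Finset Polynomial Pool.Agent.Caab

namespace TailA

/-- the number of multiples of `p` among the `y + i` -/
def cnt (p : ℕ) (T : Finset ℕ) (y : ℤ) : ℕ := (T.filter fun i : ℕ => (p : ℤ) ∣ y + i).card

/-- a product of powers of linear factors -/
noncomputable def Gp (p : ℕ) (e : ℕ → ℕ) : ℚ[X] := ∏ s ∈ range p, (X - C (s : ℚ)) ^ e s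

variable {p : ℕ}

theorem Gp_monic (e : ℕ → ℕ) : (Gp p e).Monic :=
  monic_prod_of_monic _ _ fun _ _ => (monic_X_sub_C _).pow _

theorem Gp_deg (e : ℕ → ℕ) : (Gp p e).natDegree = ∑ s ∈ range p, e s := by
  rw [Gp, natDegree_prod_of_monic _ _ fun _ _ => (monic_X_sub_C _).pow _]
  simp only [natDegree_pow, natDegree_X_sub_C, mul_one]

theorem cnt_congr (T : Finset ℕ) {y s : ℤ} (h : (p : ℤ) ∣ y - s) : cnt p T y = cnt p T s :=
  congrArg card (filter_congr fun i _ => dvd_iff_dvd_of_dvd_sub (by simpa using h))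

theorem cnt_cast (T : Finset ℕ) (y : ℤ) :
    (cnt p T y : ℝ) = ∑ i ∈ T, if (p : ℤ) ∣ y + i then (1 : ℝ) else 0 := by
  simp [cnt]

theorem cnt_Ico (hp : 0 < p) (m N : ℕ) (y : ℤ) :
    N / p ≤ cnt p (Ico m (m + N)) y ∧ cnt p (Ico m (m + N)) y ≤ N / p + 1 := by
  have e : cnt p (Ico m (m + N)) y = ((range N).filter fun i : ℕ => (p : ℤ) ∣ y + m + i).card := by
    simp only [cnt, card_filter, sum_Ico_eq_sum_range, Nat.add_sub_cancel_left, Nat.cast_add,
      add_assoc]
  have h := card_dvd_run p hp (y + m) N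
  rw [← e] at h
  have hq : (0 : ℤ) < p := by exact_mod_cast hp
  have a1 := Int.mul_ediv_self_le (x := y + m + N - 1) hq.ne'
  have a2 := Int.lt_mul_ediv_self_add (x := y + m + N - 1) hq
  have b1 := Int.mul_ediv_self_le (x := y + m - 1) hq.ne'
  have b2 := Int.lt_mul_ediv_self_add (x := y + m - 1) hq
  have c1 := Int.mul_ediv_self_le (x := N) hq.ne'
  have c2 := Int.lt_mul_ediv_self_add (x := N) hq
  have d1 : (N : ℤ) / p < cnt p (Ico m (m + N)) y + 1 :=
    lt_of_mul_lt_mul_left (by rw [h]; linarith) hq.le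
  have d2 : (cnt p (Ico m (m + N)) y : ℤ) < N / p + 2 :=
    lt_of_mul_lt_mul_left (by rw [h]; linarith) hq.le
  rw [← Int.natCast_div] at d1 d2
  omega

theorem sum_cnt (hp : 0 < p) (T : Finset ℕ) : ∑ s ∈ range p, (cnt p T s : ℝ) = T.card := by
  simp only [cnt_cast]
  rw [sum_comm, card_eq_sum_ones, Nat.cast_sum]
  refine sum_congr rfl fun i _ => ?_
  have h := card_dvd_run p hp i p
  rw [show (i : ℤ) + p - 1 = i - 1 + 1 * p by ring,
    Int.add_mul_ediv_right _ _ (by exact_mod_cast hp.ne'), add_sub_cancel_left] at h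
  have h' : ((range p).filter fun s : ℕ => (p : ℤ) ∣ i + s).card = 1 := by exact_mod_cast h
  simp only [add_comm _ (i : ℤ), sum_boole, h']

variable [hp : Fact p.Prime]

theorem V_dvd {z : ℤ} (h : (p : ℤ) ∣ z) : V p (z : ℚ) 1 := V.of_ne fun h0 => by
  have := ((padicValInt_dvd_iff 1 z).1 (by simpa using h)).resolve_left (by exact_mod_cast h0)
  rw [padicValRat.of_int]
  exact_mod_cast this

theorem V_DS (T : Finset ℕ) (y : ℤ) : V p ((DS T).eval (y : ℚ)) (cnt p T y) := by
  rw [DS_eval, cnt_cast]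
  refine V.prod fun i _ => ?_
  split_ifs with h
  · simpa using V_dvd h
  · simpa using V.int (p := p) (y + i)

theorem val_le (T : Finset ℕ) (y : ℤ) (h : ∀ i ∈ T, y + i ≠ 0 ∧ |y + i| < (p : ℤ) ^ 2) :
    (padicValRat p (∏ i ∈ T, ((y : ℚ) + i)) : ℝ) ≤ cnt p T y := by
  rw [val_prod fun i hi => by exact_mod_cast (h i hi).1, cnt_cast, Int.cast_sum]
  refine sum_le_sum fun i hi => ?_
  have := valInt_le_card (y + i) 1 (h i hi).2
  rw [show (y : ℚ) + i = ((y + i : ℤ) : ℚ) by push_cast; rfl, padicValRat.of_int]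
  rw [Icc_self, filter_singleton, pow_one] at this
  split_ifs at this ⊢
  · exact_mod_cast this
  · exact_mod_cast this

theorem V_Gp (e : ℕ → ℕ) {y : ℤ} {s : ℕ} (hs : s < p) (h : (p : ℤ) ∣ y - s) :
    V p ((Gp p e).eval (y : ℚ)) (e s) := by
  rw [Gp, eval_prod, ← mul_prod_erase _ _ (mem_range.2 hs)]
  refine V.mul0 ?_ (V.prod0 fun i _ => ?_)
  · simpa using (V_dvd h).pow (e s)
  · simpa using V.int (p := p) ((y - i) ^ e i)

end TailA

open TailA

theorem tail_thm (hE : SEntry) (hL : SLev) : STail := fun a b c β hβ p hp μ n hn hμ => by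
  have := Fact.mk hp
  have p0 : (0 : ℝ) < p := by exact_mod_cast hp.pos
  set c0 : ℤ := (20 * μ / p : ℕ) - (4 * μ / p : ℕ) with hc
  obtain ⟨α, hα⟩ : ∃ α : ℝ, n = p * α := ⟨n / p, by field_simp⟩
  obtain ⟨θ, hθ⟩ : ∃ θ : ℝ, 16 * μ = p * (θ + c0) := ⟨16 * μ / p - c0, by field_simp; ring⟩
  have hw := abs_le.1 (abs_sub_round (2 * α - θ))
  generalize round (2 * α - θ) = w at hw
  set x : ℤ → ℤ := fun s => cnt p (SP μ) s - cnt p (SZ μ) s - c0 with hx
  set ee : ℕ → ℕ → ℕ := fun d s => ((w - 1 + x s - d + 1) / 2).toNat with hee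
  have key := hL p hp (Lam a b c β μ) n (∑ s ∈ range p, (w - 1 + x s).natAbs)
    (fun d => Gp p (ee d)) (w - 3 - c0) (fun _ => 0) (fun _ => Gp_monic _) (by
      rw [Gp_deg]
      refine sum_eq_zero fun s hs => ?_
      have := single_le_sum (f := fun s : ℕ => (w - 1 + x s).natAbs) (fun _ _ => Nat.zero_le _) hs
      simp only [hee]
      omega) fun i hi i' hi' d d' t ht => by
      have num : ∀ y : ℤ, V p ((DS (SZ μ) * (X ^ t * (Gp p (ee d) * Gp p (ee d')))).eval (y : ℚ))
          (w - 1 - c0 - ((d : ℝ) + d') / 2 + cnt p (SP μ) y) := fun y => by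
        have q : (0 : ℤ) < p := by exact_mod_cast hp.pos
        obtain ⟨s, hs⟩ := Int.eq_ofNat_of_zero_le (Int.emod_nonneg y q.ne')
        have h1 : s < p := by exact_mod_cast hs ▸ Int.emod_lt_of_pos y q
        have h2 : (p : ℤ) ∣ y - s := hs ▸ Int.dvd_self_sub_emod
        simp only [eval_mul, eval_pow, eval_X]
        refine ((V_DS _ y).mul (V.zero_mul' (by simpa using V.int (p := p) (y ^ t))
          ((V_Gp _ h1 h2).mul (V_Gp _ h1 h2)))).mono ?_
        have h3 : 2 * (w - 1 + x s) - d - d' ≤ 2 * ((ee d s : ℤ) + ee d' s) := by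
          simp only [hee]
          omega
        simp only [hx] at h3
        have h4 := (Int.cast_le (R := ℝ)).2 h3
        rw [cnt_congr _ h2, cnt_congr _ h2]
        push_cast at h4
        linarith
      have mem : ∀ j ∈ SP μ, 1 ≤ j ∧ j ≤ 24 * μ := fun j hj => by
        have := mem_Ico.1 hj
        omega
      have hμ' : 60 * (μ : ℤ) < p ^ 2 := by exact_mod_cast hμ
      rw [Lam_apply]
      refine (hE a b c β hβ p hp (SP μ) _ (30 * μ) (24 * μ) 1 (w - 1 - c0 - ((d : ℝ) + d') / 2) mem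
        ?_ (by rw [one_add_one_eq_two]; omega) (fun k hk => ?_) fun j hj => ?_).mono
        (by push_cast; linarith)
      · rw [(DS_monic _).natDegree_mul ((monic_X_pow t).mul ((Gp_monic _).mul (Gp_monic _))),
          (monic_X_pow t).natDegree_mul ((Gp_monic _).mul (Gp_monic _)),
          (Gp_monic _).natDegree_mul (Gp_monic _), DS_natDegree, card_SZ, card_SP, natDegree_X_pow]
        omega
      · rw [DS_eval]
        exact ((num k).div (val_le (SP μ) k fun j hj => by
          have := mem j hj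
          rw [abs_lt]
          omega)).mono (by simp)
      · have h1 := val_le (p := p) ((SP μ).erase j) (-j) fun k hk => by
          have := mem j hj
          have := mem k (mem_of_mem_erase hk)
          have := ne_of_mem_erase hk
          rw [abs_lt]
          omega
        have h2 : cnt p ((SP μ).erase j) (-j) + 1 = cnt p (SP μ) (-j) := by
          rw [cnt, filter_erase, card_erase_add_one (mem_filter.2 ⟨hj, by simp⟩), cnt]
        have h3 := num (-j)
        rw [← h2] at h3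
        simp only [Int.cast_neg, Int.cast_natCast, neg_add_eq_sub] at h1 h3
        exact (h3.div h1).mono (by push_cast; linarith)
  refine key.mono ?_
  generalize ∑ s ∈ range p, (w - 1 + x s).natAbs = D
  have s1 : ∑ d ∈ range D, ((Gp p (ee d)).natDegree : ℝ) ≤
      ∑ s ∈ range p, ((w : ℝ) ^ 2 + 1 + 2 * w * x s) / 4 := by
    simp only [Gp_deg, Nat.cast_sum]
    rw [sum_comm]
    refine sum_le_sum fun s _ => ?_
    have h1 := sum_toNat_le_hh D (w - 1 + x s)
    have h2 := cnt_Ico hp.pos 1 (4 * μ) s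
    have h3 := cnt_Ico hp.pos (4 * μ + 1) (20 * μ) s
    rw [add_comm 1 (4 * μ)] at h2
    rw [show 4 * μ + 1 + 20 * μ = 24 * μ + 1 by ring] at h3
    have h4 : x s ^ 2 ≤ 1 := (sq_le_one_iff_abs_le_one _).2 (by
      simp only [hx, hc, SP, SZ, abs_le]
      omega)
    have h5 : 4 * hh (w - 1 + x s) ≤ (w - 1 + x s + 1) ^ 2 := by
      unfold hh
      split_ifs
      · simpa using sq_nonneg _
      · omega
    have h6 : 4 * ∑ d ∈ range D, (ee d s : ℤ) ≤ w ^ 2 + 1 + 2 * w * x s := by
      simp only [hee]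
      nlinarith
    have h7 := (Int.cast_le (R := ℝ)).2 h6
    push_cast at h7
    linarith
  have s2 : ∑ s ∈ range p, (x s : ℝ) = p * θ := by
    simp only [hx, Int.cast_sub, Int.cast_natCast, sum_sub_distrib, sum_cnt hp.pos, card_SP,
      card_SZ, sum_const, card_range, nsmul_eq_mul]
    push_cast
    linarith
  rw [← sum_div, sum_add_distrib, ← mul_sum, s2, sum_const, card_range, nsmul_eq_mul] at s1
  have s3 : ((n : ℝ) ^ 2 - 16 * μ * n) / p = p * (α ^ 2 - (θ + c0) * α) := by
    rw [hθ, hα]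
    field_simp
  have s4 : 0 ≤ p * (1 / 16 + θ ^ 2 / 4 - (2 * α - θ - w) ^ 2 / 4) :=
    mul_nonneg p0.le (by nlinarith [sq_nonneg θ])
  rw [s3, hα, sum_const_zero]
  linarith

end Pool.Agent.Z23
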