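import Pool.Agent.Lib.MP_caab05_ag.Z23.Base

/-! The zero estimate: only few consecutive moments vanish. -/

namespace Pool.Agent.Z23

open Finset Polynomial Pool.Agent.Caab Filter Asymptotics

namespace ZeroAux

theorem big {Q : ℚ[X]} {n : ℕ} (h : Q.natDegree ≤ n) :
    (fun j : ℕ => Q.eval (j : ℚ)) =O[atTop] fun j : ℕ => (j : ℚ) ^ n := by
  have := (isBigO_atTop_of_degree_le Q (X ^ n)
    (by rw [degree_X_pow]; exact degree_le_of_natDegree_le h)).comp_tendsto
      (tendsto_natCast_atTop_atTop (R := ℚ))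
  simpa [Function.comp_def] using this

theorem deg_le {Q : ℚ[X]} {n : ℕ}
    (h : (fun j : ℕ => Q.eval (j : ℚ)) =O[atTop] fun j : ℕ => (j : ℚ) ^ n) : Q.natDegree ≤ n := by
  by_contra hn
  have h1 := (isLittleO_atTop_of_degree_lt (X ^ n) Q
    (by rw [degree_X_pow]; exact coe_lt_degree.2 (not_le.1 hn))).comp_tendsto
      (tendsto_natCast_atTop_atTop (R := ℚ))
  refine IsLittleO.not_isBigO (by simpa [Function.comp_def] using h1) ?_ h
  exact ((eventually_gt_atTop 0).mono fun j hj => by positivity).frequently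

theorem exT (L : ℚ[X] →ₗ[ℚ] ℚ) (F : ℚ[X]) : ∃ T : ℚ[X], ∀ z : ℚ, ∃ q,
    F = (X + C z) * q + C (F.eval (-z)) ∧ T.eval z = L q := by
  induction F using Polynomial.induction_on with
  | C r => exact ⟨0, fun z => ⟨0, by simp, by simp⟩⟩
  | add p q hp hq =>
    obtain ⟨T, hT⟩ := hp
    obtain ⟨T', hT'⟩ := hq
    refine ⟨T + T', fun z => ?_⟩
    obtain ⟨u, h1, h2⟩ := hT z
    obtain ⟨u', h3, h4⟩ := hT' z
    refine ⟨u + u', ?_, by rw [eval_add, map_add, h2, h4]⟩
    rw [eval_add, C_add]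
    linear_combination h1 + h3
  | monomial n r h =>
    obtain ⟨T, hT⟩ := h
    rw [pow_succ, ← mul_assoc]
    generalize C r * X ^ n = G at hT
    refine ⟨C (L G) - X * T, fun z => ?_⟩
    obtain ⟨u, h1, h2⟩ := hT z
    refine ⟨G - C z * u, ?_, by rw [map_sub, C_mul', map_smul, ← h2]; simp⟩
    rw [eval_mul, eval_X, C_mul, C_neg]
    linear_combination -C z * h1

theorem comp_deg (Q : ℚ[X]) : (Q.comp (X + 1)).natDegree = Q.natDegree := by
  rw [natDegree_comp, ← C_1, natDegree_X_add_C, mul_one]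

theorem comp_ne {Q : ℚ[X]} (h : Q ≠ 0) : Q.comp (X + 1) ≠ 0 := fun e => h (by
  have := congrArg (fun R : ℚ[X] => R.comp (X - 1)) e
  simpa [comp_assoc] using this)

theorem fin {f t : ℚ[X]} (hf : f ≠ 0) {a b : ℚ} (h : f * f.comp (X + 1) * (C a + C b * X) +
    X ^ 3 * (f.comp (X + 1) * t - f * t.comp (X + 1)) = 0) : a = 0 ∧ b = 0 := by
  classical
  obtain ⟨u, v, e1, e2, e3⟩ := extract_gcd f t
  rw [gcd_isUnit_iff] at e3
  generalize GCDMonoid.gcd f t = g at e1 e2
  subst e1 e2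
  obtain ⟨g0, u0⟩ := mul_ne_zero_iff.1 hf
  have h1 : u * u.comp (X + 1) * (C a + C b * X) +
      X ^ 3 * (u.comp (X + 1) * v - u * v.comp (X + 1)) = 0 :=
    mul_left_cancel₀ (mul_ne_zero g0 (comp_ne g0)) (by
      simp only [mul_comp] at h
      linear_combination h)
  have h2 : ∀ z : ℚ, u.eval z = 0 → v.eval z ≠ 0 := fun z k k' => by
    obtain ⟨p, q, e⟩ := e3
    have := congrArg (eval z) e
    simp [k, k'] at this
  have h3 : ∀ z : ℚ, z ≠ 0 → (u.eval z = 0 ↔ u.eval (z + 1) = 0) := fun z hz => by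
    have := congrArg (eval z) h1
    simp only [eval_add, eval_mul, eval_comp, eval_X, eval_one, eval_pow, eval_sub, eval_C,
      eval_zero] at this
    constructor
    · intro k
      exact mul_right_cancel₀ (mul_ne_zero (pow_ne_zero 3 hz) (h2 z k))
        (by rw [k] at this; linear_combination this)
    · intro k
      exact mul_right_cancel₀ (mul_ne_zero (pow_ne_zero 3 hz) (h2 _ k))
        (by rw [k] at this; linear_combination -this)
  have h4 : ∀ w : ℕ → ℚ, Function.Injective w → (∀ k, u.eval (w k) = 0 → u.eval (w (k + 1)) = 0) →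
      u.eval (w 0) ≠ 0 := fun w hw hk k0 =>
    u0 (eq_zero_of_infinite_isRoot _ ((Set.infinite_range_of_injective hw).mono (by
      rintro _ ⟨k, rfl⟩
      exact Nat.rec k0 hk k)))
  have h5 := h4 (fun k => k + 1) (fun i j e => by simpa using e) fun k e => by
    simpa using (h3 _ (by positivity)).1 e
  have h6 := h4 (fun k => -k) (fun i j e => by simpa using e) fun k e =>
    (h3 _ (neg_ne_zero.2 (by positivity))).2 (by simpa using e)
  simp only [Nat.cast_zero, zero_add, neg_zero] at h5 h6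
  have h7 : a = 0 := by
    have := congrArg (eval 0) h1
    simpa [eval_comp, h5, h6] using this
  have h8 : u * u.comp (X + 1) * C b + X ^ 2 * (u.comp (X + 1) * v - u * v.comp (X + 1)) = 0 :=
    mul_left_cancel₀ X_ne_zero (by rw [h7, C_0] at h1; linear_combination h1)
  have := congrArg (eval 0) h8
  exact ⟨h7, by simpa [eval_comp, h5, h6] using this⟩

variable {a b c : ℤ} {β : ℚ[X] →ₗ[ℚ] ℚ} {S S' : Finset ℕ}

theorem cancel (hR : SRep) (hB : IsB a b β) (hr : Rel a b c) (h : 0 ∉ S) (h' : 0 ∉ S')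
    {F F' : ℚ[X]} (e : F * DS S' = F' * DS S) : MM a b c β S F = MM a b c β S' F' := by
  refine Rat.cast_injective (α := ℂ) ?_
  rw [hR a b c β hB hr S h, hR a b c β hB hr S' h']
  congr 1
  funext y
  rw [div_eq_div_iff (DS_aeval_ne h y) (DS_aeval_ne h' y), ← map_mul, ← map_mul, e]

theorem single (j : ℕ) : MM a b c β {j} 1 = c - hs a b j := by
  rw [MM, (divByMonic_eq_zero_iff (DS_monic _)).2 (by
    rw [degree_one, degree_eq_natDegree (DS_monic _).ne_zero, DS_natDegree]; simp)]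
  simp [res]

theorem decay (hI : SInt) (hR : SRep) (hB : IsB a b β) (hr : Rel a b c) (h : 0 ∉ S) (G : ℚ[X]) :
    (fun j : ℕ => MM a b c β (insert j S) G * j) =O[atTop] fun _ => (1 : ℚ) := by
  obtain ⟨K, -, hK⟩ := hI a b
  obtain ⟨M, M0, hM⟩ := (PG.ratio h G).exp_bound
  refine IsBigO.of_bound (K * (2 * M)) ?_
  filter_upwards [eventually_gt_atTop (S.sup id)] with j hj
  have h1 : j ∉ S := fun k => (le_sup (f := id) k).not_gt hj
  have h2 : 1 ≤ j := by omega
  have h3 : 0 ∉ insert j S := by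
    rw [mem_insert, not_or]
    exact ⟨by omega, h⟩
  have h4 : (1 : ℝ) ≤ j := by exact_mod_cast h2
  have h5 := (hK (fun y => j * (aeval (xx y) G / aeval (xx y) (DS (insert j S)))) (2 * M)
    ((PG.const _).mul (PG.ratio h3 G)).1 fun y => ?_).2
  · rw [II_const_mul, ← hR a b c β hB hr _ h3] at h5
    rw [norm_one, mul_one, ← Rat.norm_cast_real, ← Complex.norm_real]
    push_cast
    rwa [mul_comm]
  · have h6 := le_norm_xx_add y j
    have h7 : (j : ℝ) / ‖xx y + j‖ ≤ 2 := by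
      rw [div_le_iff₀ (by linarith)]
      linarith
    rw [DS_insert h1, map_mul, show aeval (xx y) (X + C (j : ℚ)) = xx y + j by simp,
      show ∀ u v w z : ℂ, u * (v / (w * z)) = u / w * (v / z) from fun u v w z => by ring,
      norm_mul, norm_div (j : ℂ), Complex.norm_natCast, mul_assoc]
    exact mul_le_mul h7 (hM y) (norm_nonneg _) (by norm_num)

theorem hs_succ (j : ℕ) : hs a b (j + 1) = hs a b j + (a / j ^ 3 + b / j ^ 2) := sum_range_succ _ _

theorem exU (hR : SRep) (hB : IsB a b β) (hr : Rel a b c) (h : 0 ∉ S) (F : ℚ[X]) :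
    ∃ t : ℚ[X], ∀ j : ℕ, 1 ≤ j → F.eval (-(j : ℚ)) * (c - hs a b j) + t.eval (j : ℚ) =
      (DS S).eval (-(j : ℚ)) * MM a b c β (insert j S) F := by
  obtain ⟨T, hT⟩ := exT (MML a b c β S) F
  obtain ⟨T', hT'⟩ := exT (MML a b c β S) (DS S)
  refine ⟨(DS S).comp (-X) * T - F.comp (-X) * T', fun j hj => ?_⟩
  obtain ⟨q, h1, h2⟩ := hT j
  obtain ⟨q', h3, h4⟩ := hT' j
  have h5 : 0 ∉ ({j} : Finset ℕ) := by rw [mem_singleton]; omega
  have h6 : DS {j} = X + C (j : ℚ) := prod_singleton _ _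
  simp only [eval_sub, eval_mul, eval_comp, eval_neg, eval_X, h2, h4]
  by_cases k : j ∈ S
  · have h7 : (DS S).eval (-(j : ℚ)) = 0 := by
      rw [DS_eval]
      exact prod_eq_zero k (by ring)
    rw [h7, C_0, add_zero] at h3
    rw [h7, MML_apply _ _ _ _ _ q', cancel hR hB hr h h5 (F' := 1) (by rw [h6, h3]; ring), single]
    ring
  · have h7 : 0 ∉ insert j S := by
      rw [mem_insert, not_or]
      exact ⟨by omega, h⟩
    have h8 : ∀ H, MML a b c β (insert j S) ((X + C (j : ℚ)) * H) = MML a b c β S H := fun H =>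
      cancel hR hB hr h7 h (by rw [DS_insert k]; ring)
    have h9 : MML a b c β (insert j S) (DS S) = c - hs a b j :=
      (cancel hR hB hr h7 h5 (F' := 1) (by rw [h6, DS_insert k]; ring)).trans (single j)
    have e1 := congrArg (MML a b c β (insert j S)) h1
    have e2 := congrArg (MML a b c β (insert j S)) h3
    rw [map_add, h8, ← mul_one (C _), C_mul', map_smul, smul_eq_mul] at e1 e2
    rw [← MML_apply, e1, ← h9, e2]
    ring

theorem mom (hR : SRep) (hB : IsB a b β) (hr : Rel a b c) (h : 0 ∉ S) {F : ℚ[X]} {E : ℕ}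
    (h0 : ∀ e < E, MM a b c β S (F * X ^ e) = 0) {j : ℕ} (hj : 1 ≤ j) (k : j ∉ S) :
    (-(j : ℚ)) ^ E * MM a b c β (insert j S) F = MM a b c β (insert j S) (F * X ^ E) := by
  have h7 : 0 ∉ insert j S := by
    rw [mem_insert, not_or]
    exact ⟨by omega, h⟩
  induction E with
  | zero => simp
  | succ E ih =>
    have h1 : MML a b c β (insert j S) ((X + C (j : ℚ)) * (F * X ^ E)) = 0 :=
      (cancel hR hB hr h7 h (by rw [DS_insert k]; ring)).trans (h0 E (by omega))
    rw [add_mul, map_add, C_mul', map_smul, smul_eq_mul, MML_apply, MML_apply,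
      ← ih fun e he => h0 e (by omega), show X * (F * X ^ E) = F * X ^ (E + 1) by ring] at h1
    linear_combination -h1

end ZeroAux

open ZeroAux

theorem zero_thm : SInt → SRep → SZero := by
  intro hI hR a b c β hB hr hab μ P hP
  by_contra! h0
  simp only [← mul_assoc] at h0
  have hS := zero_notMem_SP μ
  obtain ⟨F, hF⟩ : ∃ F, F = DS (SZ μ) * P := ⟨_, rfl⟩
  obtain ⟨E, hE⟩ : ∃ E, E = P.natDegree + 10 := ⟨_, rfl⟩
  rw [← hF] at h0
  obtain ⟨t, ht⟩ := exU hR hB hr hS F
  obtain ⟨f, hf⟩ : ∃ f, f = F.comp (-X) := ⟨_, rfl⟩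
  obtain ⟨d, hd⟩ : ∃ d, d = (DS (SP μ)).comp (-X) := ⟨_, rfl⟩
  obtain ⟨Y, hY⟩ : ∃ Y : ℚ[X], Y = (-X) ^ E * X := ⟨_, rfl⟩
  obtain ⟨g, hg⟩ : ∃ g : ℕ → ℚ, g = fun j => MM a b c β (insert j (SP μ)) F := ⟨_, rfl⟩
  have F0 : F ≠ 0 := hF ▸ mul_ne_zero (DS_monic _).ne_zero hP
  have Y0 : Y ≠ 0 := hY ▸ mul_ne_zero (pow_ne_zero _ (neg_ne_zero.2 X_ne_zero)) X_ne_zero
  have d1 : f.natDegree = 4 * μ + P.natDegree := by
    rw [hf, natDegree_comp, hF, natDegree_mul (DS_monic _).ne_zero hP, DS_natDegree, card_SZ]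
    simp
  have d2 : d.natDegree = 20 * μ := by
    rw [hd, natDegree_comp, DS_natDegree, card_SP]
    simp
  have d3 : Y.natDegree = E + 1 := by
    rw [hY, natDegree_mul (pow_ne_zero _ (neg_ne_zero.2 X_ne_zero)) X_ne_zero]
    simp
  have hu : ∀ j : ℕ, 1 ≤ j → f.eval (j : ℚ) * (c - hs a b j) + t.eval (j : ℚ) =
      d.eval (j : ℚ) * g j := fun j hj => by
    simpa only [hf, hd, hg, eval_comp, eval_neg, eval_X] using ht j hj
  have hb : (fun j : ℕ => Y.eval (j : ℚ) * g j) =O[atTop] fun _ => (1 : ℚ) := by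
    refine (decay hI hR hB hr hS (F * X ^ E)).congr' ?_ EventuallyEq.rfl
    filter_upwards [eventually_gt_atTop (24 * μ)] with j hj
    rw [← mom hR hB hr hS (fun e he => h0 e (by omega)) (by omega) (by simp [SP]; omega), hY, hg]
    simp only [eval_mul, eval_pow, eval_neg, eval_X]
    ring
  refine hab ((fin (f := f) (t := t) (a := a) (b := b) (hf ▸ comp_neg_X_eq_zero_iff.not.2 F0)
    ?_).imp Int.cast_eq_zero.1 Int.cast_eq_zero.1)
  generalize hW : f * f.comp (X + 1) * (C (a : ℚ) + C (b : ℚ) * X) +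
    X ^ 3 * (f.comp (X + 1) * t - f * t.comp (X + 1)) = W
  have hv : ∀ j : ℕ, 1 ≤ j → W.eval (j : ℚ) = j ^ 3 * (f.eval ((j : ℚ) + 1) * (d.eval (j : ℚ) * g j) -
      f.eval (j : ℚ) * (d.eval ((j : ℚ) + 1) * g (j + 1))) := fun j hj => by
    have h1 := hu (j + 1) (by omega)
    have h2 : (j : ℚ) ≠ 0 := by positivity
    rw [hs_succ, Nat.cast_succ] at h1
    rw [← hu j hj, ← h1, ← hW]
    simp only [eval_add, eval_mul, eval_comp, eval_X, eval_one, eval_pow, eval_sub, eval_C]
    field_simp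
    ring
  by_contra W0
  have h1 : (W * Y * Y.comp (X + 1)).natDegree ≤ 3 + f.natDegree + d.natDegree + Y.natDegree := by
    refine deg_le ?_
    have k : ∀ A B G : ℚ[X], (X ^ 3 * A * B * G).natDegree ≤
        3 + A.natDegree + B.natDegree + G.natDegree := fun A B G =>
      natDegree_mul_le.trans (Nat.add_le_add_right (natDegree_mul_le.trans
        (Nat.add_le_add_right (natDegree_mul_le.trans (by simp)) _)) _)
    have a1 := k (f.comp (X + 1)) d (Y.comp (X + 1))
    have a2 := k f (d.comp (X + 1)) Y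
    simp only [comp_deg] at a1 a2
    refine (((big a1).mul hb).sub ((big a2).mul (hb.comp_tendsto (tendsto_add_atTop_nat 1)))).congr'
      ?_ (Eventually.of_forall fun j => mul_one _)
    filter_upwards [eventually_ge_atTop 1] with j hj
    simp only [eval_add, eval_mul, eval_comp, eval_X, eval_one, eval_pow, Function.comp_apply,
      Nat.cast_succ, hv j hj]
    ring
  rw [natDegree_mul (mul_ne_zero W0 Y0) (comp_ne Y0), natDegree_mul W0 Y0, comp_deg] at h1
  refine W0 (eq_zero_of_natDegree_lt_card_of_eval_eq_zero' _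
    (((Ico 1 (24 * μ)).erase (4 * μ)).image Nat.cast) (fun z hz => ?_) ?_)
  · obtain ⟨j, hj, rfl⟩ := mem_image.1 hz
    rw [mem_erase, mem_Ico] at hj
    have z1 : ∀ i : ℕ, i ∈ SZ μ → f.eval (i : ℚ) = 0 := fun i hi => by
      rw [hf, hF, eval_comp, eval_mul, DS_eval, prod_eq_zero hi (by simp), zero_mul]
    have z2 : ∀ i : ℕ, i ∈ SP μ → d.eval (i : ℚ) = 0 := fun i hi => by
      rw [hd, eval_comp, DS_eval, prod_eq_zero hi (by simp)]
    rw [hv j hj.2.1, ← Nat.cast_succ]
    rcases lt_or_gt_of_ne hj.1 with k | k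
    · rw [z1 j (by simp [SZ]; omega), z1 _ (by simp [SZ]; omega)]
      ring
    · rw [z2 j (by simp [SP]; omega), z2 _ (by simp [SP]; omega)]
      ring
  · have := pred_card_le_card_erase (s := Ico 1 (24 * μ)) (a := 4 * μ)
    rw [Nat.card_Ico] at this
    rw [card_image_of_injective _ Nat.cast_injective]
    omega

end Pool.Agent.Z23
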